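import Mathlib
import Pool.Agent.N70.AW.Sc
import Pool.Agent.N70.AW.Sd
import Pool.Agent.N70.EP.Stm

/-!
The matrix of polynomials at the points.
-/

set_option autoImplicit false
set_option linter.unusedSectionVars false
set_option linter.unusedSimpArgs false

namespace Pool.Agent.N70.AW.EPc

open Polynomial Pool.Agent.H391R2 Pool.Agent.H391R2.T4
open Pool.Agent.N70.EP (Dt0)
open Pool.Agent.Y793 (cl sub_cl cl_closed cl_le derivative_adr)

section mat

variable {N : Type} [Field N]

/-- The derivative of a determinant, at a point where the matrix is diagonal. -/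
theorem der_det {m : ℕ} (Q : Matrix (Fin m) (Fin m) N[X]) (r : N) (D : Fin m → N)
    (hD : ∀ t t', (Q t t').eval r = Matrix.diagonal D t t') (t₀ : Fin m) (h0 : D t₀ = 0) :
    (derivative Q.det).eval r =
      (∏ t ∈ Finset.univ.erase t₀, D t) * (derivative (Q t₀ t₀)).eval r := by
  classical
  have h1 : ∀ t', (X - C r) ∣ Q t₀ t' := by
    intro t'
    rw [dvd_iff_isRoot, IsRoot.def, hD]
    by_cases ht : t₀ = t'
    · subst ht
      rw [Matrix.diagonal_apply_eq, h0]
    · rw [Matrix.diagonal_apply_ne _ ht]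
  choose R hR using h1
  have h2 : Q = Q.updateRow t₀ ((X - C r) • R) := by
    conv_lhs => rw [← Matrix.updateRow_eq_self Q t₀]
    congr 1
    funext t'
    exact hR t'
  have h3 : Q.det = (X - C r) * (Q.updateRow t₀ R).det := by
    conv_lhs => rw [h2]
    rw [Matrix.det_updateRow_smul]
  have h4 : (derivative (Q t₀ t₀)).eval r = (R t₀).eval r := by
    rw [hR t₀]
    simp
  have h5 : (derivative Q.det).eval r = ((Q.updateRow t₀ R).det).eval r := by
    rw [h3]
    simp
  rw [h5, h4]
  have h6 := (evalRingHom r).map_det (Q.updateRow t₀ R)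
  rw [coe_evalRingHom] at h6
  rw [h6]
  have h7 : (evalRingHom r).mapMatrix (Q.updateRow t₀ R) =
      (Matrix.diagonal D).updateRow t₀ (fun t' => (R t').eval r) := by
    funext t t'
    rw [RingHom.mapMatrix_apply, Matrix.map_apply]
    by_cases ht : t = t₀
    · subst ht
      rw [Matrix.updateRow_self, Matrix.updateRow_self, coe_evalRingHom]
    · rw [Matrix.updateRow_ne ht, Matrix.updateRow_ne ht, coe_evalRingHom]
      exact hD t t'
  rw [h7]
  have h8 := Matrix.cramer_transpose_apply (Matrix.diagonal D) (fun t' => (R t').eval r) t₀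
  rw [← h8, Matrix.diagonal_transpose, Matrix.cramer_eq_adjugate_mulVec,
    Matrix.adjugate_diagonal, Matrix.mulVec_diagonal]

end mat

section pts

variable {K Z N ι : Type} [Field K] [CharZero K] [Field Z] [Algebra (RatFunc K) Z] [Algebra K Z]
  [IsScalarTower K (RatFunc K) Z] [Fintype ι] [Field N] [Algebra K N]
  {P : Subgroup (Z ≃ₐ[RatFunc K] Z)} {m k d : ℕ} {κ : Option ι → K[X]} {v : Option ι → Z}
  {x : Option ι → Option ι → Z} {e es : Fin m → Z} {S : Matrix (Fin m) (Fin m) K[X]}
  {M L : Option ι → Option ι → Matrix (Fin m) (Fin m) K[X]}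
  (D : Dt0 P m k d κ v x e es S M L) (φ : Z →ₐ[K] N) (c : Option ι → N) (T : N)

theorem ev_pz (φ : Z →ₐ[K] N) (p : K[X]) :
    φ (pz Z p) = (p.map (algebraMap K N)).eval (φ (tv K Z)) := by
  rw [poly_ev, eval_map_algebraMap]

theorem PM_ev (κ : Option ι → K[X]) (M : Option ι → Option ι → Matrix (Fin m) (Fin m) K[X])
    (c : Option ι → N) (T : N) (φ : Z →ₐ[K] N) (l l' : Fin m) :
    (PM κ M c T l l').eval (φ (tv K Z)) =
      (T - (AA κ c).eval (φ (tv K Z))) * (1 : Matrix (Fin m) (Fin m) N) l l' -
        ∑ i, ∑ j, c i * c j * φ (pz Z (M i j l l')) := by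
  rw [PM_apply, eval_sub, eval_mul, eval_sub, eval_C]
  congr 1
  · congr 1
    by_cases h : l = l'
    · subst h
      simp
    · simp [Matrix.one_apply_ne h]
  · unfold MM
    rw [eval_finsetSum]
    refine Finset.sum_congr rfl fun i _ => ?_
    rw [eval_finsetSum]
    refine Finset.sum_congr rfl fun j _ => ?_
    rw [eval_mul, eval_C, ev_pz]

/-- The value of the function on a point. -/
noncomputable def FF (κ : Option ι → K[X]) (x : Option ι → Option ι → Z) (c : Option ι → N)
    (φ : Z →ₐ[K] N) : N :=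
  BF κ c c (φ (tv K Z)) (fun i j => φ (x i j))

include D

theorem row (l' : Fin m) :
    ∑ l, φ (e l) * (PM κ M c T l l').eval (φ (tv K Z)) = (T - FF κ x c φ) * φ (e l') := by
  have h1 : ∑ l, φ (e l) * (PM κ M c T l l').eval (φ (tv K Z)) =
      ∑ l, φ (e l) * ((T - (AA κ c).eval (φ (tv K Z))) * (1 : Matrix (Fin m) (Fin m) N) l l') -
      ∑ l, ∑ i, ∑ j, c i * c j * φ (pz Z (M i j l l') * e l) := by
    rw [← Finset.sum_sub_distrib]
    refine Finset.sum_congr rfl fun l _ => ?_
    rw [PM_ev, mul_sub, Finset.mul_sum]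
    congr 1
    refine Finset.sum_congr rfl fun i _ => ?_
    rw [Finset.mul_sum]
    refine Finset.sum_congr rfl fun j _ => ?_
    rw [map_mul]
    ring
  have h2 : ∑ l, φ (e l) * ((T - (AA κ c).eval (φ (tv K Z))) *
      (1 : Matrix (Fin m) (Fin m) N) l l') = (T - (AA κ c).eval (φ (tv K Z))) * φ (e l') := by
    rw [Finset.sum_eq_single l']
    · rw [Matrix.one_apply_eq]
      ring
    · intro l _ hl
      rw [Matrix.one_apply_ne hl]
      ring
    · intro h
      exact absurd (Finset.mem_univ _) h
  have h3 : ∑ l, ∑ i, ∑ j, c i * c j * φ (pz Z (M i j l l') * e l) =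
      (∑ i, ∑ j, c i * c j * φ (x i j)) * φ (e l') := by
    rw [Finset.sum_comm, Finset.sum_mul]
    refine Finset.sum_congr rfl fun i _ => ?_
    rw [Finset.sum_comm, Finset.sum_mul]
    refine Finset.sum_congr rfl fun j _ => ?_
    rw [← Finset.mul_sum, ← map_sum, ← D.mul_e, map_mul]
    ring
  rw [h1, h2, h3]
  unfold FF
  rw [BF_AA]
  ring

theorem col (l : Fin m) :
    ∑ l', (PM κ M c T l l').eval (φ (tv K Z)) * φ (es l') = (T - FF κ x c φ) * φ (es l) := by
  have h1 : ∑ l', (PM κ M c T l l').eval (φ (tv K Z)) * φ (es l') =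
      ∑ l', φ (es l') * ((T - (AA κ c).eval (φ (tv K Z))) *
        (1 : Matrix (Fin m) (Fin m) N) l l') -
      ∑ l', ∑ i, ∑ j, c i * c j * φ (pz Z (M i j l l') * es l') := by
    rw [← Finset.sum_sub_distrib]
    refine Finset.sum_congr rfl fun l' _ => ?_
    rw [PM_ev, sub_mul, Finset.sum_mul]
    congr 1
    · ring
    refine Finset.sum_congr rfl fun i _ => ?_
    rw [Finset.sum_mul]
    refine Finset.sum_congr rfl fun j _ => ?_
    rw [map_mul]
    ring
  have h2 : ∑ l', φ (es l') * ((T - (AA κ c).eval (φ (tv K Z))) *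
      (1 : Matrix (Fin m) (Fin m) N) l l') = (T - (AA κ c).eval (φ (tv K Z))) * φ (es l) := by
    rw [Finset.sum_eq_single l]
    · rw [Matrix.one_apply_eq]
      ring
    · intro l' _ hl
      rw [Matrix.one_apply_ne hl.symm]
      ring
    · intro h
      exact absurd (Finset.mem_univ _) h
  have h3 : ∑ l', ∑ i, ∑ j, c i * c j * φ (pz Z (M i j l l') * es l') =
      (∑ i, ∑ j, c i * c j * φ (x i j)) * φ (es l) := by
    rw [Finset.sum_comm, Finset.sum_mul]
    refine Finset.sum_congr rfl fun i _ => ?_
    rw [Finset.sum_comm, Finset.sum_mul]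
    refine Finset.sum_congr rfl fun j _ => ?_
    rw [← Finset.mul_sum, ← map_sum, ← D.mul_es, map_mul]
    ring
  rw [h1, h2, h3]
  unfold FF
  rw [BF_AA]
  ring

theorem dual1' : ∑ l, φ (e l) * φ (es l) = 1 := by
  have h1 := congrArg φ D.dual1
  rw [map_sum, map_one] at h1
  simpa only [map_mul] using h1

theorem der' : ∑ l, ∑ l', φ (e l) * (derivative (PM κ M c T l l')).eval (φ (tv K Z)) * φ (es l') =
    -(∑ j, c j * φ (v j)) ^ 2 := by
  have h1 : ∀ l l', (derivative (PM κ M c T l l')).eval (φ (tv K Z)) =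
      -((lk κ c * lk κ c).eval (φ (tv K Z))) * (1 : Matrix (Fin m) (Fin m) N) l l' -
        ∑ i, ∑ j, c i * c j * φ (pz Z (derivative (M i j l l'))) := by
    intro l l'
    have h2 : derivative (PM κ M c T l l') = -(lk κ c * lk κ c) *
        (1 : Matrix (Fin m) (Fin m) N[X]) l l' -
        ∑ i, ∑ j, C (c i * c j) * (derivative (M i j l l')).map (algebraMap K N) := by
      rw [PM_apply, derivative_sub]
      congr 1
      · have h3 : derivative (AA κ c) = lk κ c * lk κ c := derivative_adr _
        by_cases h : l = l'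
        · subst h
          rw [Matrix.one_apply_eq, mul_one, mul_one, derivative_sub, h3, derivative_C, zero_sub]
        · rw [Matrix.one_apply_ne h, mul_zero, mul_zero, derivative_zero]
      · unfold MM
        rw [derivative_sum]
        refine Finset.sum_congr rfl fun i _ => ?_
        rw [derivative_sum]
        refine Finset.sum_congr rfl fun j _ => ?_
        rw [derivative_C_mul, derivative_map]
    rw [h2, eval_sub, eval_mul, eval_neg]
    congr 1
    · congr 1
      by_cases h : l = l'
      · subst h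
        simp
      · simp [Matrix.one_apply_ne h]
    · rw [eval_finsetSum]
      refine Finset.sum_congr rfl fun i _ => ?_
      rw [eval_finsetSum]
      refine Finset.sum_congr rfl fun j _ => ?_
      rw [eval_mul, eval_C, ev_pz]
  have h2 : ∑ l, ∑ l', φ (e l) * (derivative (PM κ M c T l l')).eval (φ (tv K Z)) * φ (es l') =
      -((lk κ c * lk κ c).eval (φ (tv K Z))) -
      ∑ i, ∑ j, c i * c j * φ (∑ l, ∑ l', e l * pz Z (derivative (M i j l l')) * es l') := by
    have h3 : ∀ l l', φ (e l) * (derivative (PM κ M c T l l')).eval (φ (tv K Z)) * φ (es l') =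
        -((lk κ c * lk κ c).eval (φ (tv K Z))) * (φ (e l) *
          (1 : Matrix (Fin m) (Fin m) N) l l' * φ (es l')) -
        ∑ i, ∑ j, c i * c j * φ (e l * pz Z (derivative (M i j l l')) * es l') := by
      intro l l'
      rw [h1, mul_sub, sub_mul, Finset.mul_sum, Finset.sum_mul]
      congr 1
      · ring
      · refine Finset.sum_congr rfl fun i _ => ?_
        rw [Finset.mul_sum, Finset.sum_mul]
        refine Finset.sum_congr rfl fun j _ => ?_
        rw [map_mul, map_mul]
        ring
    simp only [h3, Finset.sum_sub_distrib]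
    congr 1
    · simp only [← Finset.mul_sum]
      have h4 : ∑ l, ∑ l', φ (e l) * (1 : Matrix (Fin m) (Fin m) N) l l' * φ (es l') = 1 := by
        rw [← dual1' D φ]
        refine Finset.sum_congr rfl fun l _ => ?_
        rw [Finset.sum_eq_single l]
        · rw [Matrix.one_apply_eq, mul_one]
        · intro l' _ hl
          rw [Matrix.one_apply_ne hl.symm]
          ring
        · intro h
          exact absurd (Finset.mem_univ _) h
      rw [h4, mul_one]
    · simp only [map_sum, Finset.mul_sum]
      have h5 : ∀ l, ∑ l', ∑ i, ∑ j, c i * c j * φ (e l * pz Z (derivative (M i j l l')) * es l') =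
          ∑ i, ∑ j, ∑ l', c i * c j * φ (e l * pz Z (derivative (M i j l l')) * es l') := by
        intro l
        rw [Finset.sum_comm]
        refine Finset.sum_congr rfl fun i _ => ?_
        rw [Finset.sum_comm]
      simp only [h5]
      rw [Finset.sum_comm]
      refine Finset.sum_congr rfl fun i _ => ?_
      rw [Finset.sum_comm]
  rw [h2]
  have h3 : ∀ i j, φ (∑ l, ∑ l', e l * pz Z (derivative (M i j l l')) * es l') =
      φ (v i) * φ (v j) - φ (pz Z (κ i * κ j)) := by
    intro i j
    rw [← map_mul, D.der i j, map_add]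
    ring
  simp only [h3]
  have h4 : (lk κ c * lk κ c).eval (φ (tv K Z)) = ∑ i, ∑ j, c i * c j * φ (pz Z (κ i * κ j)) := by
    rw [eval_mul]
    have h5 : (lk κ c).eval (φ (tv K Z)) = ∑ i, c i * φ (pz Z (κ i)) := by
      unfold lk
      rw [eval_finsetSum]
      refine Finset.sum_congr rfl fun i _ => ?_
      rw [eval_mul, eval_C, ev_pz]
    rw [h5, Finset.sum_mul_sum]
    refine Finset.sum_congr rfl fun i _ => ?_
    refine Finset.sum_congr rfl fun j _ => ?_
    have h6 : pz Z (κ i * κ j) = pz Z (κ i) * pz Z (κ j) := by simp [pz]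
    rw [h6, map_mul]
    ring
  rw [h4, sq, Finset.sum_mul_sum]
  simp only [mul_sub, Finset.sum_sub_distrib]
  have h7 : ∑ i, ∑ j, c i * φ (v i) * (c j * φ (v j)) =
      ∑ i, ∑ j, c i * c j * (φ (v i) * φ (v j)) := by
    refine Finset.sum_congr rfl fun i _ => ?_
    refine Finset.sum_congr rfl fun j _ => ?_
    ring
  rw [h7]
  ring

end pts

end Pool.Agent.N70.AW.EPc
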