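import Mathlib
import Pool.Agent.N70.EP.Voc

/-!
# Vocabulary: infinite fibre products of alternating fibre powers
-/

set_option autoImplicit false

namespace Pool.Agent.N70.EP.Voc

/-- All components of `z` are mapped to the same element `ρ` of `Γ`. -/
def FibMem {J Γ : Type} {E : J → Type} [∀ i, Group (E i)] [Group Γ] (π : ∀ i, E i →* Γ)
    (z : (∀ i, E i) × Γ) : Prop := ∀ i, π i (z.1 i) = z.2

section

variable {J Γ : Type} {E : J → Type} [∀ i, Group (E i)] [Group Γ] {π : ∀ i, E i →* Γ}

theorem fibMem_one : FibMem π 1 := fun i => map_one (π i)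

theorem fibMem_mul {z w : (∀ i, E i) × Γ} (h : FibMem π z) (h' : FibMem π w) :
    FibMem π (z * w) := fun i => by
  change π i (z.1 i * w.1 i) = z.2 * w.2
  rw [map_mul, h, h']

theorem fibMem_inv {z : (∀ i, E i) × Γ} (h : FibMem π z) : FibMem π z⁻¹ := fun i => by
  change π i (z.1 i)⁻¹ = z.2⁻¹
  rw [map_inv, h]

end

/-- The fibre product of a (finite or infinite) family of homomorphisms `π i : E i → Γ`. -/
def FibreProduct {J Γ : Type} {E : J → Type} [∀ i, Group (E i)] [Group Γ] (π : ∀ i, E i →* Γ) :
    Subgroup ((∀ i, E i) × Γ) where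
  carrier := {z | FibMem π z}
  one_mem' := fibMem_one
  mul_mem' := fibMem_mul
  inv_mem' := fibMem_inv

/-- The embedding problem over `K` given by the finite Galois extension `L` and the projection to
`Gal(L/K)` of the fibre product of the `π i : E i → Gal(L/K)` has a proper solution: there are a Galois
extension `F` of `K` containing `L` and an isomorphism `γ` of `Gal(F/K)` with the fibre product such
that all components of `γ` are continuous (have open kernel) and the component in `Gal(L/K)` is the
restriction. -/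
def InfProper {K L J : Type} {E : J → Type} [Field K] [Field L] [Algebra K L] [∀ i, Group (E i)]
    (π : ∀ i, E i →* (L ≃ₐ[K] L)) : Prop :=
  ∃ (F : Type) (_ : Field F) (_ : Algebra K F) (_ : Algebra L F) (_ : IsScalarTower K L F)
    (_ : IsGalois K F) (γ : (F ≃ₐ[K] F) ≃* FibreProduct π),
    (∀ i, IsOpen {σ : F ≃ₐ[K] F | (γ σ).1.1 i = 1}) ∧
    ∀ (σ : F ≃ₐ[K] F) (x : L), σ (algebraMap L F x) = algebraMap L F ((γ σ).1.2 x)

/-- The embedding problem for the fibre product of the `twPr (α i) (χ i) (n i)` has a proper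
solution. -/
def InfTwProper {K L J : Type} {B : J → Type} [Field K] [Field L] [Algebra K L]
    [∀ i, Group (B i)] (α : ∀ i, B i →* (L ≃ₐ[K] L)) (χ : J → ((L ≃ₐ[K] L) →* ℤˣ))
    (n : J → ℕ) : Prop :=
  InfProper (fun i => twPr (α i) (χ i) (n i))

end Pool.Agent.N70.EP.Voc
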