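import Mathlib
import Pool.Agent.N70.EP.Sh
import Pool.Agent.Y793.Tc
import Pool.Agent.H391R2.T4.Utl
import Pool.Agent.H391R2.T4.Fam

/-!
An element of small support.
-/

set_option autoImplicit false
set_option linter.unusedSectionVars false
set_option linter.unusedSimpArgs false

namespace Pool.Agent.N70.AW.EPc

open Polynomial Pool.Agent.H391R2 Pool.Agent.H391R2.T4
open Pool.Agent.N70.EP (Dt0 evenT)
open Pool.Agent.Y793 (cl sub_cl cl_closed cl_le St_gen St_iso St_ext St_grp tz Rl AWr adr
  coeff_adr_succ coeff_adr_zero exists_trb)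

section sub

variable {K ι : Type} [Field K] [Fintype ι] (κ : Option (Option ι) → K[X]) {m : ℕ}
  (M : Option (Option ι) → Option (Option ι) → Matrix (Fin m) (Fin m) K[X])
variable {E : Type} [CommRing E] [Algebra K E]

/-- A vector of parameters of the large family. -/
def ext (c : Option ι → E) (ε : E) : Option (Option ι) → E := fun j =>
  j.elim (c none) fun i => i.elim ε fun i => c (some i)

theorem lk_ext (c : Option ι → E) (ε : E) :
    lk κ (ext c ε) = lk (fun j : Option ι => κ (j.map some)) c +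
      C ε * (κ (some none)).map (algebraMap K E) := by
  unfold lk
  rw [Fintype.sum_option, Fintype.sum_option, Fintype.sum_option]
  simp only [ext, Option.elim_none, Option.elim_some, Option.map_none, Option.map_some]
  ring

theorem MM_ext (c : Option ι → E) :
    MM M (ext c 0) = MM (fun i j => M (i.map some) (j.map some)) c := by
  funext l l'
  unfold MM
  simp only [Fintype.sum_option, ext, Option.elim_none, Option.elim_some, Option.map_none,
    Option.map_some, mul_zero, zero_mul, map_zero, add_zero, zero_add, Finset.sum_const_zero]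

theorem PM_ext (c : Option ι → E) (T : E) :
    PM κ M (ext c 0) T =
      PM (fun j : Option ι => κ (j.map some)) (fun i j => M (i.map some) (j.map some)) c T := by
  unfold PM AA
  rw [MM_ext, lk_ext, map_zero, zero_mul, add_zero]

end sub

section tow

theorem adr_tower {K F E : Type} [Field K] [CharZero K] [Field F] [Algebra K F] [CommRing E]
    [Algebra K E] [Algebra F E] [IsScalarTower K F E] (p : E[X]) : adr K p = adr F p := by
  ext n
  rcases n with _ | n
  · rw [coeff_adr_zero, coeff_adr_zero]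
  · rw [coeff_adr_succ, coeff_adr_succ, IsScalarTower.algebraMap_apply K F E, map_inv₀, map_add,
      map_natCast, map_one]

theorem sep_of {F : Type} [Field F] [IsAlgClosed F] (f : F[X])
    (h : ∀ x, f.eval x = 0 → (derivative f).eval x ≠ 0) : f.Separable := by
  unfold Polynomial.Separable
  rw [isCoprime_iff_aeval_ne_zero_of_isAlgClosed F F]
  intro a
  rw [coe_aeval_eq_eval]
  by_contra hcon
  push Not at hcon
  exact h a hcon.1 hcon.2

end tow

section transport

theorem X_trans {F Ω : Type} [Field F] [Field Ω] (j : PowerSeries F →+* Ω)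
    (hj : Function.Injective j) (p : F[X])
    (hp : (p.map (j.comp PowerSeries.C)).eval (j PowerSeries.X) = 0) : p = 0 := by
  have h1 : (p.map (j.comp PowerSeries.C)).eval (j PowerSeries.X) = j (p : PowerSeries F) := by
    rw [eval_map, ← Polynomial.hom_eval₂, Polynomial.eval₂_C_X_eq_coe]
  rw [h1] at hp
  have h2 : (p : PowerSeries F) = 0 := hj (by rw [hp, map_zero])
  exact Polynomial.coe_eq_zero_iff.1 h2

theorem transport {ι k₀ N F Ω : Type} [Field k₀] [Field N] [IsAlgClosed N] [Algebra k₀ N]
    [Field F] [Algebra k₀ F] [Field Ω] [IsAlgClosed Ω] (η : Ix (Option ι) → N)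
    (hη : IsTranscendenceBasis k₀ η) (η₁ : Ix ι → F) (hη₁ : AlgebraicIndependent k₀ η₁)
    (j : PowerSeries F →+* Ω) (hj : Function.Injective j) :
    ∃ j₀ : N →+* Ω, (∀ a : k₀, j₀ (algebraMap k₀ N a) = j (PowerSeries.C (algebraMap k₀ F a))) ∧
      (∀ i, j₀ (η (Sum.inl i)) =
        j (ext (fun i => PowerSeries.C (η₁ (Sum.inl i))) PowerSeries.X i)) ∧
      j₀ (η (Sum.inr ())) = j (PowerSeries.C (η₁ (Sum.inr ()))) ∧
      ∀ τ : Ω ≃+* Ω, (∀ a, τ (j a) = j a) →
        ∃ σ : N ≃ₐ[k₀] N, (∀ i, σ (η i) = η i) ∧ ∀ x, j₀ (σ x) = τ (j₀ x) := by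
  let jC : F →+* Ω := j.comp PowerSeries.C
  let _ : Algebra F Ω := jC.toAlgebra
  let _ : Algebra k₀ Ω := (jC.comp (algebraMap k₀ F)).toAlgebra
  have hTk : IsScalarTower k₀ F Ω := IsScalarTower.of_algebraMap_eq fun x => rfl
  let η₂ : Ix (Option ι) → Ω := Sum.elim
    (fun i => j (ext (fun i => PowerSeries.C (η₁ (Sum.inl i))) PowerSeries.X i))
    (fun _ => j (PowerSeries.C (η₁ (Sum.inr ()))))
  have hη₂ : AlgebraicIndependent k₀ η₂ := by
    have htrans : Transcendental F (j PowerSeries.X) := by
      rw [transcendental_iff]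
      intro p hp
      rw [aeval_def, ← eval_map] at hp
      exact X_trans j hj p hp
    have h1 : AlgebraicIndependent F (fun _ : Unit => j PowerSeries.X) :=
      algebraicIndependent_unique_type_iff.2 htrans
    have h2 := AlgebraicIndependent.sumElim_comp hη₁ h1
    let θ : Ix (Option ι) → Unit ⊕ Ix ι := fun v => match v with
      | Sum.inl none => Sum.inr (Sum.inl none)
      | Sum.inl (some none) => Sum.inl ()
      | Sum.inl (some (some i)) => Sum.inr (Sum.inl (some i))
      | Sum.inr () => Sum.inr (Sum.inr ())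
    have hθ : Function.Injective θ := by
      rintro ((_ | _ | a) | ⟨⟩) ((_ | _ | b) | ⟨⟩) h <;> simp_all [θ]
    have h3 := h2.comp θ hθ
    have h4 : (Sum.elim (fun _ : Unit => j PowerSeries.X) (algebraMap F Ω ∘ η₁)) ∘ θ = η₂ := by
      funext v
      rcases v with (_ | _ | a) | ⟨⟩ <;> rfl
    rw [h4] at h3
    exact h3
  obtain ⟨j₀, hj₀⟩ := Pool.Agent.H391R2.T4.lift_family η hη η₂ hη₂
  refine ⟨j₀, fun a => j₀.commutes a, fun i => hj₀ (Sum.inl i), hj₀ (Sum.inr ()),
    fun τ hτ => ?_⟩
  have hτη : ∀ v, τ (η₂ v) = η₂ v := by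
    intro v
    rcases v with v | v
    · exact hτ _
    · exact hτ _
  let τk : Ω →ₐ[k₀] Ω := { (τ : Ω →+* Ω) with commutes' := fun x => hτ _ }
  have halg : Algebra.IsAlgebraic (IntermediateField.adjoin k₀ (Set.range η)) N :=
    hη.isAlgebraic_field
  have hnor : Normal (IntermediateField.adjoin k₀ (Set.range η)) N := by
    have : IsAlgClosure (IntermediateField.adjoin k₀ (Set.range η)) N := ⟨inferInstance, halg⟩
    exact IsAlgClosure.normal _ N
  obtain ⟨σ, hσ⟩ := Pool.Agent.H391R2.T4.exists_restrict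
    (F := IntermediateField.adjoin k₀ (Set.range η)) (j₀ : N →+* Ω) τ (fun x => by
      refine Pool.Agent.H391R2.T4.eq_on_adjoin (τk.comp j₀) j₀ (Set.range η) ?_ _ x.2
      rintro _ ⟨v, rfl⟩
      change τ (j₀ (η v)) = j₀ (η v)
      rw [hj₀, hτη])
  exact ⟨σ.restrictScalars k₀,
    fun i => σ.commutes ⟨η i, IntermediateField.subset_adjoin _ _ ⟨i, rfl⟩⟩, hσ⟩

end transport

section small

variable {K Z N ι : Type} [Field K] [CharZero K] [Field Z] [Algebra (RatFunc K) Z] [Algebra K Z]
  [IsScalarTower K (RatFunc K) Z] [FiniteDimensional (RatFunc K) Z] [IsGalois (RatFunc K) Z]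
  [Fintype ι] [Field N] [Algebra K N] [IsAlgClosed N]
  {P : Subgroup (Z ≃ₐ[RatFunc K] Z)} {m k d : ℕ} {κ : Option (Option ι) → K[X]}
  {v : Option (Option ι) → Z}
  {x : Option (Option ι) → Option (Option ι) → Z} {e es : Fin m → Z}
  {S : Matrix (Fin m) (Fin m) K[X]}
  {M L : Option (Option ι) → Option (Option ι) → Matrix (Fin m) (Fin m) K[X]}
  (D : Dt0 P m (k + 2) d κ v x e es S M L)
  (D₁ : Dt0 P m k d (fun j : Option ι => κ (j.map some)) (fun j : Option ι => v (j.map some))
        (fun i j : Option ι => x (i.map some) (j.map some)) e es S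
        (fun i j : Option ι => M (i.map some) (j.map some)) (fun i j : Option ι => L (i.map some) (j.map some)))
  (hdeg : (κ (some none)).natDegree = k + 2)
  {k₀ : Type} [Field k₀] [Algebra K k₀] [Algebra k₀ N] [IsScalarTower K k₀ N]
  (η : Ix (Option ι) → N) (hη : IsTranscendenceBasis k₀ η)

include D D₁ hdeg hη

theorem exists_small (hgen : St_gen) (hiso : St_iso) (hhens : St_hens) (hval : St_val)
    (hm : 0 < m) (g : Fin m → (Z ≃ₐ[RatFunc K] Z))
    (hg : Function.Injective (fun t => (g t : (Z ≃ₐ[RatFunc K] Z) ⧸ P)))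
    {r : Fin (m * (2 * (k + 2) + 1)) → N} (hr : Function.Injective r)
    (hroot : ∀ i, (PM κ M (fun i => η (Sum.inl i)) (η (Sum.inr ()))).det.eval (r i) = 0) :
    ∃ (σ : N ≃ₐ[k₀] N) (π : Equiv.Perm (Fin (m * (2 * (k + 2) + 1)))), (∀ i, σ (η i) = η i) ∧
      (∀ i, σ (r i) = r (π i)) ∧ π ≠ 1 ∧ π.support.card ≤ 4 * m := by
  classical
  obtain ⟨F, i1, i2, i3, η₁, hη₁⟩ := exists_trb k₀ (Ix ι)
  let i4 : Algebra K F := ((algebraMap k₀ F).comp (algebraMap K k₀)).toAlgebra
  have i5 : IsScalarTower K k₀ F := .of_algebraMap_eq fun _ => rfl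
  have hcF : CharZero F := charZero_of_injective_algebraMap (algebraMap K F).injective
  -- the small polynomial
  set Ψ₀ : F[X] := (PM (fun j : Option ι => κ (j.map some)) (fun i j : Option ι => M (i.map some) (j.map some))
    (fun i : Option ι => η₁ (Sum.inl i)) (η₁ (Sum.inr ()))).det with hΨ₀
  obtain ⟨hd₀, -⟩ := deg_ne D₁ η₁ hη₁
  have hsep : Ψ₀.Separable := sep_of _ fun y hy => der_ne D₁ η₁ hη₁ hgen hiso g hg hy
  -- the large polynomial
  let c₂ : Option (Option ι) → PowerSeries F :=
    ext (fun i => PowerSeries.C (η₁ (Sum.inl i))) PowerSeries.X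
  let T₂ : PowerSeries F := PowerSeries.C (η₁ (Sum.inr ()))
  set f : (PowerSeries F)[X] := (PM κ M c₂ T₂).det with hf
  have hKP : ∀ a : K, algebraMap K (PowerSeries F) a = PowerSeries.C (algebraMap K F a) :=
    fun a => PowerSeries.algebraMap_apply
  have hfc : f.map PowerSeries.constantCoeff = Ψ₀ := by
    let cc : PowerSeries F →ₐ[K] F :=
      { (PowerSeries.constantCoeff : PowerSeries F →+* F) with
        commutes' := fun a => by
          change PowerSeries.constantCoeff (algebraMap K (PowerSeries F) a) = _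
          rw [hKP, PowerSeries.constantCoeff_C] }
    have h1 := det_PM_map κ M cc c₂ T₂
    have h2 : (cc : PowerSeries F →+* F) = PowerSeries.constantCoeff := rfl
    rw [h2] at h1
    rw [hf, h1, hΨ₀, ← PM_ext]
    have h3 : (fun i => cc (c₂ i)) = ext (fun i : Option ι => η₁ (Sum.inl i)) 0 := by
      funext i
      rcases i with _ | _ | i
      · exact PowerSeries.constantCoeff_C _
      · exact PowerSeries.constantCoeff_X
      · exact PowerSeries.constantCoeff_C _
    have h4 : cc T₂ = η₁ (Sum.inr ()) := PowerSeries.constantCoeff_C _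
    rw [h3, h4]
  have hAne : (AA κ c₂).coeff (2 * (k + 2) + 1) ≠ 0 := by
    rw [AA_coeff κ D.kdeg]
    refine mul_ne_zero ?_ (pow_ne_zero 2 ?_)
    · rw [hKP]
      intro h0
      have h1 : algebraMap K F (((2 * (k + 2) : ℕ) : K) + 1)⁻¹ = 0 :=
        PowerSeries.C_injective (by rw [h0, map_zero])
      rw [FaithfulSMul.algebraMap_eq_zero_iff] at h1
      exact inv_ne_zero (by exact_mod_cast Nat.succ_ne_zero (2 * (k + 2))) h1
    · have h1 : (lk κ c₂).coeff (k + 2) = PowerSeries.X *
          PowerSeries.C (algebraMap K F ((κ (some none)).coeff (k + 2))) := by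
        change (lk κ (ext (fun i => PowerSeries.C (η₁ (Sum.inl i))) PowerSeries.X)).coeff (k + 2) = _
        rw [lk_ext, coeff_add, coeff_C_mul, coeff_map, hKP]
        have h2 : (lk (fun j => κ (Option.map some j)) fun i : Option ι =>
            (PowerSeries.C (η₁ (Sum.inl i)) : PowerSeries F)).coeff (k + 2) = 0 := by
          refine coeff_eq_zero_of_natDegree_lt (lt_of_le_of_lt (lk_deg _ D₁.kdeg _) (by omega))
        rw [h2, zero_add]
      rw [h1]
      refine mul_ne_zero PowerSeries.X_ne_zero fun h0 => ?_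
      have h2 : algebraMap K F ((κ (some none)).coeff (k + 2)) = 0 :=
        PowerSeries.C_injective (by rw [h0, map_zero])
      rw [FaithfulSMul.algebraMap_eq_zero_iff, ← hdeg] at h2
      exact leadingCoeff_ne_zero.2 (D.lin.ne_zero none) h2
  obtain ⟨hd₂, hn₂⟩ := PM_deg' κ M D.kdeg D.deg D.dk c₂ T₂ hAne
  -- integrality
  have hk₁ : (lk (fun j : Option ι => κ (j.map some)) (fun i : Option ι => η₁ (Sum.inl i))).natDegree ≤ k :=
    lk_deg (fun j : Option ι => κ (j.map some)) D₁.kdeg (fun i : Option ι => η₁ (Sum.inl i))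
  have hk₂ : ((κ (some none)).map (algebraMap K F)).natDegree = k + 2 := by
    rw [natDegree_map, hdeg]
  have hM₂ : ∀ l l', (MM M c₂ l l').natDegree ≤ d := fun l l' => MM_deg M D.deg c₂ l l'
  have hint : ∀ y : LaurentSeries F, (f.map (algebraMap (PowerSeries F) (LaurentSeries F))).eval y
      = 0 → y ∈ Set.range (algebraMap (PowerSeries F) (LaurentSeries F)) := by
    refine hval F k d m
      (lk (fun j : Option ι => κ (j.map some)) (fun i : Option ι => η₁ (Sum.inl i)))
      ((κ (some none)).map (algebraMap K F)) hk₁ hk₂ D₁.dk T₂ (AA κ c₂)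
      (MM M c₂) ?_ hM₂
    have e1 : (algebraMap K (PowerSeries F)) = (PowerSeries.C : F →+* _).comp (algebraMap K F) :=
      RingHom.ext hKP
    have e2 : lk (fun j : Option ι => κ (j.map some))
        (fun i : Option ι => (PowerSeries.C (η₁ (Sum.inl i)) : PowerSeries F)) =
        (lk (fun j : Option ι => κ (j.map some)) (fun i : Option ι => η₁ (Sum.inl i))).map
          (PowerSeries.C (R := F)) := by
      let ψ : F →ₐ[K] PowerSeries F :=
        { (PowerSeries.C : F →+* PowerSeries F) with commutes' := fun a => (hKP a).symm }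
      exact (lk_map (fun j : Option ι => κ (j.map some)) ψ
        (fun i : Option ι => η₁ (Sum.inl i))).symm
    have e3 : lk κ c₂ = (lk (fun j : Option ι => κ (j.map some))
          (fun i : Option ι => η₁ (Sum.inl i))).map (PowerSeries.C (R := F)) +
        C PowerSeries.X * ((κ (some none)).map (algebraMap K F)).map (PowerSeries.C (R := F)) := by
      change lk κ (ext (fun i : Option ι => PowerSeries.C (η₁ (Sum.inl i))) PowerSeries.X) = _
      rw [lk_ext, e2, e1, Polynomial.map_map]
    have hTo : IsScalarTower K F (PowerSeries F) := IsScalarTower.of_algebraMap_eq fun a => by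
      rw [hKP, PowerSeries.algebraMap_apply]
      rfl
    unfold AA
    rw [e3, adr_tower (K := K) (F := F), sq]
  -- the field
  obtain ⟨Ω, u1, u2, u3, u4⟩ : ∃ (Ω : Type) (_ : Field Ω) (_ : IsAlgClosed Ω)
      (_ : Algebra (LaurentSeries F) Ω), Algebra.IsAlgebraic (LaurentSeries F) Ω :=
    ⟨AlgebraicClosure (LaurentSeries F), inferInstance, inferInstance, inferInstance,
      inferInstance⟩
  let j : PowerSeries F →+* Ω :=
    (algebraMap (LaurentSeries F) Ω).comp (algebraMap (PowerSeries F) (LaurentSeries F))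
  have hj : Function.Injective j := (algebraMap (LaurentSeries F) Ω).injective.comp
    (IsFractionRing.injective (PowerSeries F) (LaurentSeries F))
  obtain ⟨j₀, hj₁, hj₂, hj₃, hj₄⟩ := transport η hη η₁ hη₁.1 j hj
  -- the roots
  let _ : Algebra K Ω := ((j.comp PowerSeries.C).comp (algebraMap K F)).toAlgebra
  let φj : PowerSeries F →ₐ[K] Ω :=
    { j with
      commutes' := fun a => by
        change j (algebraMap K (PowerSeries F) a) = _
        rw [hKP]
        rfl }
  let φ₀ : N →ₐ[K] Ω :=
    { j₀ with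
      commutes' := fun a => by
        change j₀ (algebraMap K N a) = _
        rw [IsScalarTower.algebraMap_apply K k₀ N, hj₁]
        rfl }
  have hmap : f.map j = (PM κ M (fun i => η (Sum.inl i)) (η (Sum.inr ()))).det.map j₀ := by
    have h1 := det_PM_map κ M φj c₂ T₂
    have h2 := det_PM_map κ M φ₀ (fun i => η (Sum.inl i)) (η (Sum.inr ()))
    have h3 : (φj : PowerSeries F →+* Ω) = j := rfl
    have h4 : (φ₀ : N →+* Ω) = j₀ := rfl
    have h5 : (fun i => φ₀ (η (Sum.inl i))) = fun i => φj (c₂ i) := funext fun i => hj₂ i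
    have h6 : φ₀ (η (Sum.inr ())) = φj T₂ := hj₃
    rw [h3] at h1
    rw [h4, h5, h6] at h2
    rw [hf, h1, h2]
  have hroot' : ∀ i, ((f.map (algebraMap (PowerSeries F) (LaurentSeries F))).map
      (algebraMap (LaurentSeries F) Ω)).eval (j₀ (r i)) = 0 := by
    intro i
    have h1 : (f.map (algebraMap (PowerSeries F) (LaurentSeries F))).map
      (algebraMap (LaurentSeries F) Ω) = f.map j := by rw [Polynomial.map_map]
    rw [h1, hmap, eval_map_apply, hroot, map_zero]
  obtain ⟨τ, π, h1, h2, h3⟩ := hhens F f (m * (2 * (k + 2) + 1)) (m * (2 * k + 1)) hd₂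
    (by rw [hfc]; exact hd₀) (by rw [hfc]; exact hsep)
    (Nat.mul_lt_mul_of_pos_left (by omega) hm) hint Ω (fun i => j₀ (r i))
    (j₀.injective.comp hr) hroot'
  obtain ⟨σ, hσ₁, hσ₂⟩ := hj₄ τ.toRingEquiv (fun a => τ.commutes _)
  refine ⟨σ, π, hσ₁, fun i => ?_, h2, h3.trans ?_⟩
  · apply j₀.injective
    rw [hσ₂]
    exact h1 i
  · have h5 : m * (2 * (k + 2) + 1) = m * (2 * k + 1) + 4 * m := by ring
    omega

end small

end Pool.Agent.N70.AW.EPc
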