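import Mathlib
import Pool.Agent.H391R2.T4.Hil
import Pool.Agent.Y793.Stm

/-!
# A class of finite groups

`Wr G n` is the wreath product `G ≀ S_n = (Fin n → G) ⋊ Perm (Fin n)`, and `AWr G n` is its subgroup
`G ≀ A_n` of the elements over even permutations.
-/

set_option autoImplicit false

open Pool.Agent.H391R2 (Wr)
open Pool.Agent.H391R2.T4 (RegSol)
open Pool.Agent.Y793 (AWr)

namespace Pool.Agent.N70.EP

/-- `G` is a nontrivial finite group with trivial centre such that the group of the inner
automorphisms has a complement in `Aut G`. -/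
structure Base (G : Type) [Group G] : Prop where
  finite : Finite G
  nontrivial : Nontrivial G
  center : Subgroup.center G = ⊥
  compl : ∃ C : Subgroup (MulAut G), IsCompl C (MulAut.conj : G →* MulAut G).range

/-- The class of groups, depending on a function `κ` with values `κ G r`. It is the smallest class of
groups which
* contains `G ≀ A_n` for every perfect group `G` with the property `Base`, if `n = 6 r (2 k + 1)` with
  `r` odd, `r ≥ ((72 |G| + 2)!)^3` and `k ≥ κ G r`,
* contains `G ≀ S_n` for every group `G` with the property `Base` if `n ≥ ((3 |G| + 2)!)^3`,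
* contains the finite groups with trivial centre all of whose automorphisms are inner which are
  Galois groups of regular extensions of `ℚ(t)`,
* contains `T ≀ S_n` if it contains the nontrivial group `T` and `n ≥ 2 (|T| + 2)`,
* is closed under finite direct products, direct factors, isomorphisms and characteristic extensions
  (it contains `T` if it contains `C` and `T / C` for a characteristic subgroup `C` of `T`). -/
inductive Uni (κ : ∀ (G : Type) [Group G], ℕ → ℕ) : ∀ (T : Type) [Group T], Prop
  | alternating (G : Type) [Group G] (hG : Base G) (hP : commutator G = ⊤) (r k : ℕ)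
      (hr : Odd r) (hr' : ((72 * Nat.card G + 2).factorial) ^ 3 ≤ r) (hk : κ G r ≤ k) :
      Uni κ (AWr G (6 * r * (2 * k + 1)))
  | symmetric (G : Type) [Group G] (hG : Base G) (n : ℕ)
      (hn : ((3 * Nat.card G + 2).factorial) ^ 3 ≤ n) : Uni κ (Wr G n)
  | complete (T : Type) [Group T] [Finite T] (hZ : Subgroup.center T = ⊥)
      (hI : ∀ a : MulAut T, ∃ g : T, a = MulAut.conj g) (hR : RegSol ℚ ℚ T 1) : Uni κ T
  | power (T : Type) [Group T] [Nontrivial T] (h : Uni κ T) (n : ℕ)
      (hn : 2 * (Nat.card T + 2) ≤ n) : Uni κ (Wr T n)
  | prod (I : Type) [Finite I] (T : I → Type) [∀ i, Group (T i)] (h : ∀ i, Uni κ (T i)) :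
      Uni κ (∀ i, T i)
  | factor (A B : Type) [Group A] [Group B] (h : Uni κ (A × B)) : Uni κ A
  | extension (T : Type) [Group T] (C : Subgroup T) [C.Characteristic] (h : Uni κ C)
      (h' : Uni κ (T ⧸ C)) : Uni κ T
  | iso (T T' : Type) [Group T] [Group T'] (e : T ≃* T') (h : Uni κ T) : Uni κ T'

end Pool.Agent.N70.EP
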