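import Mathlib
import Pool.Agent.N70.EP.Stm
import Pool.Agent.N600.UK.Main

/-!
Statements (NOT results) of further pieces of the project EP (helper70): kernels of embedding
problems in characteristic zero.
-/

set_option autoImplicit false

namespace Pool.Agent.N70.EP

open Pool.Agent.H391R2 (Wr)
open Pool.Agent.H391R2.T4 (RegSol)
open Pool.Agent.Y793 (AWr)
open Pool.Agent.N600.UK (CL)

/-- All embedding problems with kernel `T` over fields of characteristic zero have regular
solutions. -/
def GoodKer0 (T : Type) [Group T] : Prop :=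
  ∀ (K L X : Type) [Field K] [CharZero K] [Field L] [Algebra K L] [FiniteDimensional K L]
    [IsGalois K L] [Group X] (α : X →* (L ≃ₐ[K] L)), Function.Surjective α →
    Nonempty (α.ker ≃* T) → RegSol K L X α

/-- CMP: the inner automorphisms of `G ≀ A_n` have a complement. -/
def St_cmp : Prop :=
  ∀ (G : Type) [Group G] [Finite G] [Nontrivial G], (∀ z : G, (∀ g : G, z * g = g * z) → z = 1) →
    (∃ C : Subgroup (MulAut G), IsCompl C (MulAut.conj : G →* MulAut G).range) →
    ∀ n : ℕ, 2 * (Nat.card G + 4) ≤ n →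
      (∀ z : AWr G n, (∀ g : AWr G n, z * g = g * z) → z = 1) ∧
      ∃ C : Subgroup (MulAut (AWr G n)), IsCompl C (MulAut.conj : AWr G n →* MulAut (AWr G n)).range

/-- GD0: closure properties. -/
structure St_gd0 : Prop where
  iso : ∀ (T T' : Type) [Group T] [Group T'] (_ : T ≃* T'), GoodKer0 T → GoodKer0 T'
  factor : ∀ (A B : Type) [Group A] [Group B], GoodKer0 (A × B) → GoodKer0 A
  char : ∀ (T : Type) [Group T] [Finite T] (C : Subgroup T) [C.Characteristic], GoodKer0 C →
    GoodKer0 (T ⧸ C) → GoodKer0 T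
  pi : ∀ (I : Type) [Finite I] (T : I → Type) [∀ i, Group (T i)] [∀ i, Finite (T i)],
    (∀ i, CL (T i)) → (∀ i, GoodKer0 (T i)) → GoodKer0 (∀ i, T i)
  wr : ∀ (T : Type) [Group T] [Finite T] [Nontrivial T], CL T → GoodKer0 T →
    ∀ n : ℕ, 2 * (Nat.card T + 2) ≤ n → GoodKer0 (Wr T n)
  complete : ∀ (T : Type) [Group T] [Finite T], CL T → (∀ a : MulAut T, ∃ g : T, a = MulAut.conj g) →
    RegSol ℚ ℚ T 1 → GoodKer0 T

end Pool.Agent.N70.EP
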