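import Mathlib
import Pool.Agent.N70.EP.Core
import Pool.Agent.N70.AW.Fin
import Pool.Agent.Y793.E.All

/-!
The main theorem for regular solutions.
-/

set_option autoImplicit false
set_option linter.unusedSectionVars false
set_option linter.unusedSimpArgs false

namespace Pool.Agent.N70.EP

open Polynomial Pool.Agent.H391R2 Pool.Agent.H391R2.T4
open Pool.Agent.Y793 (AltTw twProj)

/-- A square root of a character. -/
theorem exists_rho (K L : Type) [Field K] [CharZero K] [Field L] [Algebra K L]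
    [FiniteDimensional K L] [IsGalois K L] (χ : (L ≃ₐ[K] L) →* ℤˣ) :
    ∃ (ρ : L) (δ : K), ρ ≠ 0 ∧ algebraMap K L δ = ρ ^ 2 ∧
      ∀ h : L ≃ₐ[K] L, h ρ = ((χ h : ℤˣ) : ℤ) • ρ := by
  classical
  have hcL : CharZero L := charZero_of_injective_algebraMap (algebraMap K L).injective
  have hli : LinearIndependent L (fun h : L ≃ₐ[K] L => (h : L → L)) :=
    (linearIndependent_monoidHom L L).comp (fun h : L ≃ₐ[K] L => (h : L →* L))
      (fun h h' hh => AlgEquiv.ext fun x => DFunLike.congr_fun hh x)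
  have hx : ∃ x : L, ∑ h : L ≃ₐ[K] L, ((χ h : ℤˣ) : ℤ) • h x ≠ 0 := by
    by_contra hcon
    push Not at hcon
    have h1 := Fintype.linearIndependent_iff.1 hli
      (fun h => (((χ h : ℤˣ) : ℤ) : L)) (by
        funext x
        rw [Finset.sum_apply]
        simp only [Pi.smul_apply, smul_eq_mul, Pi.zero_apply]
        rw [← hcon x]
        refine Finset.sum_congr rfl fun h _ => ?_
        rw [zsmul_eq_mul]) 1
    rw [map_one] at h1
    simp at h1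
  obtain ⟨x, hx⟩ := hx
  set ρ := ∑ h : L ≃ₐ[K] L, ((χ h : ℤˣ) : ℤ) • h x with hρ
  have h2 : ∀ h' : L ≃ₐ[K] L, h' ρ = ((χ h' : ℤˣ) : ℤ) • ρ := by
    intro h'
    rw [hρ, map_sum, Finset.smul_sum, ← Equiv.sum_comp (Equiv.mulLeft h')
      (fun h => ((χ h' : ℤˣ) : ℤ) • ((χ h : ℤˣ) : ℤ) • h x)]
    refine Finset.sum_congr rfl fun h _ => ?_
    rw [map_zsmul, Equiv.coe_mulLeft, map_mul, smul_smul, Units.val_mul, ← mul_assoc]
    have h3 : ((χ h' : ℤˣ) : ℤ) * ((χ h' : ℤˣ) : ℤ) = 1 := by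
      rcases Int.units_eq_one_or (χ h') with h4 | h4 <;> simp [h4]
    rw [h3, one_mul]
    rfl
  have h4 : ρ ^ 2 ∈ (⊥ : IntermediateField K L) := by
    rw [IsGalois.mem_bot_iff_fixed]
    intro h
    rw [map_pow, h2, zsmul_eq_mul, mul_pow]
    rcases Int.units_eq_one_or (χ h) with h5 | h5 <;> simp [h5]
  obtain ⟨δ, hδ⟩ := IntermediateField.mem_bot.1 h4
  exact ⟨ρ, δ, hx, hδ, h2⟩

theorem sgnIndex_comap {Γ Γ' : Type} [Group Γ] [Group Γ'] (γ : Γ' ≃* Γ) (P : Subgroup Γ) (m : ℕ)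
    (ψ : Γ →* ℤˣ) (h : SgnIndex Γ P m ψ) :
    SgnIndex Γ' (P.comap (γ : Γ' →* Γ)) m (ψ.comp (γ : Γ' →* Γ)) := by
  obtain ⟨g, hg, h2⟩ := h
  have key : ∀ a b : Γ', ((a : Γ' ⧸ P.comap (γ : Γ' →* Γ)) = b) ↔ ((γ a : Γ ⧸ P) = γ b) := by
    intro a b
    rw [QuotientGroup.eq, QuotientGroup.eq, Subgroup.mem_comap]
    simp
  refine ⟨fun t => γ.symm (g t), ⟨fun t t' htt => hg.1 ?_, fun a => ?_⟩, fun a π h => ?_⟩
  · have h3 := (key _ _).1 htt
    simpa using h3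
  · obtain ⟨a, rfl⟩ := QuotientGroup.mk_surjective a
    obtain ⟨t, ht⟩ := hg.2 (γ a : Γ ⧸ P)
    refine ⟨t, (key _ _).2 ?_⟩
    simpa using ht
  · refine h2 (γ a) π fun t => ?_
    have h3 := (key _ _).1 (h t)
    simpa using h3

theorem mainT (hdat : St_datT) (K L : Type) [Field K] [CharZero K] [Field L] [Algebra K L]
    [FiniteDimensional K L] [IsGalois K L] (X : Type) [Group X] [Finite X]
    (π : X →* (L ≃ₐ[K] L)) (hX : RegSol K L X π)
    (P : Subgroup X) (m : ℕ) (hPπ : P.map π = ⊤) (hm : Even m) (hm0 : 0 < m)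
    (χ : (L ≃ₐ[K] L) →* ℤˣ) (hidx : SgnIndex X P m (χ.comp π))
    {B : Type} [Group B] [Finite B] (β : P →* B) (hβ : Function.Surjective β)
    (a : B →* (L ≃ₐ[K] L)) (ha : ∀ p : P, a (β p) = π p) (hperf : commutator a.ker = ⊤) :
    ∃ k₀ : ℕ, ∀ k ≥ k₀, RegSol K L (AltTw a χ (m * (2 * k + 1)))
      (twProj a χ (m * (2 * k + 1))) := by
  obtain ⟨Z, i1, i2, i3, i4, i5, i6, i7, i8, γ, hγ, hreg⟩ := hX
  obtain ⟨ρ, δ, hρ0, hδ, hρ⟩ := exists_rho K L χ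
  let π' : (Z ≃ₐ[RatFunc K] Z) →* (L ≃ₐ[K] L) := π.comp (γ : (Z ≃ₐ[RatFunc K] Z) →* X)
  let P' : Subgroup (Z ≃ₐ[RatFunc K] Z) := P.comap (γ : (Z ≃ₐ[RatFunc K] Z) →* X)
  have hmap : P'.map (γ : (Z ≃ₐ[RatFunc K] Z) →* X) = P :=
    Subgroup.map_comap_eq_self_of_surjective γ.surjective P
  have hPπ' : P'.map π' = ⊤ := by
    rw [← Subgroup.map_map, hmap, hPπ]
  let e : P' ≃* P := (γ.subgroupMap P').trans (MulEquiv.subgroupCongr hmap)
  have hidx' : SgnIndex (Z ≃ₐ[RatFunc K] Z) P' m (χ.comp π') := sgnIndex_comap γ P m _ hidx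
  exact coreT Y203.J.t_gen Y203.J.t_iso Y241.WR.t_ext Y241.WR.t_grp Y793.starL hdat
    N24.AW.small N400.AW.HENS.t_hens N945.AW.val π' hγ hreg P' m hPπ' hm hm0 χ hidx' ρ δ hρ0 hδ hρ (β.comp (e : P' →* P))
    (hβ.comp e.surjective) a (fun p => ha (e p)) hperf

end Pool.Agent.N70.EP
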