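import Mathlib
import Pool.Agent.N70.EP.Main
import Pool.Agent.N342.EP.Grp1
import Pool.Agent.N123.EP.GRP2
import Pool.Agent.N600.UK.Main

/-!
Alternating fibre powers of embedding problems.
-/

set_option autoImplicit false
set_option linter.unusedSectionVars false
set_option linter.unusedSimpArgs false

namespace Pool.Agent.N70.EP

open Polynomial Pool.Agent.H391R2 Pool.Agent.H391R2.T4
open Pool.Agent.Y793 (AltTw twProj reg_wr regSol_iso)

theorem regularOver_of {K A : Type} [Field K] [Group A] (h : RegSol K K A 1) :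
    TH444.TW.RegularOver K A := by
  obtain ⟨Z, i1, i2, i3, i4, i5, i6, i7, i8, γ, -, hreg⟩ := h
  have h34 : i3 = i4 := Algebra.algebra_ext i3 i4 (fun x =>
    (@IsScalarTower.algebraMap_apply K K Z _ _ _ _ i3 i4 i6 x).symm)
  subst h34
  exact ⟨Z, i1, i2, i3, i5, i7, i8, ⟨γ⟩, hreg⟩

section t1

variable (K L : Type) [Field K] [CharZero K] [Field L] [Algebra K L]
    [FiniteDimensional K L] [IsGalois K L] {B : Type} [Group B] [Finite B]
    (a : B →* (L ≃ₐ[K] L))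

theorem surj_of_weak (hw : WeakSol K L B a) : Function.Surjective a := by
  obtain ⟨L', i1, i2, i3, i4, i5, i6, s, hs⟩ := hw
  intro ρ
  obtain ⟨ρ', hρ'⟩ := AlgEquiv.restrictNormalHom_surjective (F := K) (K₁ := L) L' ρ
  exact ⟨s ρ', (hs ρ').trans hρ'⟩

/-- The weakly solvable case. -/
theorem t1 (hdat : St_datT) (hw : WeakSol K L B a) (hperf : commutator a.ker = ⊤)
    (χ : (L ≃ₐ[K] L) →* ℤˣ) (r : ℕ) (hr : Odd r)
    (hr2 : ((3 * Nat.card (a.comp (MonoidHom.fst B (Equiv.Perm (Fin 4)))).ker + 2).factorial) ^ 3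
      ≤ r) :
    ∃ k₀ : ℕ, ∀ k ≥ k₀, RegSol K L (AltTw a χ (6 * r * (2 * k + 1)))
      (twProj a χ (6 * r * (2 * k + 1))) := by
  have ha := surj_of_weak K L a hw
  have hw2 : WeakSol K L (B × Equiv.Perm (Fin 4)) (a.comp (MonoidHom.fst B _)) := by
    obtain ⟨L', i1, i2, i3, i4, i5, i6, s, hs⟩ := hw
    exact ⟨L', i1, i2, i3, i4, i5, i6, (MonoidHom.inl B _).comp s, hs⟩
  have h1 := (regSol_iff K L (SymEP _ r) (symProj _ r)).2
    (Pool.Agent.TH59.WX.reg_fin_unif K L _ _ hw2 r hr2).1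
  have hfin : Finite (SymEP (a.comp (MonoidHom.fst B (Equiv.Perm (Fin 4)))) r) :=
    finite_sym K L _ _ r
  obtain ⟨P, β, hβ, hβ2, hidx⟩ := N342.EP.t_grp1 (L ≃ₐ[K] L) B a ha χ r hr
  obtain ⟨s, hs⟩ := id hr
  refine mainT hdat K L _ _ h1 P (6 * r) ?_ (Even.mul_right (by decide) _) (by omega) χ hidx β hβ a
    hβ2 hperf
  rw [Subgroup.eq_top_iff']
  intro ρ
  obtain ⟨b, rfl⟩ := ha ρ
  obtain ⟨p, rfl⟩ := hβ b
  exact Subgroup.mem_map.2 ⟨p, p.2, (hβ2 p).symm⟩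

/-- The general case. -/
theorem t2 (hdat : St_datT) (ha : Function.Surjective a) (hperf : commutator a.ker = ⊤) :
    ∃ r₀ : ℕ, ∀ r ≥ r₀, ∃ k₀ : ℕ, ∀ k ≥ k₀,
      RegSol K L (AltTw a 1 (4 * Nat.card (L ≃ₐ[K] L) * r * (2 * k + 1)))
        (twProj a 1 (4 * Nat.card (L ≃ₐ[K] L) * r * (2 * k + 1))) := by
  obtain ⟨n₀, hn₀⟩ := reg_wr K (B × (Multiplicative (ZMod 2) × Multiplicative (ZMod 2)))
  refine ⟨n₀ + 1, fun r hr => ?_⟩
  have hfin : Finite (Wr (B × (Multiplicative (ZMod 2) × Multiplicative (ZMod 2))) r) :=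
    finite_wr _ r
  have h1 : RegSol K L (Wr (B × (Multiplicative (ZMod 2) × Multiplicative (ZMod 2))) r ×
      (L ≃ₐ[K] L)) (MonoidHom.snd _ _) :=
    N600.UK.snd_rsk K _ (regularOver_of (hn₀ r (by omega))) (L ≃ₐ[K] L) K L (MulEquiv.refl _)
  obtain ⟨P, β, hβ, hβ2, hidx⟩ := N123.EP.GRP2.t_grp2 (L ≃ₐ[K] L) B a ha r (by omega)
  have hc : 0 < Nat.card (L ≃ₐ[K] L) := Nat.card_pos
  refine mainT hdat K L _ _ h1 P (4 * Nat.card (L ≃ₐ[K] L) * r) ?_
    (Even.mul_right (Even.mul_right (by decide) _) _)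
    (Nat.mul_pos (Nat.mul_pos (by omega) hc) (by omega)) 1 ?_ β hβ a hβ2 hperf
  · rw [Subgroup.eq_top_iff']
    intro ρ
    obtain ⟨b, rfl⟩ := ha ρ
    obtain ⟨p, rfl⟩ := hβ b
    exact Subgroup.mem_map.2 ⟨p, p.2, (hβ2 p).symm⟩
  · rw [MonoidHom.one_comp]
    exact hidx

end t1

theorem altTw_one {E₀ Γ : Type} [Group E₀] [Group Γ] (α : E₀ →* Γ) (n : ℕ) :
    AltTw α 1 n = Y793.AltEP α n := by
  ext z
  constructor
  · intro h
    exact Subgroup.mem_inf.2 ⟨(Subgroup.mem_inf.1 h).1, (Subgroup.mem_inf.1 h).2⟩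
  · intro h
    exact Subgroup.mem_inf.2 ⟨(Subgroup.mem_inf.1 h).1, (Subgroup.mem_inf.1 h).2⟩

end Pool.Agent.N70.EP
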