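import Mathlib
import Pool.Agent.N70.EP.TA
import Pool.Agent.N455.EP.Bch
import Pool.Agent.N999.EP.One
import Pool.Agent.N216.EP.Uni

/-!
Uniformity in the fields.
-/

set_option autoImplicit false
set_option linter.unusedSectionVars false
set_option linter.unusedSimpArgs false

namespace Pool.Agent.N70.EP

open Polynomial Pool.Agent.H391R2 Pool.Agent.H391R2.T4
open Pool.Agent.Y793 (AltTw twProj reg_wr regSol_iso)
open Pool.Agent.TH444.TW (RSK)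

/-- One Galois extension decides regular steps. -/
theorem transfer (H : Type) [Group H] [Finite H] :
    ∃ (K₀ L₀ : Type) (_ : Field K₀) (_ : CharZero K₀) (_ : Field L₀) (_ : Algebra K₀ L₀)
      (_ : FiniteDimensional K₀ L₀) (_ : IsGalois K₀ L₀) (e₀ : (L₀ ≃ₐ[K₀] L₀) ≃* H),
      ∀ (E : Type) [Group E] [Finite E] (α : E →* H),
        RegSol K₀ L₀ E ((e₀.symm : H →* (L₀ ≃ₐ[K₀] L₀)).comp α) → RSK ℚ α := by
  obtain ⟨K₀, L₀, i1, i2, i3, i4, i5, i6, e₀, huni⟩ := N216.EP.uni_of N999.EP.t_one H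
  refine ⟨K₀, L₀, i1, i2, i3, i4, i5, i6, e₀, ?_⟩
  intro E _ _ α hα K M _ _ _ _ _ _ _ ε
  have hcK : CharZero K := charZero_of_injective_algebraMap (algebraMap ℚ K).injective
  obtain ⟨K₁, L₁, j1, j2, j3, j4, j5, j6, j7, j8, j9, f, f₀, h1, h2, h3, h4⟩ := huni K M ε
  refine h4 E (ε.symm.toMonoidHom.comp α) ?_
  have h5 := N455.EP.t_bch K₀ L₀ K₁ L₁ f₀ h2 E _ hα
  have h6 : ((f.symm : (M ≃ₐ[K] M) →* (L₁ ≃ₐ[K₁] L₁)).comp (ε.symm.toMonoidHom.comp α)) =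
      ((f₀.symm : (L₀ ≃ₐ[K₀] L₀) →* (L₁ ≃ₐ[K₁] L₁)).comp
        ((e₀.symm : H →* (L₀ ≃ₐ[K₀] L₀)).comp α)) := by
    ext1 x
    change f.symm (ε.symm (α x)) = f₀.symm (e₀.symm (α x))
    rw [MulEquiv.symm_apply_eq, MulEquiv.symm_apply_eq, h3, MulEquiv.apply_symm_apply,
      MulEquiv.apply_symm_apply]
  rw [h6]
  exact h5

/-- Transport of the twisted fibre powers. -/
def twTrans {B Γ Γ' : Type} [Group B] [Group Γ] [Group Γ'] (e : Γ' ≃* Γ) (a : B →* Γ)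
    (χ : Γ →* ℤˣ) (n : ℕ) :
    AltTw ((e.symm : Γ →* Γ').comp a) (χ.comp (e : Γ' →* Γ)) n ≃* AltTw a χ n where
  toFun z := ⟨(z.1.1, e z.1.2), Subgroup.mem_inf.2 ⟨fun i => by
    have h1 := (Subgroup.mem_inf.1 z.2).1 i
    change e.symm (a (z.1.1.left i)) = z.1.2 at h1
    change a (z.1.1.left i) = e z.1.2
    rw [← h1, e.apply_symm_apply], (Subgroup.mem_inf.1 z.2).2⟩⟩
  invFun z := ⟨(z.1.1, e.symm z.1.2), Subgroup.mem_inf.2 ⟨fun i => by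
    have h1 := (Subgroup.mem_inf.1 z.2).1 i
    change a (z.1.1.left i) = z.1.2 at h1
    change e.symm (a (z.1.1.left i)) = e.symm z.1.2
    rw [h1], by
      have h1 := (Subgroup.mem_inf.1 z.2).2
      change Equiv.Perm.sign z.1.1.right = χ z.1.2 at h1
      change Equiv.Perm.sign z.1.1.right = χ (e (e.symm z.1.2))
      rw [h1, e.apply_symm_apply]⟩⟩
  left_inv z := Subtype.ext (Prod.ext rfl (e.symm_apply_apply _))
  right_inv z := Subtype.ext (Prod.ext rfl (e.apply_symm_apply _))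
  map_mul' z w := Subtype.ext (Prod.ext rfl (e.map_mul _ _))

theorem ker_symm_comp {B Γ Γ' : Type} [Group B] [Group Γ] [Group Γ'] (e : Γ' ≃* Γ) (a : B →* Γ) :
    ((e.symm : Γ →* Γ').comp a).ker = a.ker := by
  ext x
  rw [MonoidHom.mem_ker, MonoidHom.mem_ker]
  exact e.symm.map_eq_one_iff

theorem rsk_tw {H B : Type} [Group H] [Finite H] [Group B] [Finite B] (a : B →* H)
    (χ : H →* ℤˣ) (n : ℕ) {K₀ L₀ : Type} [Field K₀] [Field L₀] [Algebra K₀ L₀]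
    [FiniteDimensional K₀ L₀] [IsGalois K₀ L₀] (e₀ : (L₀ ≃ₐ[K₀] L₀) ≃* H)
    (h : ∀ (E : Type) [Group E] [Finite E] (α : E →* H),
        RegSol K₀ L₀ E ((e₀.symm : H →* (L₀ ≃ₐ[K₀] L₀)).comp α) → RSK ℚ α)
    (h2 : RegSol K₀ L₀ (AltTw ((e₀.symm : H →* (L₀ ≃ₐ[K₀] L₀)).comp a)
      (χ.comp (e₀ : (L₀ ≃ₐ[K₀] L₀) →* H)) n) (twProj ((e₀.symm : H →* (L₀ ≃ₐ[K₀] L₀)).comp a)
      (χ.comp (e₀ : (L₀ ≃ₐ[K₀] L₀) →* H)) n)) : RSK ℚ (twProj a χ n) := by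
  have hW : Finite (Wr B n) := finite_wr B n
  have hf : Finite (AltTw a χ n) := inferInstance
  refine h _ (twProj a χ n) ?_
  refine regSol_iso K₀ L₀ _ _ _ _ (twTrans e₀ a χ n) (fun z => ?_) h2
  exact e₀.symm_apply_apply _

theorem card_ker_fst {B Γ : Type} [Group B] [Group Γ] (a : B →* Γ) :
    Nat.card (a.comp (MonoidHom.fst B (Equiv.Perm (Fin 4)))).ker = 24 * Nat.card a.ker := by
  let e : (a.comp (MonoidHom.fst B (Equiv.Perm (Fin 4)))).ker ≃ Equiv.Perm (Fin 4) × a.ker :=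
    { toFun := fun z => (z.1.2, ⟨z.1.1, z.2⟩)
      invFun := fun z => ⟨(z.2.1, z.1), z.2.2⟩
      left_inv := fun _ => rfl
      right_inv := fun _ => rfl }
  have h1 : Nat.card (Equiv.Perm (Fin 4)) = 24 := by
    rw [Nat.card_perm, Nat.card_fin]
    rfl
  rw [Nat.card_congr e, Nat.card_prod, h1]

/-- The split case, uniformly in the fields. -/
theorem t1u (hdat : St_datT) (H B : Type) [Group H] [Finite H] [Group B] [Finite B] (a : B →* H)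
    (s : H →* B) (hs : ∀ h, a (s h) = h) (hperf : commutator a.ker = ⊤) (χ : H →* ℤˣ) (r : ℕ)
    (hr : Odd r) (hr2 : ((3 * (24 * Nat.card a.ker) + 2).factorial) ^ 3 ≤ r) :
    ∃ k₀ : ℕ, ∀ k ≥ k₀, RSK ℚ (twProj a χ (6 * r * (2 * k + 1))) := by
  obtain ⟨K₀, L₀, i1, i2, i3, i4, i5, i6, e₀, h⟩ := transfer H
  have hk := ker_symm_comp e₀ a
  obtain ⟨k₀, hk₀⟩ := t1 K₀ L₀ ((e₀.symm : H →* (L₀ ≃ₐ[K₀] L₀)).comp a) hdat
    (weakSol_of_split K₀ L₀ B _ (s.comp (e₀ : (L₀ ≃ₐ[K₀] L₀) →* H)) (fun ρ => by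
      change e₀.symm (a (s (e₀ ρ))) = ρ
      rw [hs, e₀.symm_apply_apply])) (by rw [hk]; exact hperf)
    (χ.comp (e₀ : (L₀ ≃ₐ[K₀] L₀) →* H)) r hr (by
      refine le_trans (Nat.pow_le_pow_left (Nat.factorial_le ?_) 3) hr2
      rw [card_ker_fst, hk])
  exact ⟨k₀, fun k hk => rsk_tw a χ _ e₀ h (hk₀ k hk)⟩

/-- The general case, uniformly in the fields. -/
theorem t2u (hdat : St_datT) (H B : Type) [Group H] [Finite H] [Group B] [Finite B] (a : B →* H)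
    (ha : Function.Surjective a) (hperf : commutator a.ker = ⊤) :
    ∃ r₀ : ℕ, ∀ r ≥ r₀, ∃ k₀ : ℕ, ∀ k ≥ k₀,
      RSK ℚ (twProj a 1 (4 * Nat.card H * r * (2 * k + 1))) := by
  obtain ⟨K₀, L₀, i1, i2, i3, i4, i5, i6, e₀, h⟩ := transfer H
  have hk := ker_symm_comp e₀ a
  obtain ⟨r₀, hr₀⟩ := t2 K₀ L₀ ((e₀.symm : H →* (L₀ ≃ₐ[K₀] L₀)).comp a) hdat
    (e₀.symm.surjective.comp ha) (by rw [hk]; exact hperf)
  refine ⟨r₀, fun r hr => ?_⟩
  obtain ⟨k₀, hk₀⟩ := hr₀ r hr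
  refine ⟨k₀, fun k hk => rsk_tw a 1 _ e₀ h ?_⟩
  rw [MonoidHom.one_comp, ← Nat.card_congr e₀.toEquiv]
  exact hk₀ k hk

end Pool.Agent.N70.EP
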