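import Mathlib
import Pool.Agent.N70.EP.Un
import Pool.Agent.N70.EP.Stm3
import Pool.Agent.N891.EP.Aut
import Pool.Agent.H391R2.V.Wmap

/-!
Kernels `G ≀ A_n`.
-/

set_option autoImplicit false
set_option linter.unusedSectionVars false
set_option linter.unusedSimpArgs false

namespace Pool.Agent.N70.EP

open Polynomial Pool.Agent.H391R2 Pool.Agent.H391R2.T4
open Pool.Agent.Y793 (AWr AltTw twProj reg_wr regSol_iso)
open Pool.Agent.TH444.TW (RSK)
open Pool.Agent.N600.UK (Out cls cls_eq_one conj_inj)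
open Pool.Agent.TH377.IG (FP prFP)

section fb

variable {G Γ : Type} [Group G] [Group Γ] (o : Γ →* Out G)

/-- The kernel of `pB`. -/
theorem exists_kerEquiv (hZ : ∀ z : G, (∀ g : G, z * g = g * z) → z = 1) :
    Nonempty (G ≃* (pB o).ker) := by
  let f : G →* (pB o).ker := MonoidHom.mk' (fun g => ⟨⟨(MulAut.conj g, 1), by
    change cls G (MulAut.conj g) = o 1
    rw [map_one, cls_eq_one]
    exact ⟨g, rfl⟩⟩, rfl⟩) (fun g h => by
      apply Subtype.ext
      apply Subtype.ext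
      refine Prod.ext ?_ (mul_one 1).symm
      exact map_mul _ _ _)
  refine ⟨MulEquiv.ofBijective f ⟨?_, ?_⟩⟩
  · intro g h hgh
    apply conj_inj hZ
    exact congrArg (fun z : (pB o).ker => (z : FB o).1.1) hgh
  · rintro ⟨⟨⟨θ, γ⟩, h1⟩, h2⟩
    have hγ : γ = 1 := h2
    subst hγ
    have h3 : cls G θ = o 1 := h1
    rw [map_one, cls_eq_one] at h3
    obtain ⟨g, hg⟩ := h3
    refine ⟨g, ?_⟩
    apply Subtype.ext
    apply Subtype.ext
    exact Prod.ext hg rfl

/-- A complement gives a section. -/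
theorem exists_sec (hC : ∃ C : Subgroup (MulAut G), IsCompl C (MulAut.conj : G →* MulAut G).range) :
    ∃ s : Γ →* FB o, ∀ γ, pB o (s γ) = γ := by
  obtain ⟨C, hC⟩ := hC
  let f : C →* Out G := (cls G).comp C.subtype
  have hf : Function.Bijective f := by
    constructor
    · rw [injective_iff_map_eq_one]
      intro c hc
      have h1 : cls G (c : MulAut G) = 1 := hc
      rw [cls_eq_one] at h1
      obtain ⟨g, hg⟩ := h1
      have h2 : (c : MulAut G) ∈ C ⊓ (MulAut.conj : G →* MulAut G).range :=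
        Subgroup.mem_inf.2 ⟨c.2, ⟨g, hg⟩⟩
      rw [hC.inf_eq_bot] at h2
      exact Subtype.ext h2
    · intro u
      obtain ⟨a, rfl⟩ := QuotientGroup.mk_surjective u
      have h1 : a ∈ C ⊔ (MulAut.conj : G →* MulAut G).range := by
        rw [hC.sup_eq_top]
        exact Subgroup.mem_top _
      obtain ⟨c, hc, b, hb, rfl⟩ := Subgroup.mem_sup_of_normal_right.1 h1
      refine ⟨⟨c, hc⟩, ?_⟩
      change cls G c = cls G (c * b)
      have hb1 : cls G b = 1 := (cls_eq_one b).2 hb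
      rw [map_mul, hb1, mul_one]
  let e : C ≃* Out G := MulEquiv.ofBijective f hf
  refine ⟨MonoidHom.mk' (fun γ => ⟨((e.symm (o γ) : C), γ), e.apply_symm_apply (o γ)⟩)
    (fun γ γ' => ?_), fun γ => rfl⟩
  apply Subtype.ext
  refine Prod.ext ?_ rfl
  change ((e.symm (o (γ * γ')) : C) : MulAut G) = (e.symm (o γ) : C) * (e.symm (o γ') : C)
  rw [map_mul, map_mul]
  rfl

variable {Γ' : Type} [Group Γ'] (ρ : Γ' →* Γ)

/-- Pull-back of the labels. -/
def fbMap : FB (o.comp ρ) →* FB o where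
  toFun x := ⟨(x.1.1, ρ x.1.2), x.2⟩
  map_one' := Subtype.ext (Prod.ext rfl (map_one ρ))
  map_mul' x y := Subtype.ext (Prod.ext rfl (map_mul ρ _ _))

/-- Pull-back of the twisted fibre powers. -/
theorem exists_pull (χ : Γ →* ℤˣ) (n : ℕ) :
    ∃ e : FP (twProj (pB o) χ n) ρ ≃* AltTw (pB (o.comp ρ)) (χ.comp ρ) n,
      ∀ x, twProj (pB (o.comp ρ)) (χ.comp ρ) n (e x) = prFP (twProj (pB o) χ n) ρ x := by
  let F : AltTw (pB (o.comp ρ)) (χ.comp ρ) n →* FP (twProj (pB o) χ n) ρ := MonoidHom.mk'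
    (fun z => ⟨(⟨(Pool.Agent.H391R2.V.wmap n (fbMap o ρ) z.1.1, ρ z.1.2),
      Subgroup.mem_inf.2 ⟨fun i => congrArg ρ ((Subgroup.mem_inf.1 z.2).1 i),
        (Subgroup.mem_inf.1 z.2).2⟩⟩, z.1.2), rfl⟩) (fun z w => by
      apply Subtype.ext
      refine Prod.ext ?_ rfl
      apply Subtype.ext
      refine Prod.ext ?_ (map_mul ρ _ _)
      exact map_mul _ _ _)
  have hF : Function.Bijective F := by
    constructor
    · intro z w hzw
      have h1 : z.1.2 = w.1.2 := congrArg (fun u : FP (twProj (pB o) χ n) ρ => u.1.2) hzw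
      have h2 : Pool.Agent.H391R2.V.wmap n (fbMap o ρ) z.1.1 =
          Pool.Agent.H391R2.V.wmap n (fbMap o ρ) w.1.1 :=
        congrArg (fun u : FP (twProj (pB o) χ n) ρ => u.1.1.1.1) hzw
      apply Subtype.ext
      refine Prod.ext ?_ h1
      apply SemidirectProduct.ext
      · funext i
        apply Subtype.ext
        refine Prod.ext ?_ ?_
        · exact congrArg (fun u : Wr (FB o) n => (u.left i).1.1) h2
        · have h3 : (z.1.1.left i).1.2 = z.1.2 := (Subgroup.mem_inf.1 z.2).1 i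
          have h4 : (w.1.1.left i).1.2 = w.1.2 := (Subgroup.mem_inf.1 w.2).1 i
          rw [h3, h4, h1]
      · exact congrArg (fun u : Wr (FB o) n => u.right) h2
    · rintro ⟨⟨⟨⟨x, w⟩, hx⟩, γ⟩, hγ⟩
      have hw : w = ρ γ := hγ
      subst hw
      have hx1 : ∀ i, (x.left i).1.2 = ρ γ := fun i => (Subgroup.mem_inf.1 hx).1 i
      have hx2 : Equiv.Perm.sign x.right = χ (ρ γ) := (Subgroup.mem_inf.1 hx).2
      refine ⟨⟨(⟨fun i => ⟨((x.left i).1.1, γ), ?_⟩, x.right⟩, γ),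
        Subgroup.mem_inf.2 ⟨fun i => rfl, hx2⟩⟩, ?_⟩
      · change cls G (x.left i).1.1 = o (ρ γ)
        rw [← hx1 i]
        exact (x.left i).2
      · apply Subtype.ext
        refine Prod.ext ?_ rfl
        apply Subtype.ext
        refine Prod.ext ?_ rfl
        apply SemidirectProduct.ext
        · funext i
          apply Subtype.ext
          exact Prod.ext rfl (hx1 i).symm
        · rfl
  refine ⟨(MulEquiv.ofBijective F hF).symm, fun x => ?_⟩
  obtain ⟨z, rfl⟩ := (MulEquiv.ofBijective F hF).surjective x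
  rw [MulEquiv.symm_apply_apply]
  rfl

end fb

section ker

variable (G : Type) [Group G] [Finite G]

theorem rsk_ker (hdat : St_datT) (hpul : St_pul)
    (hZ : ∀ z : G, (∀ g : G, z * g = g * z) → z = 1) (hperf : commutator G = ⊤)
    (hC : ∃ C : Subgroup (MulAut G), IsCompl C (MulAut.conj : G →* MulAut G).range)
    (r : ℕ) (hr : Odd r) (hr2 : ((3 * (24 * Nat.card G) + 2).factorial) ^ 3 ≤ r) :
    ∃ k₀ : ℕ, ∀ k ≥ k₀, ∀ (Γ : Type) [Group Γ] [Finite Γ] (o : Γ →* Out G) (χ : Γ →* ℤˣ),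
      RSK ℚ (twProj (pB o) χ (6 * r * (2 * k + 1))) := by
  have hfin : Finite (MulAut G) := Finite.of_injective (fun a : MulAut G => (a : G → G))
    DFunLike.coe_injective
  have hfinO : Finite (Out G) := inferInstance
  have h1 : ∀ W : Subgroup (Out G × ℤˣ), ∃ k₀ : ℕ, ∀ k ≥ k₀,
      RSK ℚ (twProj (pB ((MonoidHom.fst (Out G) ℤˣ).comp W.subtype))
        ((MonoidHom.snd (Out G) ℤˣ).comp W.subtype) (6 * r * (2 * k + 1))) := by
    intro W
    obtain ⟨s, hs⟩ := exists_sec ((MonoidHom.fst (Out G) ℤˣ).comp W.subtype) hC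
    obtain ⟨e⟩ := exists_kerEquiv ((MonoidHom.fst (Out G) ℤˣ).comp W.subtype) hZ
    refine t1u hdat W _ (pB ((MonoidHom.fst (Out G) ℤˣ).comp W.subtype)) s hs
      (Y793.perf_congr e hperf) _ r hr ?_
    rw [← Nat.card_congr e.toEquiv]
    exact hr2
  choose κ hκ using h1
  have hfS : Finite (Subgroup (Out G × ℤˣ)) := inferInstance
  obtain ⟨k₀, hk₀⟩ : ∃ k₀, ∀ W, κ W ≤ k₀ := by
    obtain ⟨k₀, hk₀⟩ := (Set.finite_range κ).bddAbove
    exact ⟨k₀, fun W => hk₀ ⟨W, rfl⟩⟩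
  refine ⟨k₀, fun k hk Γ _ _ o χ => ?_⟩
  let W : Subgroup (Out G × ℤˣ) := (o.prod χ).range
  let ρ : Γ →* W := (o.prod χ).rangeRestrict
  have h2 := hκ W k ((hk₀ W).trans hk)
  have hW : Finite (Wr (FB ((MonoidHom.fst (Out G) ℤˣ).comp W.subtype)) (6 * r * (2 * k + 1))) :=
    finite_wr _ _
  have h3 := hpul ℚ W _ Γ (twProj (pB ((MonoidHom.fst (Out G) ℤˣ).comp W.subtype))
        ((MonoidHom.snd (Out G) ℤˣ).comp W.subtype) (6 * r * (2 * k + 1))) ρ
        (MonoidHom.rangeRestrict_surjective _) h2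
  obtain ⟨e, he⟩ := exists_pull ((MonoidHom.fst (Out G) ℤˣ).comp W.subtype) ρ
    ((MonoidHom.snd (Out G) ℤˣ).comp W.subtype) (6 * r * (2 * k + 1))
  exact RSK.congr h3 e he

/-- The groups `G ≀ A_n` are kernels of regularly solvable embedding problems only. -/
theorem goodKer_alt (hdat : St_datT) (hpul : St_pul) [Nontrivial G]
    (hZ : ∀ z : G, (∀ g : G, z * g = g * z) → z = 1) (hperf : commutator G = ⊤)
    (hC : ∃ C : Subgroup (MulAut G), IsCompl C (MulAut.conj : G →* MulAut G).range)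
    (r : ℕ) (hr : Odd r) (hr2 : ((3 * (24 * Nat.card G) + 2).factorial) ^ 3 ≤ r) :
    ∃ k₀ : ℕ, ∀ k ≥ k₀, GoodKer0 (AWr G (6 * r * (2 * k + 1))) := by
  obtain ⟨k₀, hk₀⟩ := rsk_ker G hdat hpul hZ hperf hC r hr hr2
  refine ⟨k₀, fun k hk => ?_⟩
  intro K L X _ _ _ _ _ _ _ α hα hι
  have hn : 2 * (Nat.card G + 4) ≤ 6 * r * (2 * k + 1) := by
    have h1 : 3 * (24 * Nat.card G) + 2 ≤ (3 * (24 * Nat.card G) + 2).factorial :=
      Nat.self_le_factorial _
    have h2 : (3 * (24 * Nat.card G) + 2).factorial ^ 1 ≤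
        (3 * (24 * Nat.card G) + 2).factorial ^ 3 :=
      Nat.pow_le_pow_right (Nat.factorial_pos _) (by omega)
    rw [pow_one] at h2
    have h3 : r * 1 ≤ r * (2 * k + 1) := Nat.mul_le_mul_left _ (by omega)
    have h4 : 6 * r * (2 * k + 1) = 6 * (r * (2 * k + 1)) := by ring
    have h5 : 0 < Nat.card G := Nat.card_pos
    omega
  obtain ⟨o, χ, e, he⟩ := N891.EP.t_aut G hZ (6 * r * (2 * k + 1)) hn X (L ≃ₐ[K] L) α hα hι
  let _ : Algebra ℚ K := DivisionRing.toRatAlgebra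
  have h1 := hk₀ k hk (L ≃ₐ[K] L) o χ K L (MulEquiv.refl _)
  refine regSol_iso K L _ _ _ _ e.symm (fun z => ?_) h1
  obtain ⟨x, rfl⟩ := e.surjective z
  rw [e.symm_apply_apply, ← he]
  rfl

end ker

end Pool.Agent.N70.EP
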