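import Mathlib
import Pool.Agent.N70.EP.Ke
import Pool.Agent.N70.EP.Cl
import Pool.Agent.N478.EP.Cmp
import Pool.Agent.N75.EP.Pul
import Pool.Agent.TH444.TW.Fin

/-!
The groups of the class are kernels of regularly solvable embedding problems only.
-/

set_option autoImplicit false
set_option linter.unusedSectionVars false
set_option linter.unusedSimpArgs false

namespace Pool.Agent.N70.EP

open Pool.Agent.H391R2 Pool.Agent.H391R2.T4
open Pool.Agent.Y793 (AWr AltTw twProj reg_wr regSol_iso)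
open Pool.Agent.TH444.TW (RSK infinite_ratFunc)
open Pool.Agent.N600.UK (CL cl_of_center center_of_cl cl_iso)
open Pool.Agent.TH59.WX (finite_of_kernel hil_of_reg)
open Pool.Agent.TH15.IGP (Lim)

theorem good0_of_good {T : Type} [Group T] (h : Pool.Agent.TH59.WX.GoodKer T) : GoodKer0 T := by
  intro K L X _ _ _ _ _ _ _ α hα hι
  have : Infinite K := CharZero.infinite K
  exact h K L X α hα hι

theorem base_alt (G : Type) [Group G] (hG : Base G) (hP : commutator G = ⊤) (n : ℕ)
    (hn : 2 * (Nat.card G + 4) ≤ n) :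
    Base (AWr G n) ∧ commutator (AWr G n) = ⊤ := by
  have h1 := hG.finite
  have h2 := hG.nontrivial
  have hW : Finite (Wr G n) := finite_wr G n
  obtain ⟨h3, h4⟩ := N478.EP.t_cmp G (cl_of_center hG.center) hG.compl n hn
  refine ⟨⟨inferInstance, ?_, center_of_cl h3, h4⟩, Y241.WR.t_perf G hP n (by omega)⟩
  obtain ⟨g, hg⟩ := exists_ne (1 : G)
  refine ⟨⟨⟨⟨fun _ => g, 1⟩, ?_⟩, 1, fun h => hg ?_⟩⟩
  · change Equiv.Perm.sign (1 : Equiv.Perm (Fin n)) = 1
    exact map_one _
  exact congrArg (fun x : AWr G n => x.1.left ⟨0, by omega⟩) h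

theorem uni_main (hdat : St_datT) (gd : St_gd0) :
    ∃ κ : (∀ (G : Type) [Group G], ℕ → ℕ), ∀ (T : Type) [Group T], Uni κ T →
      Finite T ∧ CL T ∧ GoodKer0 T := by
  have h1 : ∀ (G : Type) [Group G] (r : ℕ), ∃ k₀ : ℕ, Base G → commutator G = ⊤ → Odd r →
      ((72 * Nat.card G + 2).factorial) ^ 3 ≤ r → ∀ k ≥ k₀,
        GoodKer0 (AWr G (6 * r * (2 * k + 1))) := by
    intro G _ r
    by_cases h : Base G ∧ commutator G = ⊤ ∧ Odd r ∧ ((72 * Nat.card G + 2).factorial) ^ 3 ≤ r
    · obtain ⟨hG, hP, hr, hr'⟩ := h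
      have h2 := hG.finite
      have h3 := hG.nontrivial
      obtain ⟨k₀, hk₀⟩ := goodKer_alt G hdat N75.EP.t_pul (cl_of_center hG.center) hP hG.compl r hr
        (by
          have h4 : 3 * (24 * Nat.card G) + 2 = 72 * Nat.card G + 2 := by ring
          rw [h4]
          exact hr')
      exact ⟨k₀, fun _ _ _ _ => hk₀⟩
    · exact ⟨0, fun a b c d => absurd ⟨a, b, c, d⟩ h⟩
  choose κ hκ using h1
  refine ⟨κ, fun T _ hT => ?_⟩
  induction hT with
  | alternating G hG hP r k hr hr' hk =>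
    have h2 := hG.finite
    have h3 := hG.nontrivial
    have hn : 2 * (Nat.card G + 4) ≤ 6 * r * (2 * k + 1) := by
      have h1 : 72 * Nat.card G + 2 ≤ (72 * Nat.card G + 2).factorial := Nat.self_le_factorial _
      have h2 : (72 * Nat.card G + 2).factorial ^ 1 ≤ (72 * Nat.card G + 2).factorial ^ 3 :=
        Nat.pow_le_pow_right (Nat.factorial_pos _) (by omega)
      rw [pow_one] at h2
      have h3 : r * 1 ≤ r * (2 * k + 1) := Nat.mul_le_mul_left _ (by omega)
      have h4 : 6 * r * (2 * k + 1) = 6 * (r * (2 * k + 1)) := by ring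
      have h5 : 0 < Nat.card G := Nat.card_pos
      omega
    have h4 := (base_alt G hG hP _ hn).1
    exact ⟨h4.finite, cl_of_center h4.center, hκ G r hG hP hr hr' k hk⟩
  | symmetric G hG n hn =>
    have h2 := hG.finite
    have h3 := hG.nontrivial
    obtain ⟨h4, h5, h6⟩ := (N600.UK.Univ.wreath G hG.center hG.compl n hn).main
    exact ⟨h4, h5, good0_of_good h6⟩
  | complete T hZ hI hR =>
    exact ⟨inferInstance, cl_of_center hZ, gd.complete T (cl_of_center hZ) hI hR⟩
  | power T h n hn ih =>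
    obtain ⟨h1, h2, h3⟩ := ih
    exact ⟨finite_wr T n, fun x hx => N600.UK.center_wr h2 x hx, gd.wr T h2 h3 n hn⟩
  | prod I T h ih =>
    have h1 : ∀ i, Finite (T i) := fun i => (ih i).1
    refine ⟨inferInstance, ?_, gd.pi I T (fun i => (ih i).2.1) (fun i => (ih i).2.2)⟩
    intro z hz
    classical
    funext i
    refine (ih i).2.1 _ fun g => ?_
    have h2 := congrFun (hz (Pi.mulSingle i g)) i
    rw [Pi.mul_apply, Pi.mul_apply, Pi.mulSingle_eq_same] at h2
    exact h2
  | factor A B h ih =>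
    obtain ⟨h1, h2, h3⟩ := ih
    refine ⟨Finite.of_injective (fun a : A => (a, (1 : B))) (fun a b hab => congrArg Prod.fst hab),
      ?_, gd.factor A B h3⟩
    intro z hz
    have h4 : ((z, 1) : A × B) = 1 := by
      apply h2
      rintro ⟨a, b⟩
      refine Prod.ext (hz a) ?_
      change 1 * b = b * 1
      rw [one_mul, mul_one]
    exact congrArg Prod.fst h4
  | extension T C h h' ih ih' =>
    obtain ⟨h1, h2, h3⟩ := ih
    obtain ⟨h4, h5, h6⟩ := ih'
    have hfin : Finite T := Finite.of_subgroup_quotient C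
    refine ⟨hfin, ?_, gd.char T C h3 h6⟩
    intro z hz
    have h7 : (QuotientGroup.mk' C z) = 1 := by
      apply h5
      intro g
      obtain ⟨g, rfl⟩ := QuotientGroup.mk'_surjective C g
      rw [← map_mul, hz g, map_mul]
    rw [QuotientGroup.mk'_apply, QuotientGroup.eq_one_iff] at h7
    have h8 : (⟨z, h7⟩ : C) = 1 := by
      apply h2
      intro g
      exact Subtype.ext (hz g)
    exact congrArg Subtype.val h8
  | iso T T' e h ih =>
    obtain ⟨h1, h2, h3⟩ := ih
    exact ⟨Finite.of_equiv _ e.toEquiv, cl_iso e h2, gd.iso T T' e h3⟩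

/-- Steps with good kernels. -/
theorem rsk_of_good {T W W' : Type} [Group T] [Group W] [Group W'] (h : GoodKer0 T)
    (p : W' →* W) (hp : Function.Surjective p) (hι : Nonempty (p.ker ≃* T)) : RSK ℚ p := by
  intro K M _ _ _ _ _ _ _ ε
  have hcK : CharZero K := charZero_of_injective_algebraMap (algebraMap ℚ K).injective
  refine h K M W' (ε.symm.toMonoidHom.comp p) (ε.symm.surjective.comp hp) ?_
  have hk : (ε.symm.toMonoidHom.comp p).ker = p.ker := by
    ext x
    rw [MonoidHom.mem_ker, MonoidHom.mem_ker]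
    exact ε.symm.map_eq_one_iff
  obtain ⟨e⟩ := hι
  exact ⟨(MulEquiv.subgroupCongr hk).trans e⟩

/-- Regular towers. -/
theorem tower_reg0 (P : ∀ (T : Type) [Group T], Prop)
    (hP : ∀ (T : Type) [Group T], P T → Finite T ∧ GoodKer0 T)
    (K L : Type) [Field K] [CharZero K] [Field L] [Algebra K L] [FiniteDimensional K L]
    [IsGalois K L] (W : ℕ → Type) [∀ i, Group (W i)] (p : ∀ i, W (i + 1) →* W i)
    (hp : ∀ i, Function.Surjective (p i) ∧ P (p i).ker) (e₀ : W 0 ≃* (L ≃ₐ[K] L)) :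
    ∃ (F : Type) (_ : Field F) (_ : Algebra (RatFunc K) F) (_ : Algebra L F)
      (_ : Algebra K F) (_ : IsScalarTower K (RatFunc K) F) (_ : IsScalarTower K L F)
      (_ : IsGalois (RatFunc K) F) (γ : (F ≃ₐ[RatFunc K] F) ≃* Lim p),
      (∀ i, IsOpen {σ : F ≃ₐ[RatFunc K] F | (γ σ).1 i = 1}) ∧
      (∀ (σ : F ≃ₐ[RatFunc K] F) (x : L),
        σ (algebraMap L F x) = algebraMap L F (e₀ ((γ σ).1 0) x)) ∧
      ∀ y : F, IsAlgebraic L y → y ∈ Set.range (algebraMap L F) := by
  have hfin : ∀ i, Finite (W i) := by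
    intro i
    induction i with
    | zero => exact Finite.of_equiv _ e₀.symm.toEquiv
    | succ i ih =>
      have h1 := (hP _ (hp i).2).1
      exact finite_of_kernel (p i) (MulEquiv.refl _)
  refine Pool.Agent.TH377.IG.tower_regular K L
    (fun Ω _ _ _ _ _ _ j => Pool.Agent.TH377.IG.regStep K L Ω j) W p (fun i => ?_) e₀
  intro M _ _ _ _ ε
  have hinf := infinite_ratFunc K
  let _ : Algebra ℚ (RatFunc K) :=
    ((algebraMap K (RatFunc K)).comp (Rat.castHom K)).toAlgebra
  exact rsk_of_good (hP _ (hp i).2).2 (p i) (hp i).1 ⟨MulEquiv.refl _⟩ (RatFunc K) M ε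

/-- Towers over Hilbertian fields. -/
theorem tower_hil0 (P : ∀ (T : Type) [Group T], Prop)
    (hP : ∀ (T : Type) [Group T], P T → Finite T ∧ GoodKer0 T)
    (K : Type) [Field K] [CharZero K] (hK : HilbField K)
    (W : ℕ → Type) [∀ i, Group (W i)] (p : ∀ i, W (i + 1) →* W i)
    (hp : ∀ i, Function.Surjective (p i) ∧ P (p i).ker)
    (L : Type) [Field L] [Algebra K L] [FiniteDimensional K L] [IsGalois K L]
    (e₀ : W 0 ≃* (L ≃ₐ[K] L)) :
    ∃ (F : Type) (_ : Field F) (_ : Algebra K F) (_ : Algebra L F) (_ : IsScalarTower K L F)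
      (_ : IsGalois K F) (γ : (F ≃ₐ[K] F) ≃* Lim p),
      (∀ i, IsOpen {σ : F ≃ₐ[K] F | (γ σ).1 i = 1}) ∧
      ∀ (σ : F ≃ₐ[K] F) (x : L),
        σ (algebraMap L F x) = algebraMap L F (e₀ ((γ σ).1 0) x) := by
  have hfin : ∀ i, Finite (W i) := by
    intro i
    induction i with
    | zero => exact Finite.of_equiv _ e₀.symm.toEquiv
    | succ i ih =>
      have h1 := (hP _ (hp i).2).1
      exact finite_of_kernel (p i) (MulEquiv.refl _)
  have hinf : Infinite K := CharZero.infinite K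
  refine Pool.Agent.TH377.IG.tower_spec (Pool.Agent.TH377.IG.spec_hilb hK) W p
    (fun i M _ _ _ _ ε => ?_) L e₀
  let _ : Algebra ℚ K := DivisionRing.toRatAlgebra
  exact rsk_of_good (hP _ (hp i).2).2 (p i) (hp i).1 ⟨MulEquiv.refl _⟩ K M ε

end Pool.Agent.N70.EP
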