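import Mathlib
import Pool.Agent.N342.EP.Grp1
import Pool.Agent.N123.EP.GRP2

/-!
Signs of actions of fibre powers, general form.
-/

set_option autoImplicit false

namespace Pool.Agent.N70.EP

open Pool.Agent.H391R2 Pool.Agent.H391R2.T4 Equiv
open Pool.Agent.N342.EP (stabP mem_stabP sgnIndex_of wact sign_wact S2 pr lam lam_trans sign_lam eps
  sign_eps eps_comm)

/-- The general form of the group theory. -/
theorem grpG {H B E S : Type} [Group H] [Group B] [Group E] [Fintype S] [DecidableEq S]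
    (a : B →* H) (χ ψ : H →* ℤˣ) (L : B × E →* Perm S) (s0 : S)
    (hLs : ∀ e, Perm.sign (L e) = χ (a e.1)) (hS : Even (Fintype.card S))
    (hLt : ∀ s t : S, ∃ τ : E, L (1, τ) s = t) (r : ℕ) (hr0 : 0 < r)
    (hψ : ∀ h, ψ h = χ h ^ r) :
    ∃ (P : Subgroup (SymEP (a.comp (MonoidHom.fst B E)) r)) (β : P →* B),
      Function.Surjective β ∧
      (∀ p : P, a (β p) = symProj (a.comp (MonoidHom.fst B E)) r p) ∧
      SgnIndex (SymEP (a.comp (MonoidHom.fst B E)) r) P (Fintype.card S * r)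
        (ψ.comp (symProj (a.comp (MonoidHom.fst B E)) r)) := by
  classical
  set α := a.comp (MonoidHom.fst B E) with hα
  let i0 : Fin r := ⟨0, hr0⟩
  let Φ : SymEP α r →* Perm (Fin r × S) :=
    (wact L r).comp ((MonoidHom.fst (Wr (B × E) r) H).comp (SymEP α r).subtype)
  have hΦ : ∀ (x : SymEP α r) i s, Φ x (i, s) =
      ((x : Wr (B × E) r × H).1.right i,
        L ((x : Wr (B × E) r × H).1.left
          ((x : Wr (B × E) r × H).1.right i)) s) := fun x i s => rfl
  have hmem : ∀ (x : SymEP α r) i, a ((x : Wr (B × E) r × H).1.left i).1 =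
      (x : Wr (B × E) r × H).2 := fun x i => x.2 i
  have hsign : ∀ x : SymEP α r, Perm.sign (Φ x) = (ψ.comp (symProj α r)) x := by
    intro x
    change Perm.sign (wact L r (x : Wr (B × E) r × H).1) =
      ψ (x : Wr (B × E) r × H).2
    rw [sign_wact L r _ hS]
    have h1 : ∀ i, Perm.sign (L ((x : Wr (B × E) r × H).1.left i)) =
        χ (x : Wr (B × E) r × H).2 := by
      intro i
      rw [hLs, hmem]
    rw [Finset.prod_congr rfl fun i _ => h1 i, Finset.prod_const, Finset.card_univ,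
      Fintype.card_fin, hψ]
  have htrans : ∀ ω' : Fin r × S, ∃ x, Φ x (i0, s0) = ω' := by
    rintro ⟨j, s⟩
    obtain ⟨τ, hτ⟩ := hLt s0 s
    refine ⟨⟨(⟨fun _ => (1, τ), swap i0 j⟩, 1), fun i => ?_⟩, ?_⟩
    · change a 1 = 1
      exact map_one a
    · rw [hΦ]
      change (swap i0 j i0, L (1, τ) s0) = (j, s)
      rw [swap_apply_left, hτ]
  have hP : ∀ p : stabP Φ (i0, s0),
      ((p : SymEP α r) : Wr (B × E) r × H).1.right i0 = i0 := by
    intro p
    have h1 : Φ p (i0, s0) = (i0, s0) := p.2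
    rw [hΦ] at h1
    exact congrArg Prod.fst h1
  let β : stabP Φ (i0, s0) →* B :=
    { toFun := fun p => (((p : SymEP α r) : Wr (B × E) r × H).1.left i0).1
      map_one' := rfl
      map_mul' := fun x y => by
        have h1 : (((x : SymEP α r) : Wr (B × E) r × H).1.right)⁻¹ i0 = i0 :=
          (Equiv.symm_apply_eq _).2 (hP x).symm
        change ((((x : SymEP α r) : Wr (B × E) r × H).1 *
          ((y : SymEP α r) : Wr (B × E) r × H).1).left i0).1 = _
        rw [wr_mul_left, h1]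
        rfl }
  refine ⟨stabP Φ (i0, s0), β, ?_, ?_, ?_⟩
  · intro b
    obtain ⟨τ, hτ⟩ := hLt (L (b, 1) s0) s0
    refine ⟨⟨⟨(⟨fun _ => (1, τ) * (b, 1), 1⟩, a b), fun i => ?_⟩, ?_⟩, ?_⟩
    · change a (1 * b) = a b
      rw [one_mul]
    · rw [mem_stabP, hΦ]
      change ((1 : Perm (Fin r)) i0, L ((1, τ) * (b, 1)) s0) = (i0, s0)
      rw [map_mul, Perm.mul_apply, hτ]
      rfl
    · change 1 * b = b
      rw [one_mul]
  · intro p
    exact hmem p i0
  · refine sgnIndex_of Φ (i0, s0) htrans (Fintype.card S * r) ?_ _ hsign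
    rw [Fintype.card_prod, Fintype.card_fin, mul_comm]

/-- The twisted action of `B × S_4` on a set with six elements. -/
theorem grp6 {H B : Type} [Group H] [Group B] (a : B →* H) (χ ψ : H →* ℤˣ) (r : ℕ) (hr0 : 0 < r)
    (hψ : ∀ h, ψ h = χ h ^ r) :
    ∃ (P : Subgroup (SymEP (a.comp (MonoidHom.fst B (Perm (Fin 4)))) r)) (β : P →* B),
      Function.Surjective β ∧
      (∀ p : P, a (β p) = symProj (a.comp (MonoidHom.fst B (Perm (Fin 4)))) r p) ∧
      SgnIndex (SymEP (a.comp (MonoidHom.fst B (Perm (Fin 4)))) r) P (6 * r)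
        (ψ.comp (symProj (a.comp (MonoidHom.fst B (Perm (Fin 4)))) r)) := by
  classical
  let L : B × Perm (Fin 4) →* Perm S2 :=
    (eps.comp (χ.comp a)).noncommCoprod lam (fun b τ => eps_comm (χ (a b)) τ)
  have hL : ∀ b τ s, L (b, τ) s = eps (χ (a b)) (lam τ s) := fun b τ s => by
    simp [L, MonoidHom.noncommCoprod_apply]
  have hLs : ∀ e, Perm.sign (L e) = χ (a e.1) := by
    rintro ⟨b, τ⟩
    have : L (b, τ) = eps (χ (a b)) * lam τ := by
      simp [L, MonoidHom.noncommCoprod_apply]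
    rw [this, Perm.sign_mul, sign_eps, sign_lam, mul_one]
  exact grpG a χ ψ L (pr 0 1 (by decide)) hLs (by decide) (fun s t => by
    obtain ⟨τ, hτ⟩ := lam_trans s t
    refine ⟨τ, ?_⟩
    rw [hL, hτ, map_one, map_one, map_one]
    rfl) r hr0 hψ

/-- The regular action of a group with four elements. -/
theorem grp4 {H B : Type} [Group H] [Group B] (a : B →* H) (r : ℕ) (hr0 : 0 < r) :
    ∃ (P : Subgroup (SymEP (a.comp (MonoidHom.fst B N123.EP.GRP2.V)) r)) (β : P →* B),
      Function.Surjective β ∧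
      (∀ p : P, a (β p) = symProj (a.comp (MonoidHom.fst B N123.EP.GRP2.V)) r p) ∧
      SgnIndex (SymEP (a.comp (MonoidHom.fst B N123.EP.GRP2.V)) r) P (4 * r) 1 := by
  classical
  let L : B × N123.EP.GRP2.V →* Perm N123.EP.GRP2.V :=
    (MulAction.toPermHom N123.EP.GRP2.V N123.EP.GRP2.V).comp (MonoidHom.snd B N123.EP.GRP2.V)
  have h := grpG a 1 1 L 1 (fun e => N123.EP.GRP2.sign_V e.2) (by decide)
    (fun s t => ⟨t * s⁻¹, by
      change t * s⁻¹ * s = t
      rw [inv_mul_cancel_right]⟩) r hr0 (fun h => (one_pow r).symm)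
  rw [MonoidHom.one_comp] at h
  exact h

end Pool.Agent.N70.EP
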