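import Mathlib
import Pool.Agent.N70.EP.TA
import Pool.Agent.N70.EP.GrG
import Pool.Agent.N600.NS.Main

/-!
Alternating fibre powers of embedding problems and their index.
-/

set_option autoImplicit false
set_option linter.unusedSectionVars false
set_option linter.unusedSimpArgs false

namespace Pool.Agent.N70.EP

open Polynomial Pool.Agent.H391R2 Pool.Agent.H391R2.T4
open Pool.Agent.Y793 (AltTw twProj reg_wr regSol_iso)
open Pool.Agent.N600.NS (IdxDvd Degs)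

section idx

variable (K L : Type) [Field K] [Field L] [Algebra K L]
    [FiniteDimensional K L] [IsGalois K L] {B : Type} [Group B]
    (a : B →* (L ≃ₐ[K] L))

theorem degs_fst (E : Type) [Group E] {m : ℕ} (h : m ∈ Degs K L B a) :
    m ∈ Degs K L (B × E) (a.comp (MonoidHom.fst B E)) := by
  obtain ⟨K', i1, i2, i3, h1, L', j1, j2, j3, j4, j5, j6, j7, j8, s, hs⟩ := h
  exact ⟨K', i1, i2, i3, h1, L', j1, j2, j3, j4, j5, j6, j7, j8, (MonoidHom.inl B E).comp s, hs⟩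

theorem idx_fst (E : Type) [Group E] {n : ℕ} (h : IdxDvd K L B a n) :
    IdxDvd K L (B × E) (a.comp (MonoidHom.fst B E)) n :=
  fun d hd => h d fun m hm => hd m (degs_fst K L a E hm)

theorem weak_tw {χ : (L ≃ₐ[K] L) →* ℤˣ} {n : ℕ}
    (h : WeakSol K L (AltTw a χ n) (twProj a χ n)) : IdxDvd K L B a n := by
  refine N600.NS.idx_of_weak K L B a n ?_
  obtain ⟨L', i1, i2, i3, i4, i5, i6, s, hs⟩ := h
  have hle : AltTw a χ n ≤ SymEP a n := inf_le_left
  exact ⟨L', i1, i2, i3, i4, i5, i6, (Subgroup.inclusion hle).comp s, hs⟩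

end idx

section t3

variable (K L : Type) [Field K] [CharZero K] [Field L] [Algebra K L]
    [FiniteDimensional K L] [IsGalois K L] {B : Type} [Group B] [Finite B]
    (a : B →* (L ≃ₐ[K] L))

theorem finite_char : Finite ((L ≃ₐ[K] L) →* ℤˣ) :=
  Finite.of_injective (fun f : (L ≃ₐ[K] L) →* ℤˣ => (f : (L ≃ₐ[K] L) → ℤˣ)) DFunLike.coe_injective

theorem map_top_of {X : Type} [Group X] (π : X →* (L ≃ₐ[K] L)) (P : Subgroup X) (β : P →* B)
    (ha : Function.Surjective a) (hβ : Function.Surjective β) (h : ∀ p : P, a (β p) = π p) :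
    P.map π = ⊤ := by
  rw [Subgroup.eq_top_iff']
  intro ρ
  obtain ⟨b, rfl⟩ := ha ρ
  obtain ⟨p, rfl⟩ := hβ b
  exact Subgroup.mem_map.2 ⟨p, p.2, (h p).symm⟩

/-- All embedding problems with perfect kernel: if the index divides `r`. -/
theorem t3 (hdat : St_datT) (ha : Function.Surjective a) (hperf : commutator a.ker = ⊤) :
    ∃ r₀ : ℕ, ∀ r ≥ r₀, IdxDvd K L B a r → ∃ k₀ : ℕ, ∀ k ≥ k₀,
      RegSol K L (AltTw a 1 (4 * r * (2 * k + 1))) (twProj a 1 (4 * r * (2 * k + 1))) ∧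
      ∀ χ : (L ≃ₐ[K] L) →* ℤˣ, (Odd r ∨ χ = 1) →
        RegSol K L (AltTw a χ (6 * r * (2 * k + 1))) (twProj a χ (6 * r * (2 * k + 1))) := by
  have hsurj4 : Function.Surjective (a.comp (MonoidHom.fst B N123.EP.GRP2.V)) :=
    ha.comp Prod.fst_surjective
  have hsurj6 : Function.Surjective (a.comp (MonoidHom.fst B (Equiv.Perm (Fin 4)))) :=
    ha.comp Prod.fst_surjective
  obtain ⟨r₁, hr₁⟩ := N600.NS.reg_index K L _ _ hsurj4
  obtain ⟨r₂, hr₂⟩ := N600.NS.reg_index K L _ _ hsurj6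
  refine ⟨r₁ + r₂ + 1, fun r hr hidx => ?_⟩
  have hW4 : Finite (Wr (B × N123.EP.GRP2.V) r) := finite_wr _ _
  have hW6 : Finite (Wr (B × Equiv.Perm (Fin 4)) r) := finite_wr _ _
  have h4 := (hr₁ r (by omega) (idx_fst K L a _ hidx)).2
  have h6 := (hr₂ r (by omega) (idx_fst K L a _ hidx)).2
  have hk4 : ∃ k₀ : ℕ, ∀ k ≥ k₀,
      RegSol K L (AltTw a 1 (4 * r * (2 * k + 1))) (twProj a 1 (4 * r * (2 * k + 1))) := by
    obtain ⟨P, β, hβ, hβ2, hi⟩ := grp4 a r (by omega)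
    refine mainT hdat K L _ _ h4 P (4 * r) (map_top_of K L a _ P β ha hβ hβ2)
      (Even.mul_right (by decide) _) (by omega) 1 ?_ β hβ a hβ2 hperf
    rw [MonoidHom.one_comp]
    exact hi
  have hk6 : ∀ χ : (L ≃ₐ[K] L) →* ℤˣ, ∃ k₀ : ℕ, ∀ k ≥ k₀, (Odd r ∨ χ = 1) →
      RegSol K L (AltTw a χ (6 * r * (2 * k + 1))) (twProj a χ (6 * r * (2 * k + 1))) := by
    intro χ
    by_cases hχ : Odd r ∨ χ = 1
    · obtain ⟨P, β, hβ, hβ2, hi⟩ := grp6 a χ χ r (by omega) (fun h => by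
        rcases hχ with hχ | hχ
        · obtain ⟨s, rfl⟩ := hχ
          rw [pow_succ, pow_mul, Int.units_sq, one_pow, one_mul]
        · subst hχ
          exact (one_pow r).symm)
      obtain ⟨k₀, hk₀⟩ := mainT hdat K L _ _ h6 P (6 * r) (map_top_of K L a _ P β ha hβ hβ2)
        (Even.mul_right (by decide) _) (by omega) χ hi β hβ a hβ2 hperf
      exact ⟨k₀, fun k hk _ => hk₀ k hk⟩
    · exact ⟨0, fun k _ h => absurd h hχ⟩
  obtain ⟨k₁, hk₁⟩ := hk4
  choose κ hκ using hk6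
  have hfin := finite_char K L
  obtain ⟨k₂, hk₂⟩ := (Set.finite_range κ).bddAbove
  refine ⟨k₁ + k₂, fun k hk => ⟨hk₁ k (by omega), fun χ hχ => hκ χ k ?_ hχ⟩⟩
  have h7 : κ χ ≤ k₂ := hk₂ ⟨χ, rfl⟩
  omega

end t3

end Pool.Agent.N70.EP
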