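import Mathlib
import Pool.Agent.N70.EP.TB
import Pool.Agent.N70.EP.Un

/-!
Alternating fibre powers, uniformly in the fields.
-/

set_option autoImplicit false
set_option linter.unusedSectionVars false
set_option linter.unusedSimpArgs false

namespace Pool.Agent.N70.EP

open Polynomial Pool.Agent.H391R2 Pool.Agent.H391R2.T4
open Pool.Agent.Y793 (AltTw twProj reg_wr regSol_iso)
open Pool.Agent.N600.NS (IdxDvd Degs)
open Pool.Agent.TH444.TW (RSK)

/-- `n` is divisible by every common divisor of the indices of the subgroups of `H` over which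
`a` splits. -/
def SplitIdx {H B : Type} [Group H] [Group B] (a : B →* H) (n : ℕ) : Prop :=
  ∀ d : ℕ, (∀ (U : Subgroup H) (s : U →* B), (∀ h : U, a (s h) = h) → d ∣ U.index) → d ∣ n

theorem idx_of_split {H B : Type} [Group H] [Finite H] [Group B] (a : B →* H) {n : ℕ}
    (h : SplitIdx a n) {K L : Type} [Field K] [Field L] [Algebra K L]
    [FiniteDimensional K L] [IsGalois K L] (e : (L ≃ₐ[K] L) ≃* H) :
    IdxDvd K L B ((e.symm : H →* (L ≃ₐ[K] L)).comp a) n := by
  intro d hd
  refine h d fun U s hs => ?_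
  let V : Subgroup (L ≃ₐ[K] L) := U.comap (e : (L ≃ₐ[K] L) →* H)
  have hV : V.index = U.index := Subgroup.index_comap_of_surjective U e.surjective
  let K' := IntermediateField.fixedField V
  have hK'V : K'.fixingSubgroup = V := IntermediateField.fixingSubgroup_fixedField V
  have hmem : ∀ σ : L ≃ₐ[K'] L, e (σ.restrictScalars K) ∈ U := by
    intro σ
    have h1 : σ.restrictScalars K ∈ V := by
      rw [← hK'V, IntermediateField.mem_fixingSubgroup_iff]
      intro x hx
      exact σ.commutes ⟨x, hx⟩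
    exact h1
  rw [← hV]
  apply hd
  refine ⟨K', inferInstance, inferInstance, inferInstance, ?_, L, inferInstance, inferInstance,
    inferInstance, inferInstance, inferInstance, inferInstance, inferInstance, inferInstance,
    MonoidHom.mk' (fun σ => s ⟨e (σ.restrictScalars K), hmem σ⟩) (fun σ σ' => ?_), fun σ x => ?_⟩
  · rw [IntermediateField.finrank_eq_fixingSubgroup_index _ K', hK'V]
  · rw [← map_mul]
    congr 1
    apply Subtype.ext
    exact map_mul e (σ.restrictScalars K) (σ'.restrictScalars K)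
  · change σ x = e.symm (a (s ⟨e (σ.restrictScalars K), hmem σ⟩)) x
    rw [hs, MulEquiv.symm_apply_apply]
    rfl

/-- The uniform form. -/
theorem t3u (hdat : St_datT) (H B : Type) [Group H] [Finite H] [Group B] [Finite B] (a : B →* H)
    (ha : Function.Surjective a) (hperf : commutator a.ker = ⊤) :
    ∃ r₀ : ℕ, ∀ r ≥ r₀, SplitIdx a r → ∃ k₀ : ℕ, ∀ k ≥ k₀,
      RSK ℚ (twProj a 1 (4 * r * (2 * k + 1))) ∧
      ∀ χ : H →* ℤˣ, (Odd r ∨ χ = 1) → RSK ℚ (twProj a χ (6 * r * (2 * k + 1))) := by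
  obtain ⟨K₀, L₀, i1, i2, i3, i4, i5, i6, e₀, h⟩ := transfer H
  have hk := ker_symm_comp e₀ a
  obtain ⟨r₀, hr₀⟩ := t3 K₀ L₀ ((e₀.symm : H →* (L₀ ≃ₐ[K₀] L₀)).comp a) hdat
    (e₀.symm.surjective.comp ha) (by rw [hk]; exact hperf)
  refine ⟨r₀, fun r hr hidx => ?_⟩
  obtain ⟨k₀, hk₀⟩ := hr₀ r hr (idx_of_split a hidx e₀)
  refine ⟨k₀, fun k hk => ⟨rsk_tw a 1 _ e₀ h ?_, fun χ hχ => rsk_tw a χ _ e₀ h ?_⟩⟩
  · rw [MonoidHom.one_comp]
    exact (hk₀ k hk).1
  · refine (hk₀ k hk).2 (χ.comp (e₀ : (L₀ ≃ₐ[K₀] L₀) →* H)) ?_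
    rcases hχ with hχ | hχ
    · exact Or.inl hχ
    · right
      rw [hχ, MonoidHom.one_comp]

end Pool.Agent.N70.EP
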