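import Pool.Agent.N70.EP.DDat
import Pool.Agent.N82.EP.CVT
import Pool.Agent.N455.AW.Deg
import Pool.Agent.N70.EP.TC
import Pool.Agent.N70.EP.Cm

set_option autoImplicit false

namespace Pool.Agent.N70.EP

/-- Existence of the data. -/
theorem datT : St_datT := DD.datTOf N82.EP.t_cvT N455.AW.deg

end Pool.Agent.N70.EP
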