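import Mathlib
import Pool.Agent.N342.EP.Grp1
import Pool.Agent.N123.EP.GRP2

/-!
Signs of actions of fibre powers: the fibre product of `B` with a symmetric group.
-/

set_option autoImplicit false

namespace Pool.Agent.N70.EP

open Pool.Agent.H391R2 Pool.Agent.H391R2.T4 Equiv
open Pool.Agent.N342.EP (stabP mem_stabP sgnIndex_of wact sign_wact)

/-- The general form of the group theory. -/
theorem grpN {H B E S : Type} [Group H] [Group B] [Group E] [Fintype S] [DecidableEq S]
    (a : B →* H) (b : E →* B) (hb : Function.Surjective b) (χ ψ : H →* ℤˣ) (L : E →* Perm S)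
    (s0 : S) (hLs : ∀ e, Perm.sign (L e) = χ (a (b e))) (hS : Even (Fintype.card S))
    (hLt : ∀ s t : S, ∃ τ : E, b τ = 1 ∧ L τ s = t) (r : ℕ) (hr0 : 0 < r)
    (hψ : ∀ h, ψ h = χ h ^ r) :
    ∃ (P : Subgroup (SymEP (a.comp b) r)) (β : P →* B),
      Function.Surjective β ∧
      (∀ p : P, a (β p) = symProj (a.comp b) r p) ∧
      SgnIndex (SymEP (a.comp b) r) P (Fintype.card S * r)
        (ψ.comp (symProj (a.comp b) r)) := by
  classical
  set α := a.comp b with hα
  let i0 : Fin r := ⟨0, hr0⟩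
  let Φ : SymEP α r →* Perm (Fin r × S) :=
    (wact L r).comp ((MonoidHom.fst (Wr E r) H).comp (SymEP α r).subtype)
  have hΦ : ∀ (x : SymEP α r) i s, Φ x (i, s) =
      ((x : Wr E r × H).1.right i,
        L ((x : Wr E r × H).1.left
          ((x : Wr E r × H).1.right i)) s) := fun x i s => rfl
  have hmem : ∀ (x : SymEP α r) i, a (b ((x : Wr E r × H).1.left i)) =
      (x : Wr E r × H).2 := fun x i => x.2 i
  have hsign : ∀ x : SymEP α r, Perm.sign (Φ x) = (ψ.comp (symProj α r)) x := by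
    intro x
    change Perm.sign (wact L r (x : Wr E r × H).1) =
      ψ (x : Wr E r × H).2
    rw [sign_wact L r _ hS]
    have h1 : ∀ i, Perm.sign (L ((x : Wr E r × H).1.left i)) =
        χ (x : Wr E r × H).2 := by
      intro i
      rw [hLs, hmem]
    rw [Finset.prod_congr rfl fun i _ => h1 i, Finset.prod_const, Finset.card_univ,
      Fintype.card_fin, hψ]
  have htrans : ∀ ω' : Fin r × S, ∃ x, Φ x (i0, s0) = ω' := by
    rintro ⟨j, s⟩
    obtain ⟨τ, hτ1, hτ⟩ := hLt s0 s
    refine ⟨⟨(⟨fun _ => τ, swap i0 j⟩, 1), fun i => ?_⟩, ?_⟩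
    · change a (b τ) = 1
      rw [hτ1, map_one]
    · rw [hΦ]
      change (swap i0 j i0, L τ s0) = (j, s)
      rw [swap_apply_left, hτ]
  have hP : ∀ p : stabP Φ (i0, s0),
      ((p : SymEP α r) : Wr E r × H).1.right i0 = i0 := by
    intro p
    have h1 : Φ p (i0, s0) = (i0, s0) := p.2
    rw [hΦ] at h1
    exact congrArg Prod.fst h1
  let β : stabP Φ (i0, s0) →* B :=
    { toFun := fun p => b (((p : SymEP α r) : Wr E r × H).1.left i0)
      map_one' := map_one b
      map_mul' := fun x y => by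
        have h1 : (((x : SymEP α r) : Wr E r × H).1.right)⁻¹ i0 = i0 :=
          (Equiv.symm_apply_eq _).2 (hP x).symm
        change b ((((x : SymEP α r) : Wr E r × H).1 *
          ((y : SymEP α r) : Wr E r × H).1).left i0) = _
        rw [wr_mul_left, h1, map_mul] }
  refine ⟨stabP Φ (i0, s0), β, ?_, ?_, ?_⟩
  · intro c
    obtain ⟨e, rfl⟩ := hb c
    obtain ⟨τ, hτ1, hτ⟩ := hLt (L e s0) s0
    refine ⟨⟨⟨(⟨fun _ => τ * e, 1⟩, a (b e)), fun i => ?_⟩, ?_⟩, ?_⟩
    · change a (b (τ * e)) = a (b e)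
      rw [map_mul, hτ1, one_mul]
    · rw [mem_stabP, hΦ]
      change ((1 : Perm (Fin r)) i0, L (τ * e) s0) = (i0, s0)
      rw [map_mul, Perm.mul_apply, hτ]
      rfl
    · change b (τ * e) = b e
      rw [map_mul, hτ1, one_mul]
  · intro p
    exact hmem p i0
  · refine sgnIndex_of Φ (i0, s0) htrans (Fintype.card S * r) ?_ _ hsign
    rw [Fintype.card_prod, Fintype.card_fin, mul_comm]

/-- The elements `(b, s)` of `B × S_q` with `sign s = χ (a b)`. -/
def TB {H B : Type} [Group H] [Group B] (a : B →* H) (χ : H →* ℤˣ) (q : ℕ) :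
    Subgroup (B × Perm (Fin q)) :=
  (Perm.sign.comp (MonoidHom.snd B (Perm (Fin q)))).eqLocus
    ((χ.comp a).comp (MonoidHom.fst B (Perm (Fin q))))

/-- The projection to `B`. -/
def tb {H B : Type} [Group H] [Group B] (a : B →* H) (χ : H →* ℤˣ) (q : ℕ) : TB a χ q →* B :=
  (MonoidHom.fst B (Perm (Fin q))).comp (TB a χ q).subtype

/-- The permutation. -/
def tp {H B : Type} [Group H] [Group B] (a : B →* H) (χ : H →* ℤˣ) (q : ℕ) :
    TB a χ q →* Perm (Fin q) :=
  (MonoidHom.snd B (Perm (Fin q))).comp (TB a χ q).subtype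

section

variable {H B : Type} [Group H] [Group B] (a : B →* H) (χ : H →* ℤˣ) (q : ℕ)

theorem tb_sign (e : TB a χ q) : Perm.sign (tp a χ q e) = χ (a (tb a χ q e)) := e.2

/-- A section of the sign. -/
def sgnSec (q : ℕ) (hq : 2 ≤ q) : ℤˣ →* Perm (Fin q) where
  toFun u := if u = 1 then 1 else swap ⟨0, by omega⟩ ⟨1, by omega⟩
  map_one' := if_pos rfl
  map_mul' u v := by
    rcases Int.units_eq_one_or u with rfl | rfl <;> rcases Int.units_eq_one_or v with rfl | rfl
    · simp
    · simp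
    · simp
    · simp

theorem sign_sgnSec (q : ℕ) (hq : 2 ≤ q) (u : ℤˣ) : Perm.sign (sgnSec q hq u) = u := by
  rcases Int.units_eq_one_or u with rfl | rfl
  · rw [map_one, map_one]
  · change Perm.sign (if (-1 : ℤˣ) = 1 then 1 else swap _ _) = -1
    rw [if_neg (by decide), Perm.sign_swap]
    intro h
    exact Nat.zero_ne_one (congrArg Fin.val h)

/-- A section of `tb`. -/
def tj (hq : 2 ≤ q) : B →* TB a χ q :=
  MonoidHom.codRestrict ((MonoidHom.id B).prod ((sgnSec q hq).comp (χ.comp a))) (TB a χ q)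
    (fun b => by
      change Perm.sign (sgnSec q hq (χ (a b))) = χ (a b)
      exact sign_sgnSec q hq _)

theorem tb_tj (hq : 2 ≤ q) (b : B) : tb a χ q (tj a χ q hq b) = b := rfl

theorem tb_surj (hq : 2 ≤ q) : Function.Surjective (tb a χ q) := fun b => ⟨tj a χ q hq b, rfl⟩

/-- The group theory. -/
theorem grpT (ψ : H →* ℤˣ) (hq : Even q) (hq4 : 4 ≤ q) (r : ℕ) (hr0 : 0 < r)
    (hψ : ∀ h, ψ h = χ h ^ r) :
    ∃ (P : Subgroup (SymEP (a.comp (tb a χ q)) r)) (β : P →* B),
      Function.Surjective β ∧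
      (∀ p : P, a (β p) = symProj (a.comp (tb a χ q)) r p) ∧
      SgnIndex (SymEP (a.comp (tb a χ q)) r) P (q * r)
        (ψ.comp (symProj (a.comp (tb a χ q)) r)) := by
  classical
  have h := grpN a (tb a χ q) (tb_surj a χ q (by omega)) χ ψ (tp a χ q) (⟨0, by omega⟩ : Fin q)
    (tb_sign a χ q) (by rwa [Fintype.card_fin]) (fun s t => by
      have h1 : 3 ≤ Nat.card (Fin q) := by rw [Nat.card_fin]; omega
      have h2 := alternatingGroup.isPretransitive_of_three_le_card (Fin q) h1
      obtain ⟨g, hg⟩ := h2.exists_smul_eq s t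
      refine ⟨⟨(1, g), ?_⟩, rfl, hg⟩
      change Perm.sign (g : Perm (Fin q)) = χ (a 1)
      rw [map_one, map_one]
      exact g.2) r hr0 hψ
  rw [Fintype.card_fin] at h
  exact h

theorem card_ker_tb :
    Nat.card (a.comp (tb a χ q)).ker = Nat.card a.ker * Nat.card (alternatingGroup (Fin q)) := by
  let e : (a.comp (tb a χ q)).ker ≃ a.ker × alternatingGroup (Fin q) :=
    { toFun := fun z => (⟨z.1.1.1, z.2⟩, ⟨z.1.1.2, by
        have h1 := tb_sign a χ q z.1
        have h2 : a (tb a χ q z.1) = 1 := z.2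
        rw [h2, map_one] at h1
        exact h1⟩)
      invFun := fun z => ⟨⟨(z.1.1, z.2.1), by
        change Perm.sign (z.2 : Perm (Fin q)) = χ (a z.1)
        rw [show a z.1 = 1 from z.1.2, map_one]
        exact z.2.2⟩, z.1.2⟩
      left_inv := fun _ => rfl
      right_inv := fun _ => rfl }
  rw [Nat.card_congr e, Nat.card_prod]

end

end Pool.Agent.N70.EP
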