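import Mathlib
import Pool.Agent.N70.EP.Fin
import Pool.Agent.N70.EP.GrN

/-!
Alternating fibre powers of degree `q r (2 k + 1)`.
-/

set_option autoImplicit false
set_option linter.unusedSectionVars false
set_option linter.unusedSimpArgs false

namespace Pool.Agent.N70.EP

open Polynomial Pool.Agent.H391R2 Pool.Agent.H391R2.T4
open Pool.Agent.Y793 (AltTw twProj reg_wr regSol_iso)
open Pool.Agent.N600.NS (IdxDvd Degs)
open Pool.Agent.TH444.TW (RSK)

section idx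

variable (K L : Type) [Field K] [Field L] [Algebra K L]
    [FiniteDimensional K L] [IsGalois K L] {B : Type} [Group B]
    (a : B →* (L ≃ₐ[K] L))

theorem degs_sec {E : Type} [Group E] (b : E →* B) (j : B →* E) (hj : ∀ x, b (j x) = x) {m : ℕ}
    (h : m ∈ Degs K L B a) : m ∈ Degs K L E (a.comp b) := by
  obtain ⟨K', i1, i2, i3, h1, L', j1, j2, j3, j4, j5, j6, j7, j8, s, hs⟩ := h
  refine ⟨K', i1, i2, i3, h1, L', j1, j2, j3, j4, j5, j6, j7, j8, j.comp s, fun σ x => ?_⟩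
  have h2 : (a.comp b) ((j.comp s) σ) = a (s σ) := congrArg a (hj (s σ))
  rw [h2]
  exact hs σ x

theorem idx_sec {E : Type} [Group E] (b : E →* B) (j : B →* E) (hj : ∀ x, b (j x) = x) {n : ℕ}
    (h : IdxDvd K L B a n) : IdxDvd K L E (a.comp b) n :=
  fun d hd => h d fun m hm => hd m (degs_sec K L a b j hj hm)

/-- The index. -/
theorem exists_index :
    ∃ I : ℕ, 0 < I ∧ (∀ d : ℕ, d ∣ I ↔ ∀ m ∈ Degs K L B a, d ∣ m) ∧
      ∀ n, IdxDvd K L B a n ↔ I ∣ n := by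
  let S : Ideal ℤ := Ideal.span ((fun m : ℕ => (m : ℤ)) '' Degs K L B a)
  let g : ℤ := Submodule.IsPrincipal.generator S
  have hg : S = Ideal.span {g} := (Ideal.span_singleton_generator S).symm
  have key : ∀ d : ℕ, d ∣ g.natAbs ↔ ∀ m ∈ Degs K L B a, d ∣ m := by
    intro d
    have h1 : (d ∣ g.natAbs) ↔ S ≤ Ideal.span {(d : ℤ)} := by
      rw [hg, Ideal.span_singleton_le_span_singleton, ← Int.natCast_dvd]
    rw [h1, Ideal.span_le]
    constructor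
    · intro h m hm
      have h2 := h ⟨m, hm, rfl⟩
      exact Int.natCast_dvd_natCast.1 (Ideal.mem_span_singleton.1 h2)
    · rintro h _ ⟨m, hm, rfl⟩
      exact Ideal.mem_span_singleton.2 (Int.natCast_dvd_natCast.2 (h m hm))
  have h0 : Module.finrank K L ∈ Degs K L B a := by
    refine ⟨L, inferInstance, inferInstance, inferInstance, rfl, L, inferInstance, inferInstance,
      inferInstance, inferInstance, inferInstance, inferInstance, inferInstance, inferInstance, 1,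
      fun σ x => ?_⟩
    rw [MonoidHom.one_apply, map_one]
    exact σ.commutes x
  refine ⟨g.natAbs, ?_, key, fun n => ⟨fun h => h _ ((key _).1 dvd_rfl), fun h d hd =>
    ((key d).2 hd).trans h⟩⟩
  have h2 := (key g.natAbs).1 dvd_rfl _ h0
  have h3 : 0 < Module.finrank K L := Module.finrank_pos
  rcases Nat.eq_zero_or_pos g.natAbs with h4 | h4
  · rw [h4, zero_dvd_iff] at h2
    omega
  · exact h4

end idx

section main

variable (K L : Type) [Field K] [CharZero K] [Field L] [Algebra K L]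
    [FiniteDimensional K L] [IsGalois K L] {B : Type} [Group B] [Finite B]
    (a : B →* (L ≃ₐ[K] L))

/-- All embedding problems with perfect kernel. -/
theorem t5 (ha : Function.Surjective a) (hperf : commutator a.ker = ⊤) (q : ℕ) (hq : Even q)
    (hq4 : 4 ≤ q) :
    ∃ r₀ : ℕ, ∀ r ≥ r₀, IdxDvd K L B a r → ∃ k₀ : ℕ, ∀ k ≥ k₀,
      ∀ χ : (L ≃ₐ[K] L) →* ℤˣ, (Odd r ∨ χ = 1) →
        RegSol K L (AltTw a χ (q * r * (2 * k + 1))) (twProj a χ (q * r * (2 * k + 1))) := by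
  have hfin := finite_char K L
  have h1 : ∀ χ : (L ≃ₐ[K] L) →* ℤˣ, ∃ r₀ : ℕ, ∀ r ≥ r₀, IdxDvd K L B a r →
      ∃ k₀ : ℕ, ∀ k ≥ k₀, (Odd r ∨ χ = 1) →
        RegSol K L (AltTw a χ (q * r * (2 * k + 1))) (twProj a χ (q * r * (2 * k + 1))) := by
    intro χ
    have hq2 : 2 ≤ q := by omega
    have hsurj : Function.Surjective (a.comp (tb a χ q)) := ha.comp (tb_surj a χ q hq2)
    obtain ⟨r₁, hr₁⟩ := N600.NS.reg_index K L _ _ hsurj
    refine ⟨r₁ + 1, fun r hr hidx => ?_⟩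
    have hW : Finite (Wr (TB a χ q) r) := finite_wr _ _
    have h := (hr₁ r (by omega) (idx_sec K L a (tb a χ q) (tj a χ q hq2) (tb_tj a χ q hq2) hidx)).2
    by_cases hχ : Odd r ∨ χ = 1
    · obtain ⟨P, β, hβ, hβ2, hi⟩ := grpT a χ q χ hq hq4 r (by omega) (fun h => by
        rcases hχ with hχ | hχ
        · obtain ⟨s, rfl⟩ := hχ
          rw [pow_succ, pow_mul, Int.units_sq, one_pow, one_mul]
        · subst hχ
          exact (one_pow r).symm)
      obtain ⟨k₀, hk₀⟩ := mainT datT K L _ _ h P (q * r) (map_top_of K L a _ P β ha hβ hβ2)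
        (Even.mul_right hq _) (Nat.mul_pos (by omega) (by omega)) χ hi β hβ a hβ2 hperf
      exact ⟨k₀, fun k hk _ => hk₀ k hk⟩
    · exact ⟨0, fun k _ h => absurd h hχ⟩
  choose ρ hρ using h1
  obtain ⟨r₀, hr₀⟩ := (Set.finite_range ρ).bddAbove
  refine ⟨r₀, fun r hr hidx => ?_⟩
  have h2 : ∀ χ, ∃ k₀ : ℕ, ∀ k ≥ k₀, (Odd r ∨ χ = 1) →
      RegSol K L (AltTw a χ (q * r * (2 * k + 1))) (twProj a χ (q * r * (2 * k + 1))) :=
    fun χ => hρ χ r ((hr₀ ⟨χ, rfl⟩).trans hr) hidx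
  choose κ hκ using h2
  obtain ⟨k₂, hk₂⟩ := (Set.finite_range κ).bddAbove
  exact ⟨k₂, fun k hk χ hχ => hκ χ k ((hk₂ ⟨χ, rfl⟩).trans hk) hχ⟩

/-- The bound. -/
def bdA (N q : ℕ) : ℕ := ((3 * (N * (q.factorial / 2)) + 2).factorial) ^ 3

/-- The weakly solvable case, with an explicit bound. -/
theorem t5w (hw : WeakSol K L B a) (hperf : commutator a.ker = ⊤) (q : ℕ) (hq : Even q)
    (hq4 : 4 ≤ q) (r : ℕ) (hr : bdA (Nat.card a.ker) q ≤ r) :
    ∃ k₀ : ℕ, ∀ k ≥ k₀, ∀ χ : (L ≃ₐ[K] L) →* ℤˣ, (Odd r ∨ χ = 1) →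
        RegSol K L (AltTw a χ (q * r * (2 * k + 1))) (twProj a χ (q * r * (2 * k + 1))) := by
  have hfin := finite_char K L
  have ha := surj_of_weak K L a hw
  have hr0 : 0 < r := lt_of_lt_of_le (Nat.pow_pos (Nat.factorial_pos _)) hr
  have h2 : ∀ χ : (L ≃ₐ[K] L) →* ℤˣ, ∃ k₀ : ℕ, ∀ k ≥ k₀, (Odd r ∨ χ = 1) →
      RegSol K L (AltTw a χ (q * r * (2 * k + 1))) (twProj a χ (q * r * (2 * k + 1))) := by
    intro χ
    by_cases hχ : Odd r ∨ χ = 1
    · have hq2 : 2 ≤ q := by omega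
      have hw2 : WeakSol K L (TB a χ q) (a.comp (tb a χ q)) := by
        obtain ⟨L', i1, i2, i3, i4, i5, i6, s, hs⟩ := hw
        refine ⟨L', i1, i2, i3, i4, i5, i6, (tj a χ q hq2).comp s, fun σ => ?_⟩
        exact hs σ
      have hcard : Nat.card (a.comp (tb a χ q)).ker = Nat.card a.ker * (q.factorial / 2) := by
        have hnt : Nontrivial (Fin q) := Fin.nontrivial_iff_two_le.2 hq2
        rw [card_ker_tb, nat_card_alternatingGroup, Nat.card_fin]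
      have h1 := (regSol_iff K L (SymEP _ r) (symProj _ r)).2
        (Pool.Agent.TH59.WX.reg_fin_unif K L _ _ hw2 r (by rw [hcard]; exact hr)).1
      have hfin : Finite (SymEP (a.comp (tb a χ q)) r) := finite_sym K L _ _ r
      obtain ⟨P, β, hβ, hβ2, hi⟩ := grpT a χ q χ hq hq4 r hr0 (fun h => by
        rcases hχ with hχ | hχ
        · obtain ⟨s, rfl⟩ := hχ
          rw [pow_succ, pow_mul, Int.units_sq, one_pow, one_mul]
        · subst hχ
          exact (one_pow r).symm)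
      obtain ⟨k₀, hk₀⟩ := mainT datT K L _ _ h1 P (q * r) (map_top_of K L a _ P β ha hβ hβ2)
        (Even.mul_right hq _) (Nat.mul_pos (by omega) hr0) χ hi β hβ a hβ2 hperf
      exact ⟨k₀, fun k hk _ => hk₀ k hk⟩
    · exact ⟨0, fun k _ h => absurd h hχ⟩
  choose κ hκ using h2
  obtain ⟨k₂, hk₂⟩ := (Set.finite_range κ).bddAbove
  exact ⟨k₂, fun k hk χ hχ => hκ χ k ((hk₂ ⟨χ, rfl⟩).trans hk) hχ⟩

end main

theorem finite_hom (H : Type) [Group H] [Finite H] : Finite (H →* ℤˣ) :=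
  Finite.of_injective (fun f : H →* ℤˣ => (f : H → ℤˣ)) DFunLike.coe_injective

/-- The uniform form. -/
theorem t5u (H B : Type) [Group H] [Finite H] [Group B] [Finite B] (a : B →* H)
    (ha : Function.Surjective a) (hperf : commutator a.ker = ⊤) (q : ℕ) (hq : Even q)
    (hq4 : 4 ≤ q) :
    ∃ r₀ : ℕ, ∀ r ≥ r₀, SplitIdx a r → ∃ k₀ : ℕ, ∀ k ≥ k₀,
      ∀ χ : H →* ℤˣ, (Odd r ∨ χ = 1) → RSK ℚ (twProj a χ (q * r * (2 * k + 1))) := by
  obtain ⟨K₀, L₀, i1, i2, i3, i4, i5, i6, e₀, h⟩ := transfer H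
  have hk := ker_symm_comp e₀ a
  obtain ⟨r₀, hr₀⟩ := t5 K₀ L₀ ((e₀.symm : H →* (L₀ ≃ₐ[K₀] L₀)).comp a)
    (e₀.symm.surjective.comp ha) (by rw [hk]; exact hperf) q hq hq4
  refine ⟨r₀, fun r hr hidx => ?_⟩
  obtain ⟨k₀, hk₀⟩ := hr₀ r hr (idx_of_split a hidx e₀)
  refine ⟨k₀, fun k hk χ hχ => rsk_tw a χ _ e₀ h ?_⟩
  refine hk₀ k hk (χ.comp (e₀ : (L₀ ≃ₐ[K₀] L₀) →* H)) ?_
  rcases hχ with hχ | hχ
  · exact Or.inl hχ
  · right
    rw [hχ, MonoidHom.one_comp]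

/-- The split case, uniformly in the fields, with an explicit bound. -/
theorem t5s (H B : Type) [Group H] [Finite H] [Group B] [Finite B] (a : B →* H)
    (s : H →* B) (hs : ∀ h, a (s h) = h) (hperf : commutator a.ker = ⊤) (q : ℕ) (hq : Even q)
    (hq4 : 4 ≤ q) (r : ℕ) (hr : bdA (Nat.card a.ker) q ≤ r) :
    ∃ k₀ : ℕ, ∀ k ≥ k₀, ∀ χ : H →* ℤˣ, (Odd r ∨ χ = 1) →
      RSK ℚ (twProj a χ (q * r * (2 * k + 1))) := by
  obtain ⟨K₀, L₀, i1, i2, i3, i4, i5, i6, e₀, h⟩ := transfer H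
  have hk := ker_symm_comp e₀ a
  obtain ⟨k₀, hk₀⟩ := t5w K₀ L₀ ((e₀.symm : H →* (L₀ ≃ₐ[K₀] L₀)).comp a)
    (weakSol_of_split K₀ L₀ B _ (s.comp (e₀ : (L₀ ≃ₐ[K₀] L₀) →* H)) (fun ρ => by
      change e₀.symm (a (s (e₀ ρ))) = ρ
      rw [hs, e₀.symm_apply_apply])) (by rw [hk]; exact hperf) q hq hq4 r (by
      rw [hk]
      exact hr)
  refine ⟨k₀, fun k hk χ hχ => rsk_tw a χ _ e₀ h ?_⟩
  refine hk₀ k hk (χ.comp (e₀ : (L₀ ≃ₐ[K₀] L₀) →* H)) ?_
  rcases hχ with hχ | hχ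
  · exact Or.inl hχ
  · right
    rw [hχ, MonoidHom.one_comp]

end Pool.Agent.N70.EP
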