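import Mathlib
import Pool.Agent.N70.EP.Sp
import Pool.Agent.N75.EP.Pul
import Pool.Agent.N70.EP.Stm5

/-!
Kernels `G ≀ A_n`, almost all `n`.
-/

set_option autoImplicit false
set_option linter.unusedSectionVars false
set_option linter.unusedSimpArgs false

namespace Pool.Agent.N70.EP

open Polynomial Pool.Agent.H391R2 Pool.Agent.H391R2.T4
open Pool.Agent.Y793 (AWr AltTw twProj reg_wr regSol_iso)
open Pool.Agent.TH444.TW (RSK)
open Pool.Agent.N600.UK (Out cls cls_eq_one conj_inj)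

theorem pB_surj {G Γ : Type} [Group G] [Group Γ] (o : Γ →* Out G) :
    Function.Surjective (pB o) := by
  intro γ
  obtain ⟨t, ht⟩ := QuotientGroup.mk_surjective (o γ)
  exact ⟨⟨(t, γ), ht⟩, rfl⟩

theorem splitIdx_mul {H B : Type} [Group H] [Group B] {a : B →* H} {D : ℕ} (h : SplitIdx a D)
    (s : ℕ) : SplitIdx a (D * s) := fun d hd => (h d hd).mul_right s

section ker

variable (G : Type) [Group G] [Finite G]

theorem rsk_ker5 (hZ : ∀ z : G, (∀ g : G, z * g = g * z) → z = 1) (hperf : commutator G = ⊤)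
    (q : ℕ) (hq : Even q) (hq4 : 4 ≤ q) :
    ∃ r₀ : ℕ, ∀ r ≥ r₀, SplitIdx (cls G) r → ∃ k₀ : ℕ, ∀ k ≥ k₀,
      ∀ (Γ : Type) [Group Γ] [Finite Γ] (o : Γ →* Out G) (χ : Γ →* ℤˣ), (Odd r ∨ χ = 1) →
      RSK ℚ (twProj (pB o) χ (q * r * (2 * k + 1))) := by
  have hfin : Finite (MulAut G) := Finite.of_injective (fun a : MulAut G => (a : G → G))
    DFunLike.coe_injective
  have hfinO : Finite (Out G) := inferInstance
  have hfS : Finite (Subgroup (Out G × ℤˣ)) := inferInstance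
  have h0 : ∀ W : Subgroup (Out G × ℤˣ), ∃ r₀ : ℕ, ∀ r ≥ r₀,
      SplitIdx (pB ((MonoidHom.fst (Out G) ℤˣ).comp W.subtype)) r → ∃ k₀ : ℕ, ∀ k ≥ k₀,
      ∀ χ : W →* ℤˣ, (Odd r ∨ χ = 1) → RSK ℚ (twProj
        (pB ((MonoidHom.fst (Out G) ℤˣ).comp W.subtype)) χ (q * r * (2 * k + 1))) := by
    intro W
    obtain ⟨e⟩ := exists_kerEquiv ((MonoidHom.fst (Out G) ℤˣ).comp W.subtype) hZ
    exact t5u W _ (pB ((MonoidHom.fst (Out G) ℤˣ).comp W.subtype)) (pB_surj _)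
      (Y793.perf_congr e hperf) q hq hq4
  choose ρ hρ using h0
  obtain ⟨r₀, hr₀⟩ := (Set.finite_range ρ).bddAbove
  refine ⟨r₀, fun r hr hidx => ?_⟩
  have h1 : ∀ W : Subgroup (Out G × ℤˣ), ∃ k₀ : ℕ, ∀ k ≥ k₀,
      ∀ χ : W →* ℤˣ, (Odd r ∨ χ = 1) → RSK ℚ (twProj
        (pB ((MonoidHom.fst (Out G) ℤˣ).comp W.subtype)) χ (q * r * (2 * k + 1))) :=
    fun W => hρ W r ((hr₀ ⟨W, rfl⟩).trans hr) (splitIdx_pull G _ hidx)
  choose κ hκ using h1
  obtain ⟨k₀, hk₀⟩ := (Set.finite_range κ).bddAbove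
  refine ⟨k₀, fun k hk Γ _ _ o χ hχ => ?_⟩
  let W : Subgroup (Out G × ℤˣ) := (o.prod χ).range
  let π : Γ →* W := (o.prod χ).rangeRestrict
  have h2 := hκ W k ((hk₀ ⟨W, rfl⟩).trans hk) ((MonoidHom.snd (Out G) ℤˣ).comp W.subtype) (by
    rcases hχ with hχ | hχ
    · exact Or.inl hχ
    · right
      ext1 ⟨w, hw⟩
      obtain ⟨γ, rfl⟩ := hw
      change χ γ = 1
      rw [hχ]
      rfl)
  have hW : Finite (Wr (FB ((MonoidHom.fst (Out G) ℤˣ).comp W.subtype)) (q * r * (2 * k + 1))) :=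
    finite_wr _ _
  have h3 := N75.EP.t_pul ℚ W _ Γ (twProj (pB ((MonoidHom.fst (Out G) ℤˣ).comp W.subtype))
        ((MonoidHom.snd (Out G) ℤˣ).comp W.subtype) (q * r * (2 * k + 1))) π
        (MonoidHom.rangeRestrict_surjective _) h2
  obtain ⟨e, he⟩ := exists_pull ((MonoidHom.fst (Out G) ℤˣ).comp W.subtype) π
    ((MonoidHom.snd (Out G) ℤˣ).comp W.subtype) (q * r * (2 * k + 1))
  exact RSK.congr h3 e he

/-- The groups `G ≀ A_n` are kernels of regularly solvable embedding problems only. -/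
theorem goodKer5 [Nontrivial G] (hZ : ∀ z : G, (∀ g : G, z * g = g * z) → z = 1)
    (hperf : commutator G = ⊤) (q : ℕ) (hq : Even q) (hq4 : 4 ≤ q) :
    ∃ r₀ : ℕ, ∀ r ≥ r₀, Odd r → SplitIdx (cls G) r → ∃ k₀ : ℕ, ∀ k ≥ k₀,
      GoodKer0 (AWr G (q * r * (2 * k + 1))) := by
  obtain ⟨r₀, hr₀⟩ := rsk_ker5 G hZ hperf q hq hq4
  refine ⟨r₀ + 2 * (Nat.card G + 4), fun r hr hodd hidx => ?_⟩
  obtain ⟨k₀, hk₀⟩ := hr₀ r (by omega) hidx
  refine ⟨k₀, fun k hk => ?_⟩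
  intro K L X _ _ _ _ _ _ _ α hα hι
  have hn : 2 * (Nat.card G + 4) ≤ q * r * (2 * k + 1) := by
    have h1 : 1 * r ≤ q * r := Nat.mul_le_mul_right _ (by omega)
    have h2 : q * r * 1 ≤ q * r * (2 * k + 1) := Nat.mul_le_mul_left _ (by omega)
    omega
  obtain ⟨o, χ, e, he⟩ := N891.EP.t_aut G hZ _ hn X (L ≃ₐ[K] L) α hα hι
  let _ : Algebra ℚ K := DivisionRing.toRatAlgebra
  have h1 := hk₀ k hk (L ≃ₐ[K] L) o χ (Or.inl hodd) K L (MulEquiv.refl _)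
  refine regSol_iso K L _ _ _ _ e.symm (fun z => ?_) h1
  obtain ⟨x, rfl⟩ := e.surjective z
  rw [e.symm_apply_apply, ← he]
  rfl

/-- Almost all multiples. -/
theorem goodKer_dens (hdens : St_dens) [Nontrivial G]
    (hZ : ∀ z : G, (∀ g : G, z * g = g * z) → z = 1)
    (hperf : commutator G = ⊤) (D : ℕ) (hD : Odd D) (hidx : SplitIdx (cls G) D) :
    AlmostAll (2 * D) (fun n => GoodKer0 (AWr G n)) := by
  refine hdens D _ hD.pos fun q hq hq4 => ?_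
  obtain ⟨r₀, hr₀⟩ := goodKer5 G hZ hperf q hq hq4
  refine ⟨r₀, fun s hs hodd => ?_⟩
  have h1 : 1 * s ≤ D * s := Nat.mul_le_mul_right _ hD.pos
  exact hr₀ (D * s) (by omega) (hD.mul hodd) (splitIdx_mul hidx s)

end ker

end Pool.Agent.N70.EP
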