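import Mathlib
import Pool.Agent.N70.EP.Kf
import Pool.Agent.N70.EP.Dens
import Pool.Agent.N97.EP.Gd0

/-!
Final theorems on alternating fibre powers.
-/

set_option autoImplicit false
set_option linter.unusedSectionVars false
set_option linter.unusedSimpArgs false

namespace Pool.Agent.N70.EP

open Polynomial Pool.Agent.H391R2 Pool.Agent.H391R2.T4
open Pool.Agent.Y793 (AWr AltTw twProj reg_wr regSol_iso)
open Pool.Agent.N600.NS (IdxDvd Degs)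
open Pool.Agent.TH444.TW (RSK)
open Pool.Agent.N600.UK (Out cls cls_eq_one conj_inj)

theorem almostAll_mono {d : ℕ} {A A' : ℕ → Prop} (h : AlmostAll d A) (hA : ∀ n, A n → A' n) :
    AlmostAll d A' := by
  classical
  intro ε hε
  obtain ⟨N, hN⟩ := h ε hε
  refine ⟨N, fun x hx => le_trans ?_ (hN x hx)⟩
  refine Nat.cast_le.2 (Finset.card_le_card fun n hn => ?_)
  rw [Finset.mem_filter] at hn ⊢
  exact ⟨hn.1, hn.2.1, fun h => hn.2.2 (hA n h)⟩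

section main

variable (K L : Type) [Field K] [CharZero K] [Field L] [Algebra K L]
    [FiniteDimensional K L] [IsGalois K L] {B : Type} [Group B] [Finite B]
    (a : B →* (L ≃ₐ[K] L))

/-- **The index theorem for alternating fibre powers.** -/
theorem idx_thm (ha : Function.Surjective a) (hperf : commutator a.ker = ⊤) :
    ∃ I : ℕ, 0 < I ∧ (∀ d : ℕ, d ∣ I ↔ ∀ m ∈ Degs K L B a, d ∣ m) ∧
      (∀ (χ : (L ≃ₐ[K] L) →* ℤˣ) (n : ℕ), WeakSol K L (AltTw a χ n) (twProj a χ n) → I ∣ n) ∧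
      (∀ q : ℕ, Even q → 4 ≤ q → ∃ r₀ : ℕ, ∀ r ≥ r₀, I ∣ r → ∃ k₀ : ℕ, ∀ k ≥ k₀,
        ∀ χ : (L ≃ₐ[K] L) →* ℤˣ, (Odd r ∨ χ = 1) →
          RegSol K L (AltTw a χ (q * r * (2 * k + 1))) (twProj a χ (q * r * (2 * k + 1)))) ∧
      AlmostAll (2 * I) (fun n => ∀ χ : (L ≃ₐ[K] L) →* ℤˣ, (Odd I ∨ χ = 1) →
        RegSol K L (AltTw a χ n) (twProj a χ n)) := by
  obtain ⟨I, hI0, hI, hidx⟩ := exists_index K L a
  have hmain : ∀ q : ℕ, Even q → 4 ≤ q → ∃ r₀ : ℕ, ∀ r ≥ r₀, I ∣ r → ∃ k₀ : ℕ, ∀ k ≥ k₀,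
        ∀ χ : (L ≃ₐ[K] L) →* ℤˣ, (Odd r ∨ χ = 1) →
          RegSol K L (AltTw a χ (q * r * (2 * k + 1))) (twProj a χ (q * r * (2 * k + 1))) := by
    intro q hq hq4
    obtain ⟨r₀, hr₀⟩ := t5 K L a ha hperf q hq hq4
    exact ⟨r₀, fun r hr hd => hr₀ r hr ((hidx r).2 hd)⟩
  refine ⟨I, hI0, hI, fun χ n h => (hidx n).1 (weak_tw K L a h), hmain, ?_⟩
  refine t_dens I _ hI0 fun q hq hq4 => ?_
  obtain ⟨r₀, hr₀⟩ := hmain q hq hq4
  refine ⟨r₀, fun s hs hodd => ?_⟩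
  have h1 : 1 * s ≤ I * s := Nat.mul_le_mul_right _ hI0
  obtain ⟨k₀, hk₀⟩ := hr₀ (I * s) (by omega) (Dvd.intro _ rfl)
  refine ⟨k₀, fun k hk χ hχ => hk₀ k hk χ ?_⟩
  rcases hχ with hχ | hχ
  · exact Or.inl (hχ.mul hodd)
  · exact Or.inr hχ

end main

/-- The greatest common divisor of the indices of the subgroups over which `a` splits. -/
theorem exists_splitIdx {H B : Type} [Group H] [Finite H] [Group B] (a : B →* H) :
    ∃ I : ℕ, 0 < I ∧ (∀ d : ℕ, d ∣ I ↔ ∀ (U : Subgroup H) (s : U →* B), (∀ h : U, a (s h) = h) →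
      d ∣ U.index) ∧ ∀ n, SplitIdx a n ↔ I ∣ n := by
  let D : Set ℕ := {m | ∃ (U : Subgroup H) (s : U →* B), (∀ h : U, a (s h) = h) ∧ U.index = m}
  let S : Ideal ℤ := Ideal.span ((fun m : ℕ => (m : ℤ)) '' D)
  let g : ℤ := Submodule.IsPrincipal.generator S
  have hg : S = Ideal.span {g} := (Ideal.span_singleton_generator S).symm
  have key : ∀ d : ℕ, d ∣ g.natAbs ↔ ∀ m ∈ D, d ∣ m := by
    intro d
    have h1 : (d ∣ g.natAbs) ↔ S ≤ Ideal.span {(d : ℤ)} := by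
      rw [hg, Ideal.span_singleton_le_span_singleton, ← Int.natCast_dvd]
    rw [h1, Ideal.span_le]
    constructor
    · intro h m hm
      have h2 := h ⟨m, hm, rfl⟩
      exact Int.natCast_dvd_natCast.1 (Ideal.mem_span_singleton.1 h2)
    · rintro h _ ⟨m, hm, rfl⟩
      exact Ideal.mem_span_singleton.2 (Int.natCast_dvd_natCast.2 (h m hm))
  have key' : ∀ d : ℕ, d ∣ g.natAbs ↔ ∀ (U : Subgroup H) (s : U →* B), (∀ h : U, a (s h) = h) →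
      d ∣ U.index := fun d => (key d).trans
    ⟨fun h U s hs => h _ ⟨U, s, hs, rfl⟩, by
      rintro h _ ⟨U, s, hs, rfl⟩
      exact h U s hs⟩
  have h0 : Nat.card H ∈ D := ⟨⊥, 1, fun h => by
    rw [MonoidHom.one_apply, map_one]
    exact (Subgroup.mem_bot.1 h.2).symm, Subgroup.index_bot⟩
  refine ⟨g.natAbs, ?_, key', fun n => ⟨fun h => h _ ((key' _).1 dvd_rfl), fun h d hd =>
    ((key' d).2 hd).trans h⟩⟩
  have h2 := (key g.natAbs).1 dvd_rfl _ h0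
  have h3 : 0 < Nat.card H := Nat.card_pos
  rcases Nat.eq_zero_or_pos g.natAbs with h4 | h4
  · rw [h4, zero_dvd_iff] at h2
    omega
  · exact h4

/-- The uniform form of the index theorem. -/
theorem idx_thmu (H B : Type) [Group H] [Finite H] [Group B] [Finite B] (a : B →* H)
    (ha : Function.Surjective a) (hperf : commutator a.ker = ⊤) :
    ∃ I : ℕ, 0 < I ∧ (∀ d : ℕ, d ∣ I ↔ ∀ (U : Subgroup H) (s : U →* B), (∀ h : U, a (s h) = h) →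
      d ∣ U.index) ∧
      (∀ q : ℕ, Even q → 4 ≤ q → ∃ r₀ : ℕ, ∀ r ≥ r₀, I ∣ r → ∃ k₀ : ℕ, ∀ k ≥ k₀,
        ∀ χ : H →* ℤˣ, (Odd r ∨ χ = 1) → RSK ℚ (twProj a χ (q * r * (2 * k + 1)))) ∧
      AlmostAll (2 * I) (fun n => ∀ χ : H →* ℤˣ, (Odd I ∨ χ = 1) → RSK ℚ (twProj a χ n)) := by
  obtain ⟨I, hI0, hI, hidx⟩ := exists_splitIdx a
  have hmain : ∀ q : ℕ, Even q → 4 ≤ q → ∃ r₀ : ℕ, ∀ r ≥ r₀, I ∣ r → ∃ k₀ : ℕ, ∀ k ≥ k₀,
        ∀ χ : H →* ℤˣ, (Odd r ∨ χ = 1) → RSK ℚ (twProj a χ (q * r * (2 * k + 1))) := by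
    intro q hq hq4
    obtain ⟨r₀, hr₀⟩ := t5u H B a ha hperf q hq hq4
    exact ⟨r₀, fun r hr hd => hr₀ r hr ((hidx r).2 hd)⟩
  refine ⟨I, hI0, hI, hmain, ?_⟩
  refine t_dens I _ hI0 fun q hq hq4 => ?_
  obtain ⟨r₀, hr₀⟩ := hmain q hq hq4
  refine ⟨r₀, fun s hs hodd => ?_⟩
  have h1 : 1 * s ≤ I * s := Nat.mul_le_mul_right _ hI0
  obtain ⟨k₀, hk₀⟩ := hr₀ (I * s) (by omega) (Dvd.intro _ rfl)
  refine ⟨k₀, fun k hk χ hχ => hk₀ k hk χ ?_⟩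
  rcases hχ with hχ | hχ
  · exact Or.inl (hχ.mul hodd)
  · exact Or.inr hχ

end Pool.Agent.N70.EP
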