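import Mathlib
import Pool.Agent.N70.EP.Voc
import Pool.Agent.N70.EP.TF

/-!
Translation between the vocabularies.
-/

set_option autoImplicit false
set_option linter.unusedSectionVars false
set_option linter.unusedSimpArgs false

namespace Pool.Agent.N70.EP

open Polynomial Pool.Agent.H391R2 Pool.Agent.H391R2.T4 Voc
open Pool.Agent.Y793 (AWr AltTw twProj reg_wr regSol_iso)
open Pool.Agent.N600.NS (IdxDvd Degs)
open Pool.Agent.TH444.TW (RSK)

section grp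

variable {B Γ : Type} [Group B] [Group Γ] (α : B →* Γ) (χ : Γ →* ℤˣ) (n : ℕ)

theorem twPow_eq : TwPow α χ n = AltTw α χ n := by
  ext z
  constructor
  · rintro ⟨h1, h2⟩
    exact Subgroup.mem_inf.2 ⟨h1, h2⟩
  · intro h
    exact ⟨(Subgroup.mem_inf.1 h).1, (Subgroup.mem_inf.1 h).2⟩

/-- The identity. -/
def twE : TwPow α χ n ≃* AltTw α χ n := MulEquiv.subgroupCongr (twPow_eq α χ n)

theorem twE_proj (z : TwPow α χ n) : twProj α χ n (twE α χ n z) = twPr α χ n z := rfl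

end grp

section sol

variable (K L : Type) [Field K] [Field L] [Algebra K L] [FiniteDimensional K L] [IsGalois K L]

theorem regular_iff {B : Type} [Group B] (α : B →* (L ≃ₐ[K] L)) (χ : (L ≃ₐ[K] L) →* ℤˣ) (n : ℕ) :
    TwRegular α χ n ↔ RegSol K L (AltTw α χ n) (twProj α χ n) := by
  constructor
  · intro h
    exact regSol_iso K L _ _ _ _ (twE α χ n) (fun z => rfl) h
  · intro h
    exact regSol_iso K L _ _ _ _ (twE α χ n).symm (fun z => rfl) h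

theorem weak_of_over {E : Type} [Group E] (π : E →* (L ≃ₐ[K] L)) (h : WeakSolutionOver π K) :
    WeakSol K L E π := by
  obtain ⟨M, i1, i2, i3, i4, i5, i6, i7, i8, s, hs⟩ := h
  have h34 : i2 = i4 := Algebra.algebra_ext i2 i4 (fun x =>
    (@IsScalarTower.algebraMap_apply K K M _ _ _ _ i2 i4 i5 x).symm)
  subst h34
  refine ⟨M, i1, i2, i7, i8, i3, i6, s, fun ρ => ?_⟩
  ext x
  apply (algebraMap L M).injective
  rw [AlgEquiv.restrictNormal_commutes, ← hs]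

theorem over_of_weak {E : Type} [Group E] (π : E →* (L ≃ₐ[K] L)) (h : WeakSol K L E π) :
    WeakSolutionOver π K := by
  obtain ⟨M, i1, i2, i3, i4, i5, i6, s, hs⟩ := h
  refine ⟨M, i1, i2, i5, i2, inferInstance, i6, i3, i4, s, fun σ x => ?_⟩
  rw [hs, AlgEquiv.restrictNormal_commutes]

theorem weak_tw' {B : Type} [Group B] (α : B →* (L ≃ₐ[K] L)) (χ : (L ≃ₐ[K] L) →* ℤˣ) (n : ℕ)
    (h : TwWeak α χ n) : WeakSol K L (AltTw α χ n) (twProj α χ n) := by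
  obtain ⟨M, i1, i2, i3, i4, i5, i6, s, hs⟩ := weak_of_over K L _ h
  exact ⟨M, i1, i2, i3, i4, i5, i6, (twE α χ n : TwPow α χ n →* AltTw α χ n).comp s, hs⟩

theorem isIndex_of {B : Type} [Group B] (α : B →* (L ≃ₐ[K] L)) {I : ℕ} (h0 : 0 < I)
    (h : ∀ d : ℕ, d ∣ I ↔ ∀ m ∈ Degs K L B α, d ∣ m) : IsIndex α I := by
  refine ⟨h0, fun d => (h d).trans ⟨fun h1 K' _ _ _ h2 => h1 _ ⟨K', _, _, inferInstance, rfl, h2⟩,
    ?_⟩⟩
  rintro h1 m ⟨K', i1, i2, i3, rfl, h2⟩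
  exact h1 K' h2

end sol

theorem almost_iff {d : ℕ} {A : ℕ → Prop} : AlmostAllMultiples d A ↔ AlmostAll d A := Iff.rfl

/-- The index theorem. -/
theorem voc_index (K L : Type) [Field K] [CharZero K] [Field L] [Algebra K L]
    [FiniteDimensional K L] [IsGalois K L] {B : Type} [Group B] [Finite B]
    (α : B →* (L ≃ₐ[K] L)) (hα : Function.Surjective α) (hperf : commutator α.ker = ⊤) :
    ∃ I : ℕ, IsIndex α I ∧
      (∀ (χ : (L ≃ₐ[K] L) →* ℤˣ) (n : ℕ),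
        TwWeak α χ n ∨ TwRegular α χ n → I ∣ n) ∧
      AlmostAllMultiples (2 * I) (fun n => ∀ χ : (L ≃ₐ[K] L) →* ℤˣ, Odd I ∨ χ = 1 →
        TwRegular α χ n) ∧
      ∀ q : ℕ, Even q → 4 ≤ q → ∃ r₀ : ℕ, ∀ r ≥ r₀, I ∣ r → ∃ k₀ : ℕ, ∀ k ≥ k₀,
        ∀ χ : (L ≃ₐ[K] L) →* ℤˣ, Odd r ∨ χ = 1 →
          TwRegular α χ (q * r * (2 * k + 1)) := by
  obtain ⟨I, hI0, hI, h1, h2, h3⟩ := idx_thm K L α hα hperf
  refine ⟨I, isIndex_of K L α hI0 hI, ?_, ?_, ?_⟩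
  · rintro χ n (h | h)
    · exact h1 χ n (weak_tw' K L α χ n h)
    · have hW : Finite (Wr B n) := finite_wr B n
      exact h1 χ n (Pool.Agent.N600.NS.weak_of_reg K L _ _ ((regular_iff K L α χ n).1 h))
  · refine almostAll_mono h3 fun n hn χ hχ => (regular_iff K L α χ n).2 (hn χ hχ)
  · intro q hq hq4
    obtain ⟨r₀, hr₀⟩ := h2 q hq hq4
    refine ⟨r₀, fun r hr hd => ?_⟩
    obtain ⟨k₀, hk₀⟩ := hr₀ r hr hd
    exact ⟨k₀, fun k hk χ hχ => (regular_iff K L α χ _).2 (hk₀ k hk χ hχ)⟩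

end Pool.Agent.N70.EP
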