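import Mathlib
import Pool.Agent.N70.EP.Voc

/-!
# Vocabulary: kernels of embedding problems in characteristic zero
-/

set_option autoImplicit false

namespace Pool.Agent.N70.EP.Voc

/-- The alternating wreath product `G ≀ A_n`: the elements of the wreath product `G ≀ S_n` over even
permutations. -/
def AltWreath (G : Type) [Group G] (n : ℕ) : Subgroup (Wreath G n) :=
  (Equiv.Perm.sign.comp SemidirectProduct.rightHom).ker

/-- The group of the inner automorphisms. -/
def InnerAut (G : Type) [Group G] : Subgroup (MulAut G) := (MulAut.conj : G →* MulAut G).range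

/-- `G` is a nontrivial finite group with trivial centre. -/
structure Centreless (G : Type) [Group G] : Prop where
  finite : Finite G
  nontrivial : Nontrivial G
  center : Subgroup.center G = ⊥

/-- `D` is the greatest common divisor of the indices of the subgroups `U` of `Aut G` containing
`Inn G` in which `Inn G` has a complement. So `D = 1` if `Inn G` has a complement in `Aut G`, and `D`
divides the order of `Out G`. -/
def OuterIndex (G : Type) [Group G] (D : ℕ) : Prop :=
  0 < D ∧ ∀ d : ℕ, d ∣ D ↔ ∀ U C : Subgroup (MulAut G), C ⊓ InnerAut G = ⊥ →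
    C ⊔ InnerAut G = U → d ∣ U.index

/-- The class of groups, depending on a set `A G` of natural numbers for every group `G`. It is the
smallest class of groups which
* contains `G ≀ A_n` for every nontrivial finite perfect group `G` with trivial centre and every `n`
  in `A G`,
* contains `G ≀ S_n` for every nontrivial finite group `G` with trivial centre such that `Inn G` has a
  complement in `Aut G` and every `n ≥ ((3 |G| + 2)!)^3`,
* contains the finite groups with trivial centre all of whose automorphisms are inner which are
  Galois groups of regular extensions of `ℚ(t)`,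
* contains `T ≀ S_n` if it contains the nontrivial group `T` and `n ≥ 2 (|T| + 2)`,
* is closed under finite direct products, direct factors, isomorphisms and characteristic extensions
  (it contains `T` if it contains `C` and `T / C` for a characteristic subgroup `C` of `T`). -/
inductive KernelClass (A : ∀ (G : Type) [Group G], Set ℕ) : ∀ (T : Type) [Group T], Prop
  | alternating (G : Type) [Group G] (hG : Centreless G) (hP : commutator G = ⊤) (n : ℕ)
      (hn : n ∈ A G) : KernelClass A (AltWreath G n)
  | symmetric (G : Type) [Group G] (hG : Centreless G)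
      (hC : ∃ C : Subgroup (MulAut G), IsCompl C (InnerAut G)) (n : ℕ)
      (hn : ((3 * Nat.card G + 2).factorial) ^ 3 ≤ n) : KernelClass A (Wreath G n)
  | complete (T : Type) [Group T] [Finite T] (hZ : Subgroup.center T = ⊥)
      (hI : ∀ a : MulAut T, ∃ g : T, a = MulAut.conj g)
      (hR : RegularSolution (1 : T →* (ℚ ≃ₐ[ℚ] ℚ))) : KernelClass A T
  | power (T : Type) [Group T] [Nontrivial T] (h : KernelClass A T) (n : ℕ)
      (hn : 2 * (Nat.card T + 2) ≤ n) : KernelClass A (Wreath T n)
  | prod (I : Type) [Finite I] (T : I → Type) [∀ i, Group (T i)] (h : ∀ i, KernelClass A (T i)) :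
      KernelClass A (∀ i, T i)
  | factor (S T : Type) [Group S] [Group T] (h : KernelClass A (S × T)) : KernelClass A S
  | extension (T : Type) [Group T] (C : Subgroup T) [C.Characteristic] (h : KernelClass A C)
      (h' : KernelClass A (T ⧸ C)) : KernelClass A T
  | iso (T T' : Type) [Group T] [Group T'] (e : T ≃* T') (h : KernelClass A T) : KernelClass A T'

/-- The inverse limit of the sequence `W 0 ← W 1 ← W 2 ← ...`: the group of all sequences `x` with
`p i (x (i + 1)) = x i`. -/
def InvLim {W : ℕ → Type} [∀ i, Group (W i)] (p : ∀ i, W (i + 1) →* W i) : Subgroup (∀ i, W i) where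
  carrier := {x | ∀ i, p i (x (i + 1)) = x i}
  one_mem' := fun i => map_one (p i)
  mul_mem' := fun ha hb i => (map_mul (p i) _ _).trans (congrArg₂ (· * ·) (ha i) (hb i))
  inv_mem' := fun ha i => (map_inv (p i) _).trans (congrArg (·⁻¹) (ha i))

/-- All components of the isomorphism `γ` of `Gal(F/E)` with the inverse limit are continuous (have
open kernel). -/
def ContComp {E F : Type} [Field E] [Field F] [Algebra E F] {W : ℕ → Type} [∀ i, Group (W i)]
    {p : ∀ i, W (i + 1) →* W i} (γ : (F ≃ₐ[E] F) ≃* InvLim p) : Prop :=
  ∀ i, IsOpen {σ : F ≃ₐ[E] F | (γ σ).1 i = 1}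

/-- The element `σ` of `Gal(F/E)` acts on `L` as the component of `γ σ` in `W 0 ≃ Gal(L/K)`. -/
def ActComp {K L E F : Type} [Field K] [Field L] [Algebra K L] [Field E] [Field F] [Algebra E F]
    [Algebra L F] {W : ℕ → Type} [∀ i, Group (W i)] {p : ∀ i, W (i + 1) →* W i}
    (e₀ : W 0 ≃* (L ≃ₐ[K] L)) (γ : (F ≃ₐ[E] F) ≃* InvLim p) : Prop :=
  ∀ (σ : F ≃ₐ[E] F) (x : L), σ (algebraMap L F x) = algebraMap L F (e₀ ((γ σ).1 0) x)

/-- The embedding problem over `K(t)` given by the finite Galois extension `L` of `K` and the
projection of the inverse limit of the `W i` to `W 0 ≃ Gal(L/K)` has a regular solution: there are a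
Galois extension `F` of `K(t)` containing `L`, in which `L` is algebraically closed, and an
isomorphism `γ` of its group with the inverse limit, all of whose components are continuous, such
that the action on `L` is the component in `W 0`. -/
def RegularTower {K L : Type} [Field K] [Field L] [Algebra K L] {W : ℕ → Type} [∀ i, Group (W i)]
    (p : ∀ i, W (i + 1) →* W i) (e₀ : W 0 ≃* (L ≃ₐ[K] L)) : Prop :=
  ∃ (F : Type) (_ : Field F) (_ : Algebra (RatFunc K) F) (_ : Algebra L F)
    (_ : Algebra K F) (_ : IsScalarTower K (RatFunc K) F) (_ : IsScalarTower K L F)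
    (_ : IsGalois (RatFunc K) F) (γ : (F ≃ₐ[RatFunc K] F) ≃* InvLim p),
    ContComp γ ∧ ActComp e₀ γ ∧ ∀ y : F, IsAlgebraic L y → y ∈ Set.range (algebraMap L F)

/-- The same over `K`. -/
def ProperTower {K L : Type} [Field K] [Field L] [Algebra K L] {W : ℕ → Type} [∀ i, Group (W i)]
    (p : ∀ i, W (i + 1) →* W i) (e₀ : W 0 ≃* (L ≃ₐ[K] L)) : Prop :=
  ∃ (F : Type) (_ : Field F) (_ : Algebra K F) (_ : Algebra L F) (_ : IsScalarTower K L F)
    (_ : IsGalois K F) (γ : (F ≃ₐ[K] F) ≃* InvLim p), ContComp γ ∧ ActComp e₀ γ

end Pool.Agent.N70.EP.Voc
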