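import Mathlib
import Pool.Agent.N70.EP.VocC
import Pool.Agent.N70.EP.VocB
import Pool.Agent.N70.EP.Cm
import Pool.Agent.N97.EP.Gd0

/-!
The class of kernels.
-/

set_option autoImplicit false
set_option linter.unusedSectionVars false
set_option linter.unusedSimpArgs false

namespace Pool.Agent.N70.EP

open Pool.Agent.H391R2 Pool.Agent.H391R2.T4 Voc
open Pool.Agent.Y793 (AWr AltTw twProj reg_wr regSol_iso)
open Pool.Agent.TH444.TW (RSK infinite_ratFunc)
open Pool.Agent.N600.UK (CL cl_of_center center_of_cl cl_iso Out cls cls_eq_one conj_inj)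
open Pool.Agent.TH59.WX (finite_of_kernel hil_of_reg)
open Pool.Agent.TH15.IGP (Lim)

theorem awr_eq (G : Type) [Group G] (n : ℕ) : AltWreath G n = AWr G n := rfl

theorem splitIdx_of_outer (G : Type) [Group G] [Finite G] {D : ℕ} (h : OuterIndex G D) :
    SplitIdx (cls G) D := by
  intro d hd
  rw [h.2]
  rintro U C hC rfl
  let f : C →* Out G := (cls G).comp C.subtype
  have hf : Function.Injective f := by
    rw [injective_iff_map_eq_one]
    intro c hc
    have h1 : cls G (c : MulAut G) = 1 := hc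
    rw [cls_eq_one] at h1
    obtain ⟨g, hg⟩ := h1
    have h2 : (c : MulAut G) ∈ C ⊓ InnerAut G := Subgroup.mem_inf.2 ⟨c.2, ⟨g, hg⟩⟩
    rw [hC] at h2
    exact Subtype.ext h2
  let e : C ≃* f.range := MonoidHom.ofInjective hf
  have h1 := hd f.range (C.subtype.comp (e.symm : f.range →* C)) (fun v => by
    obtain ⟨c, rfl⟩ := e.surjective v
    change cls G ((e.symm (e c) : C) : MulAut G) = _
    rw [e.symm_apply_apply]
    rfl)
  have h2 : f.range.index = (C ⊔ InnerAut G).index := by
    have h3 : f.range = (C ⊔ InnerAut G).map (cls G) := by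
      rw [Subgroup.map_sup]
      have h4 : (InnerAut G).map (cls G) = ⊥ := by
        rw [eq_bot_iff]
        rintro _ ⟨a, ⟨g, rfl⟩, rfl⟩
        exact Subgroup.mem_bot.2 ((cls_eq_one _).2 ⟨g, rfl⟩)
      rw [h4, sup_bot_eq]
      ext v
      constructor
      · rintro ⟨c, rfl⟩
        exact ⟨c, c.2, rfl⟩
      · rintro ⟨c, hc, rfl⟩
        exact ⟨⟨c, hc⟩, rfl⟩
    rw [h3, Subgroup.index_map]
    have h5 : (cls G).ker = InnerAut G := QuotientGroup.ker_mk' _
    have h6 : (cls G).range = ⊤ := MonoidHom.range_eq_top.2 (QuotientGroup.mk'_surjective _)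
    rw [h5, h6, Subgroup.index_top, mul_one, sup_assoc, sup_idem]
  rwa [h2] at h1

/-- The sets of natural numbers. -/
def setA (G : Type) [Group G] : Set ℕ := {n | GoodKer0 (AWr G n)}

theorem setA_dens (G : Type) [Group G] (hG : Centreless G) (hP : commutator G = ⊤) (D : ℕ)
    (hD : OuterIndex G D) (hodd : Odd D) : AlmostAllMultiples (2 * D) (fun n => n ∈ setA G) := by
  have h1 := hG.finite
  have h2 := hG.nontrivial
  exact goodKer_dens G t_dens (cl_of_center hG.center) hP D hodd (splitIdx_of_outer G hD)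

theorem kernel_main (A : ∀ (G : Type) [Group G], Set ℕ)
    (hA : ∀ (G : Type) [Group G] (n : ℕ), n ∈ A G → n ∈ setA G) (T : Type) [Group T]
    (hT : KernelClass A T) : Finite T ∧ CL T ∧ GoodKer0 T := by
  have gd : St_gd0 := N97.EP.t_gd0
  induction hT with
  | alternating G hG hP n hn =>
    have h2 := hG.finite
    have h3 := hG.nontrivial
    have h4 : Finite (Wr G n) := finite_wr G n
    refine ⟨Finite.of_injective Subtype.val Subtype.val_injective, ?_, hA G n hn⟩
    intro z hz
    exact N478.EP.triv_of_comm (cl_of_center hG.center) z (fun k g => hz (N891.EP.sg k g))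
  | symmetric G hG hC n hn =>
    have h2 := hG.finite
    have h3 := hG.nontrivial
    obtain ⟨h4, h5, h6⟩ := (N600.UK.Univ.wreath G hG.center hC n hn).main
    exact ⟨h4, h5, good0_of_good h6⟩
  | complete T hZ hI hR =>
    exact ⟨inferInstance, cl_of_center hZ, gd.complete T (cl_of_center hZ) hI hR⟩
  | power T h n hn ih =>
    obtain ⟨h1, h2, h3⟩ := ih
    exact ⟨finite_wr T n, fun x hx => N600.UK.center_wr h2 x hx, gd.wr T h2 h3 n hn⟩
  | prod I T h ih =>
    have h1 : ∀ i, Finite (T i) := fun i => (ih i).1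
    refine ⟨inferInstance, ?_, gd.pi I T (fun i => (ih i).2.1) (fun i => (ih i).2.2)⟩
    intro z hz
    classical
    funext i
    refine (ih i).2.1 _ fun g => ?_
    have h2 := congrFun (hz (Pi.mulSingle i g)) i
    rw [Pi.mul_apply, Pi.mul_apply, Pi.mulSingle_eq_same] at h2
    exact h2
  | factor A B h ih =>
    obtain ⟨h1, h2, h3⟩ := ih
    refine ⟨Finite.of_injective (fun a : A => (a, (1 : B))) (fun a b hab => congrArg Prod.fst hab),
      ?_, gd.factor A B h3⟩
    intro z hz
    have h4 : ((z, 1) : A × B) = 1 := by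
      apply h2
      rintro ⟨a, b⟩
      refine Prod.ext (hz a) ?_
      change 1 * b = b * 1
      rw [one_mul, mul_one]
    exact congrArg Prod.fst h4
  | extension T C h h' ih ih' =>
    obtain ⟨h1, h2, h3⟩ := ih
    obtain ⟨h4, h5, h6⟩ := ih'
    have hfin : Finite T := Finite.of_subgroup_quotient C
    refine ⟨hfin, ?_, gd.char T C h3 h6⟩
    intro z hz
    have h7 : (QuotientGroup.mk' C z) = 1 := by
      apply h5
      intro g
      obtain ⟨g, rfl⟩ := QuotientGroup.mk'_surjective C g
      rw [← map_mul, hz g, map_mul]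
    rw [QuotientGroup.mk'_apply, QuotientGroup.eq_one_iff] at h7
    have h8 : (⟨z, h7⟩ : C) = 1 := by
      apply h2
      intro g
      exact Subtype.ext (hz g)
    exact congrArg Subtype.val h8
  | iso T T' e h ih =>
    obtain ⟨h1, h2, h3⟩ := ih
    exact ⟨Finite.of_equiv _ e.toEquiv, cl_iso e h2, gd.iso T T' e h3⟩

theorem regularTower_of {K L : Type} [Field K] [CharZero K] [Field L] [Algebra K L]
    [FiniteDimensional K L] [IsGalois K L] (P : ∀ (T : Type) [Group T], Prop)
    (hP : ∀ (T : Type) [Group T], P T → Finite T ∧ GoodKer0 T)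
    {W : ℕ → Type} [∀ i, Group (W i)] (p : ∀ i, W (i + 1) →* W i)
    (hp : ∀ i, Function.Surjective (p i) ∧ P (p i).ker) (e₀ : W 0 ≃* (L ≃ₐ[K] L)) :
    RegularTower p e₀ := by
  obtain ⟨F, i1, i2, i3, i4, i5, i6, i7, γ, h1, h2, h3⟩ := tower_reg0 P hP K L W p hp e₀
  exact ⟨F, i1, i2, i3, i4, i5, i6, i7, γ, h1, h2, h3⟩

theorem properTower_of {K L : Type} [Field K] [CharZero K] (hK : HilbField K) [Field L]
    [Algebra K L] [FiniteDimensional K L] [IsGalois K L] (P : ∀ (T : Type) [Group T], Prop)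
    (hP : ∀ (T : Type) [Group T], P T → Finite T ∧ GoodKer0 T)
    {W : ℕ → Type} [∀ i, Group (W i)] (p : ∀ i, W (i + 1) →* W i)
    (hp : ∀ i, Function.Surjective (p i) ∧ P (p i).ker) (e₀ : W 0 ≃* (L ≃ₐ[K] L)) :
    ProperTower p e₀ := by
  obtain ⟨F, i1, i2, i3, i4, i5, γ, h1, h2⟩ := tower_hil0 P hP K hK W p hp L e₀
  exact ⟨F, i1, i2, i3, i4, i5, γ, h1, h2⟩

end Pool.Agent.N70.EP
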