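import Mathlib
import Pool.Agent.N70.EP.VocCB
import Pool.Agent.N600.UK.Main

/-!
Realizability along regular steps.
-/

set_option autoImplicit false
set_option linter.unusedSectionVars false
set_option linter.unusedSimpArgs false

namespace Pool.Agent.N70.EP

open Nfff32c05
open Pool.Agent.H391R2 (isRealizable_of isRealizable_quotient)
open Pool.Agent.H391R2.T4 (RegSol HilbField)
open Pool.Agent.TH59.WX (collapse exists_gal_of hil_of_reg)
open Pool.Agent.TH444.TW (RSK RegularOver regSol_of_regularOver infinite_ratFunc)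
open Pool.Agent.N600.UK (triv_aut reg_quot)

theorem step_rsk {K L X X' : Type} [Field K] [CharZero K] [Field L] [Algebra K L]
    [FiniteDimensional K L] [IsGalois K L] [Group X] [Finite X] (α : X →* (L ≃ₐ[K] L))
    [Group X'] (r : X →* X') (hrsk : RSK ℚ r)
    (δ : X' →* (L ≃ₐ[K] L)) (hδ : ∀ x, δ (r x) = α x)
    (h1 : RegSol K L X' δ) : RegSol K L X α := by
  obtain ⟨F', i1, i2, i3, i4, i5, i6, i7, i8, γ', hγ1, hγ2⟩ := h1
  have hinf : Infinite K := CharZero.infinite K
  have hinf2 := infinite_ratFunc K
  let _ : Algebra ℚ (RatFunc K) :=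
    ((algebraMap K (RatFunc K)).comp (Rat.castHom K)).toAlgebra
  exact collapse K L α δ r hδ F' γ' hγ1 hγ2 (hrsk (RatFunc K) F' γ')

theorem regular_rsk {X H : Type} [Group X] [Finite X] [Group H] (p : X →* H)
    (h : RSK ℚ p) (K : Type) [Field K] [CharZero K] (hH : RegularOver K H) : RegularOver K X :=
  regularOver_of (step_rsk 1 p h 1 (fun _ => rfl) (regSol_of_regularOver hH))

theorem regular_rsk_iff {X H : Type} [Group X] [Finite X] [Group H] (p : X →* H)
    (hp : Function.Surjective p)
    (h : RSK ℚ p) (K : Type) [Field K] [CharZero K] : RegularOver K X ↔ RegularOver K H := by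
  refine ⟨fun h1 => regularOver_of ?_, regular_rsk p h K⟩
  exact reg_quot 1 1 p hp (fun y => rfl) (regSol_of_regularOver h1)

theorem real_rsk {X H : Type} [Group X] [Finite X] [Group H] (p : X →* H)
    (hp : Function.Surjective p) (h : RSK ℚ p) (K : Type) [Field K] [CharZero K]
    (hK : HilbField K) (hH : IsRealizable K H) : IsRealizable K X := by
  have hfin : Finite H := Finite.of_surjective p hp
  have hinf : Infinite K := CharZero.infinite K
  obtain ⟨L, i1, i2, i3, i4, ⟨f⟩⟩ := exists_gal_of K H hH
  let _ : Algebra ℚ K := DivisionRing.toRatAlgebra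
  obtain ⟨F, j1, j2, j3, j4, j5, j6, γ, -⟩ := hil_of_reg K L X hK _ (h K L f.symm)
  exact isRealizable_of F γ.symm

theorem real_rsk_iff {X H : Type} [Group X] [Finite X] [Group H] (p : X →* H)
    (hp : Function.Surjective p) (h : RSK ℚ p) (K : Type) [Field K] [CharZero K]
    (hK : HilbField K) : IsRealizable K X ↔ IsRealizable K H := by
  refine ⟨fun h1 => ?_, real_rsk p hp h K hK⟩
  obtain ⟨L, i1, i2, i3, i4, ⟨f⟩⟩ := exists_gal_of K X h1
  exact isRealizable_quotient L (p.comp f.symm.toMonoidHom) (hp.comp f.symm.surjective)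

/-- Normal subgroups in the class. -/
theorem rsk_normal {T : Type} [Group T] (hT : GoodKer0 T) (X : Type) [Group X] (N : Subgroup X)
    [N.Normal] (hN : Nonempty (N ≃* T)) : RSK ℚ (QuotientGroup.mk' N) :=
  rsk_of_good hT _ (QuotientGroup.mk'_surjective N)
    (hN.map fun e => (MulEquiv.subgroupCongr (QuotientGroup.ker_mk' N)).trans e)

end Pool.Agent.N70.EP
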