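import Mathlib
import Pool.Agent.N70.EP.VocI
import Pool.Agent.N70.EP.VocB
import Pool.Agent.TH377.IG.HilbFin

set_option autoImplicit false
set_option linter.unusedSectionVars false

namespace Pool.Agent.N70.EP

open Polynomial Pool.Agent.H391R2 Pool.Agent.H391R2.T4 Voc
open Pool.Agent.Y793 (AWr AltTw twProj reg_wr regSol_iso)
open Pool.Agent.TH377.IG (FPI)

theorem fib_eq {J Γ : Type} {E : J → Type} [∀ i, Group (E i)] [Group Γ] (π : ∀ i, E i →* Γ) :
    FibreProduct π = FPI π := by
  ext z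
  exact Iff.rfl

theorem infProper_of {K : Type} [Field K] (hK : HilbField K) {L : Type} [Field L] [Algebra K L]
    [FiniteDimensional K L] [IsGalois K L] {J : Type} [Countable J] {E : J → Type}
    [∀ i, Group (E i)] [∀ i, Finite (E i)] (π : ∀ i, E i →* (L ≃ₐ[K] L))
    (hreg : ∀ i, RegSol K L (E i) (π i)) : InfProper π := by
  obtain ⟨F, i1, i2, i3, i4, i5, γ, h1, h2⟩ := Pool.Agent.TH377.IG.inf_hilb hK L J E π hreg
  exact ⟨F, i1, i2, i3, i4, i5, γ.trans (MulEquiv.subgroupCongr (fib_eq π)).symm, h1, h2⟩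

theorem infTw {K : Type} [Field K] (hK : HilbField K) {L : Type} [Field L] [Algebra K L]
    [FiniteDimensional K L] [IsGalois K L] {J : Type} [Countable J] {B : J → Type}
    [∀ i, Group (B i)] [∀ i, Finite (B i)] (α : ∀ i, B i →* (L ≃ₐ[K] L))
    (χ : J → ((L ≃ₐ[K] L) →* ℤˣ)) (n : J → ℕ) (h : ∀ i, TwRegular (α i) (χ i) (n i)) :
    InfTwProper α χ n := by
  have hfin : ∀ i, Finite (TwPow (α i) (χ i) (n i)) := fun i => by
    have hf : Finite (Wr (B i) (n i)) := finite_wr (B i) (n i)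
    exact Finite.of_injective (Subtype.val) Subtype.val_injective
  exact infProper_of hK _ h

end Pool.Agent.N70.EP
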