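import Mathlib
import Pool.Agent.N70.EP.VocC

/-!
# Vocabulary: realizability
-/

set_option autoImplicit false

namespace Pool.Agent.N70.EP.Voc

/-- `X` is the Galois group of a Galois extension of `K`. -/
def Realizable (K X : Type) [Field K] [Group X] : Prop :=
  ∃ (L : Type) (_ : Field L) (_ : Algebra K L), IsGalois K L ∧ Nonempty (X ≃* (L ≃ₐ[K] L))

/-- `X` is the Galois group of a Galois extension of `K(t)` in which `K` is algebraically
closed. -/
def RegularlyRealizable (K X : Type) [Field K] [Group X] : Prop :=
  ∃ (F : Type) (_ : Field F) (_ : Algebra (RatFunc K) F) (_ : Algebra K F)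
    (_ : IsScalarTower K (RatFunc K) F),
    IsGalois (RatFunc K) F ∧ Nonempty (X ≃* (F ≃ₐ[RatFunc K] F)) ∧
      ∀ y : F, IsAlgebraic K y → y ∈ Set.range (algebraMap K F)

/-- Hilbertian fields, with the words of the frozen statement `S03429`. -/
def Hilbertian (K : Type) [Field K] : Prop :=
  ∀ (f : Polynomial (Polynomial K)), f.Monic → Irreducible f →
    (f.map (algebraMap (Polynomial K) (FractionRing (Polynomial K)))).Separable →
    ∀ g : Polynomial K, g ≠ 0 →
      ∃ a : K, g.eval a ≠ 0 ∧ Irreducible (f.map (Polynomial.evalRingHom a))

/-- The group `X` is regularly realizable over all fields of characteristic `0`, and realizable over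
all Hilbertian fields of characteristic `0` and over all number fields. -/
def RealizableAll (X : Type) [Group X] : Prop :=
  ∀ (K : Type) [Field K] [CharZero K], RegularlyRealizable K X ∧ (Hilbertian K → Realizable K X) ∧
    (NumberField K → Realizable K X)

/-- Let `Y` be a quotient of `X`. For all fields `K` of characteristic `0` the group `X` is regularly
realizable over `K` if and only if `Y` is; if `K` is Hilbertian, for example a number field, `X` is
realizable over `K` if and only if `Y` is. -/
def RealizableIff (X Y : Type) [Group X] [Group Y] : Prop :=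
  ∀ (K : Type) [Field K] [CharZero K], (RegularlyRealizable K X ↔ RegularlyRealizable K Y) ∧
    (Hilbertian K → (Realizable K X ↔ Realizable K Y)) ∧
    (NumberField K → (Realizable K X ↔ Realizable K Y))

/-- The realizability of `TwPow α χ n` is equivalent to that of `W`. -/
def TwIff {B W : Type} [Group B] [Group W] (α : B →* W) (χ : W →* ℤˣ) (n : ℕ) : Prop :=
  RealizableIff (TwPow α χ n) W

/-- The group `G ≀ A_n` is realizable. -/
def AltRealizable (G : Type) [Group G] (n : ℕ) : Prop := RealizableAll (AltWreath G n)

end Pool.Agent.N70.EP.Voc
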