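import Mathlib
import Pool.Agent.N70.EP.VocS
import Pool.Agent.N70.EP.VocCB

/-!
Steps.
-/

set_option autoImplicit false
set_option linter.unusedSectionVars false
set_option linter.unusedSimpArgs false

namespace Pool.Agent.N70.EP

open Pool.Agent.H391R2 Pool.Agent.H391R2.T4 Voc
open Pool.Agent.Y793 (AWr AltTw twProj reg_wr regSol_iso)
open Pool.Agent.TH444.TW (RSK infinite_ratFunc finite_of_ker)
open Pool.Agent.TH15.IGP (Lim)

theorem isSplittingIndex_unique {B W : Type} [Group B] [Group W] {α : B →* W} {I I' : ℕ}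
    (h : IsSplittingIndex α I) (h' : IsSplittingIndex α I') : I = I' :=
  Nat.dvd_antisymm ((h'.2 I).2 ((h.2 I).1 dvd_rfl)) ((h.2 I').2 ((h'.2 I').1 dvd_rfl))

/-- The sets of natural numbers. -/
def setB {W B : Type} [Group W] [Group B] (α : B →* W) : Set ℕ :=
  {n | ∀ χ : W →* ℤˣ, OddOrOne α χ → RSK ℚ (twPr α χ n)}

theorem rsk_twPr {W B : Type} [Group W] [Group B] (α : B →* W) (χ : W →* ℤˣ) (n : ℕ)
    (h : RSK ℚ (twProj α χ n)) : RSK ℚ (twPr α χ n) :=
  RSK.congr h (twE α χ n).symm (fun _ => rfl)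

theorem setB_dens {H B : Type} [Group H] [Finite H] [Group B] [Finite B] (α : B →* H)
    (hα : Function.Surjective α) (hperf : commutator α.ker = ⊤) (I : ℕ)
    (hI : IsSplittingIndex α I) : AlmostAllMultiples (2 * I) (fun n => n ∈ setB α) := by
  obtain ⟨I', hI0, hI', -, h⟩ := idx_thmu H B α hα hperf
  have h1 : I' = I := isSplittingIndex_unique ⟨hI0, hI'⟩ hI
  subst h1
  refine almostAll_mono h fun n hn χ hχ => rsk_twPr α χ n (hn χ ?_)
  rcases hχ with ⟨J, hJ, hJ'⟩ | hχ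
  · have h2 : J = I' := isSplittingIndex_unique hJ' hI
    subst h2
    exact Or.inl hJ
  · exact Or.inr hχ

theorem step_main (A₁ : ∀ (W B : Type) [Group W] [Group B], (B →* W) → Set ℕ)
    (A₂ : ∀ (G : Type) [Group G], Set ℕ)
    (h₁ : ∀ (W B : Type) [Group W] [Group B] (α : B →* W) (n : ℕ), n ∈ A₁ W B α → n ∈ setB α)
    (h₂ : ∀ (G : Type) [Group G] (n : ℕ), n ∈ A₂ G → n ∈ setA G)
    {W W' : Type} [Group W] [Group W'] {p : W' →* W} (h : Step A₁ A₂ p) :
    Finite W → Finite W' ∧ RSK ℚ p := by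
  induction h with
  | old p h => exact fun hW => ⟨h.finite, h.rsk⟩
  | @alternating W B _ _ _ α χ n hn hχ =>
    intro hW
    have hf : Finite (Wr B n) := finite_wr B n
    exact ⟨Finite.of_injective Subtype.val Subtype.val_injective, h₁ W B α n hn χ hχ⟩
  | kernel p hp h =>
    intro hW
    obtain ⟨h3, -, h5⟩ := kernel_main A₂ h₂ _ h
    exact ⟨finite_of_ker p, rsk_of_good h5 p hp ⟨MulEquiv.refl _⟩⟩
  | comp p q hp hq ihp ihq =>
    intro hW
    obtain ⟨h1, h2⟩ := ihp hW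
    obtain ⟨h3, h4⟩ := ihq h1
    exact ⟨h3, RSK.comp h2 h4⟩
  | quot p q hq hpq ih =>
    intro hW
    obtain ⟨h1, h2⟩ := ih hW
    exact ⟨Finite.of_surjective q hq, RSK.quot q hq (fun x => rfl) h2⟩

theorem tower_finite0 (W : ℕ → Type) [∀ i, Group (W i)] (p : ∀ i, W (i + 1) →* W i)
    (hp : ∀ i, Finite (W i) → Finite (W (i + 1)) ∧ RSK ℚ (p i)) (h0 : Finite (W 0)) :
    ∀ i, Finite (W i) := by
  intro i
  induction i with
  | zero => exact h0
  | succ i ih => exact (hp i ih).1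

/-- Regular towers. -/
theorem step_regular {K L : Type} [Field K] [CharZero K] [Field L] [Algebra K L]
    [FiniteDimensional K L] [IsGalois K L] {W : ℕ → Type} [∀ i, Group (W i)]
    (p : ∀ i, W (i + 1) →* W i)
    (hp : ∀ i, Finite (W i) → Finite (W (i + 1)) ∧ RSK ℚ (p i)) (e₀ : W 0 ≃* (L ≃ₐ[K] L)) :
    RegularTower p e₀ := by
  have hfin := tower_finite0 W p hp (Finite.of_equiv _ e₀.symm.toEquiv)
  have h := Pool.Agent.TH377.IG.tower_regular K L
    (fun Ω _ _ _ _ _ _ j => Pool.Agent.TH377.IG.regStep K L Ω j) W p (fun i => ?_) e₀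
  · obtain ⟨F, i1, i2, i3, i4, i5, i6, i7, γ, h1, h2, h3⟩ := h
    exact ⟨F, i1, i2, i3, i4, i5, i6, i7, γ, h1, h2, h3⟩
  intro M _ _ _ _ ε
  have hinf := infinite_ratFunc K
  let _ : Algebra ℚ (RatFunc K) :=
    ((algebraMap K (RatFunc K)).comp (Rat.castHom K)).toAlgebra
  exact (hp i (hfin i)).2 (RatFunc K) M ε

/-- Towers over Hilbertian fields. -/
theorem step_proper {K L : Type} [Field K] [CharZero K] (hK : HilbField K) [Field L]
    [Algebra K L] [FiniteDimensional K L] [IsGalois K L] {W : ℕ → Type} [∀ i, Group (W i)]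
    (p : ∀ i, W (i + 1) →* W i)
    (hp : ∀ i, Finite (W i) → Finite (W (i + 1)) ∧ RSK ℚ (p i)) (e₀ : W 0 ≃* (L ≃ₐ[K] L)) :
    ProperTower p e₀ := by
  have hfin := tower_finite0 W p hp (Finite.of_equiv _ e₀.symm.toEquiv)
  have hinf : Infinite K := CharZero.infinite K
  have h := Pool.Agent.TH377.IG.tower_spec (Pool.Agent.TH377.IG.spec_hilb hK) W p
    (fun i M _ _ _ _ ε => ?_) L e₀
  · obtain ⟨F, i1, i2, i3, i4, i5, γ, h1, h2⟩ := h
    exact ⟨F, i1, i2, i3, i4, i5, γ, h1, h2⟩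
  let _ : Algebra ℚ K := DivisionRing.toRatAlgebra
  exact (hp i (hfin i)).2 K M ε

end Pool.Agent.N70.EP
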