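import Mathlib
import Pool.Agent.N70.EP.VocQ
import Pool.Agent.N70.EP.RealB
import Pool.Agent.N70.EP.VocSB

/-!
Realizability of alternating fibre powers.
-/

set_option autoImplicit false
set_option linter.unusedSectionVars false
set_option linter.unusedSimpArgs false

namespace Pool.Agent.N70.EP

open Nfff32c05
open Pool.Agent.H391R2 Voc
open Pool.Agent.H391R2.T4
open Pool.Agent.Y793 (AWr AltTw twProj reg_out hil_out)
open Pool.Agent.TH444.TW (RSK RegularOver regSol_of_regularOver infinite_ratFunc)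
open Pool.Agent.N600.UK (triv_aut)

theorem realizable_iff (K X : Type) [Field K] [Group X] : Realizable K X ↔ IsRealizable K X := by
  constructor
  · rintro ⟨L, i1, i2, i3, ⟨e⟩⟩
    exact ⟨⟨⟨L, i1, i2, i3, e⟩⟩⟩
  · rintro ⟨⟨⟨L, i1, i2, i3, e⟩⟩⟩
    exact ⟨L, i1, i2, i3, ⟨e⟩⟩

theorem regularly_iff (K X : Type) [Field K] [Group X] [Finite X] :
    RegularlyRealizable K X ↔ RegularOver K X := by
  constructor
  · rintro ⟨F, i1, i2, i3, i4, i5, ⟨e⟩, h⟩
    have hfin : Finite (F ≃ₐ[RatFunc K] F) := Finite.of_equiv _ e.toEquiv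
    have hfd : FiniteDimensional (RatFunc K) F :=
      IsGalois.finiteDimensional_of_finite (RatFunc K) F
    exact ⟨F, i1, i2, i3, i4, hfd, i5, ⟨e.symm⟩, h⟩
  · rintro ⟨F, i1, i2, i3, i4, i5, i6, ⟨e⟩, h⟩
    exact ⟨F, i1, i2, i3, i4, i6, ⟨e.symm⟩, h⟩

theorem realizableIff_of {X Y : Type} [Group X] [Finite X] [Group Y] (p : X →* Y)
    (hp : Function.Surjective p) (h : RSK ℚ p) : RealizableIff X Y := by
  intro K _ _
  have hfin : Finite Y := Finite.of_surjective p hp
  refine ⟨?_, fun hK => ?_, fun hK => ?_⟩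
  · rw [regularly_iff, regularly_iff]
    exact regular_rsk_iff p hp h K
  · rw [realizable_iff, realizable_iff]
    exact real_rsk_iff p hp h K hK
  · rw [realizable_iff, realizable_iff]
    exact real_rsk_iff p hp h K (hilb_numberField K)

theorem twPr_surj {B W : Type} [Group B] [Group W] [Finite W] (α : B →* W)
    (hα : Function.Surjective α) (χ : W →* ℤˣ) (n : ℕ) (hn : 2 ≤ n) :
    Function.Surjective (twPr α χ n) := by
  intro ρ
  obtain ⟨b, rfl⟩ := hα ρ
  refine ⟨⟨(⟨fun _ => b, sgnSec n hn (χ (α b))⟩, α b), ⟨fun _ => rfl, ?_⟩⟩, rfl⟩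
  exact sign_sgnSec n hn _

/-- The general case. -/
theorem twIff_dens {H B : Type} [Group H] [Finite H] [Group B] [Finite B] (α : B →* H)
    (hα : Function.Surjective α) (hperf : commutator α.ker = ⊤) (I : ℕ)
    (hI : IsSplittingIndex α I) :
    AlmostAllMultiples (2 * I) (fun n => ∀ χ : H →* ℤˣ, Odd I ∨ χ = 1 → TwIff α χ n) := by
  classical
  have h := setB_dens α hα hperf I hI
  -- small `n`
  have h2 : AlmostAllMultiples (2 * I) (fun n => 2 ≤ n ∧ n ∈ setB α) := by
    intro ε hε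
    obtain ⟨N, hN⟩ := h (ε / 2) (by positivity)
    obtain ⟨N', hN'⟩ := exists_nat_ge (2 / (ε / 2))
    refine ⟨N + N', fun x hx => ?_⟩
    have h3 : ((Finset.range x).filter fun n => 2 * I ∣ n ∧ ¬ (2 ≤ n ∧ n ∈ setB α)).card ≤
        2 + ((Finset.range x).filter fun n => 2 * I ∣ n ∧ ¬ n ∈ setB α).card := by
      refine le_trans (Finset.card_le_card (t := Finset.range 2 ∪
        (Finset.range x).filter fun n => 2 * I ∣ n ∧ ¬ n ∈ setB α) ?_)
        ((Finset.card_union_le _ _).trans (by rw [Finset.card_range]))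
      intro n hn
      rw [Finset.mem_filter, Finset.mem_range] at hn
      rw [Finset.mem_union, Finset.mem_range, Finset.mem_filter, Finset.mem_range]
      by_cases h4 : 2 ≤ n
      · exact Or.inr ⟨hn.1, hn.2.1, fun h5 => hn.2.2 ⟨h4, h5⟩⟩
      · exact Or.inl (by omega)
    have h5 : (2 : ℝ) ≤ (ε / 2) * x := by
      have h6 : (N' : ℝ) ≤ x := by exact_mod_cast (by omega : N' ≤ x)
      have h7 : 2 / (ε / 2) ≤ x := hN'.trans h6
      rw [div_le_iff₀ (by positivity)] at h7
      linarith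
    have h8 := hN x (by omega)
    have h9 : ((((Finset.range x).filter fun n => 2 * I ∣ n ∧ ¬ (2 ≤ n ∧ n ∈ setB α)).card : ℕ) : ℝ) ≤
        ((2 + ((Finset.range x).filter fun n => 2 * I ∣ n ∧ ¬ n ∈ setB α).card : ℕ) : ℝ) :=
      Nat.cast_le.2 h3
    push_cast at h9
    refine le_trans (le_of_eq ?_) (h9.trans ?_)
    · congr!
    have h10 : (((Finset.range x).filter fun n => 2 * I ∣ n ∧ ¬ n ∈ setB α).card : ℝ) ≤
        ε / 2 * x := h8
    linarith
  refine almostAll_mono h2 fun n hn χ hχ => ?_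
  have hf : Finite (Wr B n) := finite_wr B n
  have hf2 : Finite (TwPow α χ n) := Finite.of_injective Subtype.val Subtype.val_injective
  refine realizableIff_of (twPr α χ n) (twPr_surj α hα χ n hn.1) (hn.2 χ ?_)
  rcases hχ with hχ | hχ
  · exact Or.inl ⟨I, hχ, hI⟩
  · exact Or.inr hχ

/-- The trivial group. -/
theorem real_all {X : Type} [Group X] [Finite X] (p : X →* PUnit.{1}) (h : RSK ℚ p) :
    RealizableAll X := by
  intro K _ _
  have hinf : Infinite K := CharZero.infinite K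
  let _ : Algebra ℚ K := DivisionRing.toRatAlgebra
  let ε : (K ≃ₐ[K] K) ≃* PUnit.{1} :=
    { toFun := fun _ => PUnit.unit
      invFun := fun _ => 1
      left_inv := fun _ => triv_aut _ _
      right_inv := fun _ => rfl
      map_mul' := fun _ _ => rfl }
  have h1 := h K K ε
  have h2 : (ε.symm.toMonoidHom.comp p) = 1 := MonoidHom.ext fun x => triv_aut _ _
  rw [h2] at h1
  exact ⟨reg_out K X h1, fun hK => hil_out K X hK h1,
    fun hK => hil_out K X (hilb_numberField K) h1⟩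

/-- The projection of `G ≀ A_n`. -/
def altE (G : Type) [Group G] (n : ℕ) :
    AltWreath G n ≃* AltTw (1 : G →* PUnit.{1}) 1 n where
  toFun x := ⟨(x.1, 1), Subgroup.mem_inf.2 ⟨fun _ => rfl, x.2⟩⟩
  invFun z := ⟨z.1.1, (Subgroup.mem_inf.1 z.2).2⟩
  left_inv _ := rfl
  right_inv z := Subtype.ext (Prod.ext rfl (Subsingleton.elim _ _))
  map_mul' x y := Subtype.ext (Prod.ext rfl (Subsingleton.elim _ _))

theorem altRealizable_of (G : Type) [Group G] [Finite G] (n : ℕ)
    (h : RSK ℚ (twProj (1 : G →* PUnit.{1}) 1 n)) : AltRealizable G n := by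
  have hf : Finite (Wr G n) := finite_wr G n
  have hf2 : Finite (AltWreath G n) := Finite.of_injective Subtype.val Subtype.val_injective
  exact real_all (1 : AltWreath G n →* PUnit.{1}) (RSK.congr h (altE G n).symm
    (fun _ => Subsingleton.elim _ _))

theorem splitIdx_one (G : Type) [Group G] (r : ℕ) : SplitIdx (1 : G →* PUnit.{1}) r := by
  intro d hd
  have h1 := hd ⊤ 1 (fun _ => rfl)
  rw [Subgroup.index_top] at h1
  exact h1.trans (one_dvd r)

theorem alt_struct (G : Type) [Group G] [Finite G] (hG : commutator G = ⊤) (q : ℕ) (hq : Even q)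
    (hq4 : 4 ≤ q) :
    ∃ r₀ : ℕ, ∀ r ≥ r₀, ∃ k₀ : ℕ, ∀ k ≥ k₀, AltRealizable G (q * r * (2 * k + 1)) := by
  have hker : (1 : G →* PUnit.{1}).ker = ⊤ := by
    ext x
    exact ⟨fun _ => Subgroup.mem_top _, fun _ => rfl⟩
  have hperf : commutator (1 : G →* PUnit.{1}).ker = ⊤ :=
    Y793.perf_congr (Subgroup.topEquiv.symm.trans (MulEquiv.subgroupCongr hker.symm)) hG
  obtain ⟨r₀, hr₀⟩ := t5u PUnit.{1} G 1 (fun _ => ⟨1, rfl⟩) hperf q hq hq4
  refine ⟨r₀, fun r hr => ?_⟩
  obtain ⟨k₀, hk₀⟩ := hr₀ r hr (splitIdx_one G r)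
  exact ⟨k₀, fun k hk => altRealizable_of G _ (hk₀ k hk 1 (Or.inr rfl))⟩

theorem alt_dens (G : Type) [Group G] [Finite G] (hG : commutator G = ⊤) :
    AlmostAllMultiples 2 (fun n => AltRealizable G n) := by
  refine t_dens 1 _ one_pos fun q hq hq4 => ?_
  obtain ⟨r₀, hr₀⟩ := alt_struct G hG q hq hq4
  refine ⟨r₀, fun s hs _ => ?_⟩
  rw [one_mul]
  exact hr₀ s hs

end Pool.Agent.N70.EP
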